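import Pool.Agent.PG.Defs

/-!
# Counting pairings and index functions
-/

namespace Pool.Agent.PG

open Finset

section basic

variable {k : ℕ}

theorem even_add_one (hk : 1 ≤ k) (b : ZMod (4 * k)) : Even (b + 1).val ↔ ¬ Even b.val := by
  have : NeZero (4 * k) := ⟨by omega⟩
  have h2 : 2 ∣ 4 * k := ⟨2 * k, by ring⟩
  rw [ZMod.val_add, ZMod.val_one_eq_one_mod, Nat.one_mod_eq_one.2 (by omega)]
  rw [Nat.even_iff, Nat.even_iff, Nat.mod_mod_of_dvd _ h2]
  omega

theorem ev_even (hk : 1 ≤ k) (b : ZMod (4 * k)) : Even (ev k b).val := by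
  unfold ev
  split_ifs with h
  · exact h
  · exact (even_add_one hk b).2 h

theorem od_odd (hk : 1 ≤ k) (b : ZMod (4 * k)) : ¬ Even (od k b).val := by
  unfold od
  split_ifs with h
  · rw [even_add_one hk b]; exact not_not.2 h
  · exact h

/-- the time of letter `b` of given parity -/
noncomputable def sp (k : ℕ) (e : Prop) [Decidable e] (b : ZMod (4 * k)) : ZMod (4 * k) :=
  if e then ev k b else od k b

theorem sp_touch (e : Prop) [Decidable e] (b t : ZMod (4 * k)) (h : sp k e b = t) :
    b = t ∨ b + 1 = t := by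
  unfold sp ev od at h
  split_ifs at h
  · exact Or.inl h
  · exact Or.inr h
  · exact Or.inr h
  · exact Or.inl h

theorem sp_parity (hk : 1 ≤ k) (e : Prop) [Decidable e] (b : ZMod (4 * k)) :
    Even (sp k e b).val ↔ e := by
  unfold sp
  split_ifs with h
  · exact ⟨fun _ => h, fun _ => ev_even hk b⟩
  · exact ⟨fun h' => absurd h' (od_odd hk b), fun h' => absurd h' h⟩

theorem touch_sp (hk : 1 ≤ k) (e : Prop) [Decidable e] (b t : ZMod (4 * k))
    (he : Even t.val ↔ e) (h : b = t ∨ b + 1 = t) : sp k e b = t := by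
  unfold sp ev od
  by_cases hb : Even b.val
  · simp only [hb, if_true]
    split_ifs with h1
    · rcases h with h | h
      · exact h
      · have := (even_add_one hk b).1 (by rw [h]; exact he.2 h1)
        exact absurd hb this
    · rcases h with h | h
      · rw [h] at hb; exact absurd (he.1 hb) h1
      · exact h
  · simp only [hb, if_false]
    split_ifs with h1
    · rcases h with h | h
      · rw [h] at hb; exact absurd (he.2 h1) hb
      · exact h
    · rcases h with h | h
      · exact h
      · have := (even_add_one hk b).2 hb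
        rw [h] at this
        exact absurd (he.1 this) h1

theorem cmp_sp {h : ZMod (4 * k) → ℕ} {a b : ZMod (4 * k)} (hc : cmp h a b) (e : Prop)
    [Decidable e] : h (sp k e a) = h (sp k e b) := by
  unfold sp
  split_ifs
  · exact hc.1
  · exact hc.2

theorem cmp_of_sp {h : ZMod (4 * k) → ℕ} {a b : ZMod (4 * k)}
    (h1 : h (sp k True a) = h (sp k True b)) (h2 : h (sp k False a) = h (sp k False b)) :
    cmp h a b := by
  unfold sp at h1 h2
  simp only [if_true, if_false] at h1 h2
  exact ⟨h1, h2⟩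

end basic

section setoid

variable {k : ℕ}

/-- times on which all compatible index functions agree -/
def Sd (k : ℕ) (π : Equiv.Perm (ZMod (4 * k))) : Setoid (ZMod (4 * k)) where
  r t t' := ∀ h : ZMod (4 * k) → ℕ, (∀ a, cmp h a (π a)) → h t = h t'
  iseqv := ⟨fun _ _ _ => rfl, fun h g hg => (h g hg).symm,
    fun h1 h2 g hg => (h1 g hg).trans (h2 g hg)⟩

theorem Sd_parity (hk : 1 ≤ k) {π : Equiv.Perm (ZMod (4 * k))} {t t' : ZMod (4 * k)}
    (h : (Sd k π) t t') : Even t.val ↔ Even t'.val := by
  classical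
  have h1 := h (fun x => if Even x.val then 1 else 0) (by
    intro a
    constructor
    · simp only [ev_even hk, if_true]
    · simp only [od_odd hk, if_false])
  by_cases h2 : Even t.val <;> by_cases h3 : Even t'.val <;> simp [h2, h3] at h1 ⊢

theorem Sd_letter {π : Equiv.Perm (ZMod (4 * k))} (e : Prop) [Decidable e] (a : ZMod (4 * k)) :
    (Sd k π) (sp k e a) (sp k e (π a)) := fun _ hg => cmp_sp (hg a) e

/-- the class of a time as a finite set -/
noncomputable def Cl (k : ℕ) [NeZero (4 * k)] (π : Equiv.Perm (ZMod (4 * k))) (t : ZMod (4 * k)) :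
    Finset (ZMod (4 * k)) := by
  classical
  exact univ.filter (fun t' => (Sd k π) t t')

theorem mem_Cl [NeZero (4 * k)] {π : Equiv.Perm (ZMod (4 * k))} {t t' : ZMod (4 * k)} :
    t' ∈ Cl k π t ↔ (Sd k π) t t' := by
  classical
  simp [Cl]

theorem self_mem_Cl [NeZero (4 * k)] {π : Equiv.Perm (ZMod (4 * k))} (t : ZMod (4 * k)) :
    t ∈ Cl k π t := mem_Cl.2 (fun _ _ => rfl)

theorem Cl_eq [NeZero (4 * k)] {π : Equiv.Perm (ZMod (4 * k))} {t t' : ZMod (4 * k)}
    (h : (Sd k π) t t') : Cl k π t = Cl k π t' := by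
  ext x
  rw [mem_Cl, mem_Cl]
  exact ⟨fun h1 => (Sd k π).trans ((Sd k π).symm h) h1, fun h1 => (Sd k π).trans h h1⟩

/-- if the two letters at time `t` are paired with each other then `t` is alone in its class -/
theorem alone (hk : 1 ≤ k) {π : Equiv.Perm (ZMod (4 * k))} (hπ : ∀ a, π (π a) = a)
    {t : ZMod (4 * k)} (ht : π t + 1 = t) {t' : ZMod (4 * k)} (h : (Sd k π) t t') : t' = t := by
  classical
  have hkey : ∀ (e : Prop) [Decidable e] (a : ZMod (4 * k)), sp k e a = t → sp k e (π a) = t := by
    intro e _ a ha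
    have hp : Even t.val ↔ e := by rw [← ha]; exact sp_parity hk e a
    apply touch_sp hk e _ _ hp
    rcases sp_touch e a t ha with h1 | h1
    · right; rw [h1]; exact ht
    · left
      have : a = π t := by
        have := h1.trans ht.symm
        exact add_right_cancel this
      rw [this, hπ]
  have h1 := h (fun x => if x = t then 1 else 0) (by
    intro a
    have hall : ∀ (e : Prop) [Decidable e], sp k e a = t ↔ sp k e (π a) = t := by
      intro e _
      refine ⟨hkey e a, fun h2 => ?_⟩
      have := hkey e (π a) h2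
      rwa [hπ] at this
    apply cmp_of_sp
    · simp only [hall True]
    · simp only [hall False])
  by_contra hne
  simp [hne] at h1


/-- a singleton class forces the two letters at that time to be paired -/
theorem single_pair (hk : 1 ≤ k) [NeZero (4 * k)] {π : Equiv.Perm (ZMod (4 * k))}
    (hne : ∀ a, π a ≠ a) {t : ZMod (4 * k)} (h1 : ∀ t', (Sd k π) t t' → t' = t) :
    π t + 1 = t := by
  classical
  have e1 : sp k (Even t.val) t = t := touch_sp hk _ _ _ Iff.rfl (Or.inl rfl)
  have e2 := Sd_letter (π := π) (Even t.val) t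
  rw [e1] at e2
  rcases sp_touch _ _ _ (h1 _ e2) with h | h
  · exact absurd h (hne t)
  · exact h

theorem single_place (hk : 1 ≤ k) [NeZero (4 * k)] {π : Equiv.Perm (ZMod (4 * k))}
    (hfr : ∀ a, ¬ Fr k a (π a)) {t : ZMod (4 * k)} (h : π t + 1 = t) :
    t = 0 ∨ t = ((2 * k : ℕ) : ZMod (4 * k)) := by
  by_contra hcon
  push Not at hcon
  apply hfr t
  refine ⟨?_, Or.inr h.symm⟩
  have ht0 : t.val ≠ 0 := by
    intro h0
    exact hcon.1 ((ZMod.val_eq_zero t).1 h0)
  have h2k : t.val ≠ 2 * k := by
    intro h0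
    apply hcon.2
    rw [← h0, ZMod.natCast_zmod_val]
  have hp : π t = t - 1 := by rw [eq_sub_iff_add_eq]; exact h
  have h1v : (1 : ZMod (4 * k)).val = 1 := by
    rw [ZMod.val_one_eq_one_mod, Nat.one_mod_eq_one.2 (by omega)]
  have hv : (π t).val = t.val - 1 := by
    rw [hp, ZMod.val_sub (by rw [h1v]; omega), h1v]
  rw [hv]
  omega

/-- good times: the two letters are paired with neighbouring letters -/
theorem good_step (hk : 1 ≤ k) [NeZero (4 * k)] {π : Equiv.Perm (ZMod (4 * k))}
    (hinv : ∀ a, π (π a) = a) (hne : ∀ a, π a ≠ a) {j : ZMod (4 * k)}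
    (hgood : (Cl k π (j + 1)).card = 2) :
    π (j + 1) = π j + 1 ∨ π j = π (j + 1) + 1 := by
  classical
  set t := j + 1 with ht
  obtain ⟨t', htt', hcl⟩ : ∃ t', t' ≠ t ∧ Cl k π t = {t, t'} := by
    obtain ⟨x, y, hxy, hc⟩ := Finset.card_eq_two.1 hgood
    have hmem := self_mem_Cl (π := π) t
    rw [hc] at hmem
    simp only [mem_insert, mem_singleton] at hmem
    rcases hmem with h | h
    · exact ⟨y, by rw [h]; exact hxy.symm, by rw [hc, h]⟩
    · exact ⟨x, by rw [h]; exact hxy, by rw [hc, h, Finset.pair_comm]⟩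
  have hnotpair : ¬ (π t + 1 = t) := by
    intro hp
    have : (Sd k π) t t' := mem_Cl.1 (by rw [hcl]; simp)
    exact htt' (alone hk hinv hp this)
  have key : ∀ b : ZMod (4 * k), (b = t ∨ b + 1 = t) → (π b = t' ∨ π b + 1 = t') := by
    intro b hb
    have e1 : sp k (Even t.val) b = t := touch_sp hk _ _ _ Iff.rfl hb
    have e2 := Sd_letter (π := π) (Even t.val) b
    rw [e1] at e2
    have e3 := mem_Cl.2 e2
    rw [hcl] at e3
    simp only [mem_insert, mem_singleton] at e3
    rcases e3 with e3 | e3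
    · exfalso
      apply hnotpair
      rcases sp_touch _ _ _ e3 with h | h
      · -- π b = t
        rcases hb with hb | hb
        · exact absurd (h.trans hb.symm) (hne b)
        · -- b + 1 = t, π b = t, so π t = b
          have : π t = b := by rw [← h, hinv]
          rw [this, hb]
      · rcases hb with hb | hb
        · rw [← hb] at h ⊢; exact h
        · exact absurd (add_right_cancel (h.trans hb.symm)) (hne b)
    · exact sp_touch _ _ _ e3
  have k1 := key t (Or.inl rfl)
  have k2 := key j (Or.inr ht.symm)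
  have hinj : π t ≠ π j := by
    intro h
    have h2 := π.injective h
    rw [ht] at h2
    have h3 : (1 : ZMod (4 * k)) = 0 := by
      have : j + 1 = j + 0 := by rw [add_zero]; exact h2
      exact add_left_cancel this
    have h1v : (1 : ZMod (4 * k)).val = 1 := by
      rw [ZMod.val_one_eq_one_mod, Nat.one_mod_eq_one.2 (by omega)]
    rw [h3, ZMod.val_zero] at h1v
    exact absurd h1v (by norm_num)
  rcases k1 with k1 | k1 <;> rcases k2 with k2 | k2
  · exact absurd (k1.trans k2.symm) hinj
  · left; rw [k1, k2]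
  · right; rw [k2, k1]
  · exact absurd (add_right_cancel (k1.trans k2.symm)) hinj

/-- the set of bad times -/
noncomputable def Bad (k : ℕ) [NeZero (4 * k)] (π : Equiv.Perm (ZMod (4 * k))) :
    Finset (ZMod (4 * k)) := by
  classical
  exact univ.filter (fun t => (Cl k π t).card ≠ 2)

theorem mem_Bad [NeZero (4 * k)] {π : Equiv.Perm (ZMod (4 * k))} {t : ZMod (4 * k)} :
    t ∈ Bad k π ↔ (Cl k π t).card ≠ 2 := by
  classical
  simp [Bad]

theorem PiStar_iff {π : Equiv.Perm (ZMod (4 * k))} : π ∈ PiStar k ↔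
    (∀ a, π a ≠ a) ∧ (∀ a, π (π a) = a) ∧ ∀ a, ¬ Fr k a (π a) := by
  constructor
  · intro h
    exact ⟨fun a => (h a).1, fun a => (h a).2.1, fun a => (h a).2.2⟩
  · rintro ⟨h1, h2, h3⟩ a
    exact ⟨h1 a, h2 a, h3 a⟩

/-- the direction flag at `j` -/
def flag (π : Equiv.Perm (ZMod (4 * k))) (j : ZMod (4 * k)) : Prop := π (j + 1) = π j + 1

theorem two_ne_zero' (hk : 1 ≤ k) : (2 : ZMod (4 * k)) ≠ 0 := by
  intro h
  have h2 : ((2 : ℕ) : ZMod (4 * k)) = 0 := by exact_mod_cast h
  rw [ZMod.natCast_eq_zero_iff] at h2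
  have := Nat.le_of_dvd (by norm_num) h2
  omega

/-- the flag does not change between two consecutive good times -/
theorem flag_const (hk : 1 ≤ k) [NeZero (4 * k)] {π : Equiv.Perm (ZMod (4 * k))}
    (hinv : ∀ a, π (π a) = a) (hne : ∀ a, π a ≠ a) {j : ZMod (4 * k)}
    (h1 : j + 1 ∉ Bad k π) (h2 : j + 1 + 1 ∉ Bad k π) : flag π (j + 1) ↔ flag π j := by
  rw [mem_Bad, not_not] at h1 h2
  have g1 := good_step hk hinv hne h1
  have g2 := good_step hk hinv hne h2
  have hjj : π (j + 1 + 1) ≠ π j := by
    intro h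
    have h3 := π.injective h
    have h4 : (2 : ZMod (4 * k)) = 0 := by linear_combination h3
    exact two_ne_zero' hk h4
  unfold flag
  constructor
  · intro h
    rcases g1 with g | g
    · exact g
    · exact absurd (h.trans g.symm) hjj
  · intro h
    rcases g2 with g | g
    · exact g
    · -- π (j+1) = π (j+2) + 1 and π (j+1) = π j + 1
      exact absurd (add_right_cancel (g.symm.trans h)) hjj

/-- injectivity of the encoding -/
theorem encode_inj (hk : 1 ≤ k) [NeZero (4 * k)] {π π' : Equiv.Perm (ZMod (4 * k))}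
    (hπ : π ∈ PiStar k) (hπ' : π' ∈ PiStar k) (hB : Bad k π = Bad k π')
    (hdata : ∀ t ∈ insert 0 (Bad k π), π t = π' t ∧ (flag π t ↔ flag π' t)) : π = π' := by
  rw [PiStar_iff] at hπ hπ'
  obtain ⟨hne, hinv, -⟩ := hπ
  obtain ⟨hne', hinv', -⟩ := hπ'
  have key : ∀ j : ℕ, π (j : ZMod (4 * k)) = π' (j : ZMod (4 * k)) ∧
      ((j : ZMod (4 * k)) + 1 ∉ Bad k π → (flag π (j : ZMod (4 * k)) ↔ flag π' (j : ZMod (4 * k)))) := by
    intro j
    induction j with
    | zero =>
      have := hdata 0 (mem_insert_self _ _)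
      rw [Nat.cast_zero]
      exact ⟨this.1, fun _ => this.2⟩
    | succ j ih =>
      obtain ⟨ih1, ih2⟩ := ih
      rw [Nat.cast_succ]
      by_cases hb : (j : ZMod (4 * k)) + 1 ∈ Bad k π
      · have := hdata _ (mem_insert_of_mem hb)
        exact ⟨this.1, fun _ => this.2⟩
      · have hb' : (j : ZMod (4 * k)) + 1 ∉ Bad k π' := by rw [← hB]; exact hb
        have hf := ih2 hb
        have hgb := hb
        have hgb' := hb'
        rw [mem_Bad, not_not] at hgb hgb'
        have g := good_step hk hinv hne hgb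
        have g' := good_step hk hinv' hne' hgb'
        have heq : π ((j : ZMod (4 * k)) + 1) = π' ((j : ZMod (4 * k)) + 1) := by
          by_cases hfl : flag π (j : ZMod (4 * k))
          · have hfl' := hf.1 hfl
            unfold flag at hfl hfl'
            rw [hfl, hfl', ih1]
          · have hfl' : ¬ flag π' (j : ZMod (4 * k)) := fun h => hfl (hf.2 h)
            have g1 := g.resolve_left hfl
            have g1' := g'.resolve_left hfl'
            apply add_right_cancel (b := (1 : ZMod (4 * k)))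
            rw [← g1, ← g1', ih1]
        refine ⟨heq, fun hb2 => ?_⟩
        have hb2' : (j : ZMod (4 * k)) + 1 + 1 ∉ Bad k π' := by rw [← hB]; exact hb2
        rw [flag_const hk hinv hne hb hb2, flag_const hk hinv' hne' hb' hb2']
        exact hf
  ext x
  have := (key x.val).1
  rw [ZMod.natCast_zmod_val] at this
  rw [this]


/-- number of pairings with given bad set -/
theorem card_given_bad (hk : 1 ≤ k) [NeZero (4 * k)] (B : Finset (ZMod (4 * k)))
    (S : Finset (Equiv.Perm (ZMod (4 * k)))) (hS : ∀ π ∈ S, π ∈ PiStar k ∧ Bad k π = B) :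
    S.card ≤ (2 * (4 * k)) ^ (B.card + 1) := by
  classical
  let f : Equiv.Perm (ZMod (4 * k)) → ((insert 0 B : Finset (ZMod (4 * k))) → ZMod (4 * k) × Bool) :=
    fun π t => (π t.1, decide (flag π t.1))
  have h1 : S.card ≤ (univ : Finset ((insert 0 B : Finset (ZMod (4 * k))) → ZMod (4 * k) × Bool)).card := by
    apply Finset.card_le_card_of_injOn f (fun _ _ => mem_coe.2 (mem_univ _))
    intro π hπ π' hπ' hf
    obtain ⟨h1, h2⟩ := hS π (mem_coe.1 hπ)
    obtain ⟨h1', h2'⟩ := hS π' (mem_coe.1 hπ')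
    apply encode_inj hk h1 h1' (by rw [h2, h2'])
    intro t ht
    rw [h2] at ht
    have := congrFun hf ⟨t, ht⟩
    simp only [f, Prod.mk.injEq, decide_eq_decide] at this
    exact this
  refine le_trans h1 ?_
  rw [Finset.card_univ, Fintype.card_fun, Fintype.card_prod, ZMod.card, Fintype.card_bool,
    Fintype.card_coe, mul_comm (4 * k) 2]
  exact Nat.pow_le_pow_right (by omega) (card_insert_le _ _)

theorem card_even (hk : 1 ≤ k) [NeZero (4 * k)] :
    (univ.filter (fun t : ZMod (4 * k) => Even t.val)).card = 2 * k ∧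
    (univ.filter (fun t : ZMod (4 * k) => ¬ Even t.val)).card = 2 * k := by
  have h1 : (univ.filter (fun t : ZMod (4 * k) => Even t.val)).card
      = (univ.filter (fun t : ZMod (4 * k) => ¬ Even t.val)).card := by
    apply Finset.card_bij (fun t _ => t + 1)
    · intro t ht
      simp only [mem_filter, mem_univ, true_and] at ht ⊢
      rw [even_add_one hk, not_not]
      exact ht
    · intro a _ b _ h
      exact add_right_cancel h
    · intro b hb
      simp only [mem_filter, mem_univ, true_and] at hb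
      refine ⟨b - 1, ?_, by ring⟩
      simp only [mem_filter, mem_univ, true_and]
      by_contra hcon
      apply hb
      have := (even_add_one hk (b - 1)).2 hcon
      rwa [sub_add_cancel] at this
  have h2 := Finset.card_filter_add_card_filter_not (s := (univ : Finset (ZMod (4 * k))))
    (fun t : ZMod (4 * k) => Even t.val)
  rw [Finset.card_univ, ZMod.card] at h2
  omega

section classes

variable [NeZero (4 * k)] (π : Equiv.Perm (ZMod (4 * k)))

noncomputable instance : Fintype (Quotient (Sd k π)) := Fintype.ofFinite _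
noncomputable instance : DecidableEq (Quotient (Sd k π)) := Classical.decEq _

omit [NeZero (4 * k)] in
theorem out_rel (t : ZMod (4 * k)) : (Sd k π) (Quotient.out (Quotient.mk (Sd k π) t)) t :=
  Quotient.mk_out t

theorem mem_Cl_out {t : ZMod (4 * k)} {c : Quotient (Sd k π)} :
    t ∈ Cl k π c.out ↔ Quotient.mk (Sd k π) t = c := by
  rw [mem_Cl]
  constructor
  · intro h
    rw [← Quotient.out_eq c]
    exact Quotient.sound ((Sd k π).symm h)
  · intro h
    rw [← h]
    exact out_rel π t

theorem Cl_out (t : ZMod (4 * k)) : Cl k π (Quotient.mk (Sd k π) t).out = Cl k π t :=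
  Cl_eq (out_rel π t)

omit [NeZero (4 * k)] in
theorem par_out (hk : 1 ≤ k) (t : ZMod (4 * k)) :
    Even (Quotient.mk (Sd k π) t).out.val ↔ Even t.val := Sd_parity hk (out_rel π t)

/-- sum over the classes of a given parity -/
theorem sum_classes (e : ZMod (4 * k) → Prop) [DecidablePred e]
    (he : ∀ t, e (Quotient.mk (Sd k π) t).out ↔ e t) :
    (univ.filter (fun t => e t)).card
      = ∑ c ∈ univ.filter (fun c : Quotient (Sd k π) => e c.out), (Cl k π c.out).card := by
  classical
  rw [Finset.card_eq_sum_card_fiberwise (f := fun t => Quotient.mk (Sd k π) t)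
    (t := univ.filter (fun c : Quotient (Sd k π) => e c.out))]
  · refine sum_congr rfl fun c hc => ?_
    congr 1
    ext t
    simp only [mem_filter, mem_univ, true_and] at hc ⊢
    rw [mem_Cl_out]
    constructor
    · exact fun h => h.2
    · intro h
      refine ⟨?_, h⟩
      rw [← he, h]
      exact hc
  · intro t ht
    simp only [coe_filter, mem_univ, true_and] at ht ⊢
    exact (he t).2 ht

theorem sum_bad (e : ZMod (4 * k) → Prop) [DecidablePred e]
    (he : ∀ t, e (Quotient.mk (Sd k π) t).out ↔ e t) :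
    ((Bad k π).filter (fun t => e t)).card
      = ∑ c ∈ univ.filter (fun c : Quotient (Sd k π) => e c.out),
        (if (Cl k π c.out).card ≠ 2 then (Cl k π c.out).card else 0) := by
  classical
  rw [Finset.card_eq_sum_card_fiberwise (f := fun t => Quotient.mk (Sd k π) t)
    (t := univ.filter (fun c : Quotient (Sd k π) => e c.out))]
  · refine sum_congr rfl fun c hc => ?_
    simp only [mem_filter, mem_univ, true_and] at hc
    split_ifs with h2
    · congr 1
      ext t
      simp only [mem_filter]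
      rw [mem_Cl_out, mem_Bad]
      constructor
      · exact fun h => h.2
      · intro h
        refine ⟨⟨?_, ?_⟩, h⟩
        · rw [← Cl_out, h]; exact h2
        · rw [← he, h]; exact hc
    · rw [Finset.card_eq_zero, Finset.filter_eq_empty_iff]
      intro t ht h
      rw [mem_filter, mem_Bad] at ht
      rw [← Cl_out, h] at ht
      exact h2 ht.1
  · intro t ht
    simp only [coe_filter] at ht ⊢
    exact ⟨mem_univ _, (he t).2 ht.2⟩

theorem class_ineq (e : ZMod (4 * k) → Prop) [DecidablePred e]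
    (he : ∀ t, e (Quotient.mk (Sd k π) t).out ↔ e t) :
    6 * (univ.filter (fun c : Quotient (Sd k π) => e c.out)).card
      + ((Bad k π).filter (fun t => e t)).card
      ≤ 3 * (univ.filter (fun t => e t)).card
        + 4 * (univ.filter (fun c : Quotient (Sd k π) => e c.out ∧ (Cl k π c.out).card = 1)).card := by
  classical
  rw [sum_classes π e he, sum_bad π e he, mul_sum]
  have h1 : (univ.filter (fun c : Quotient (Sd k π) => e c.out ∧ (Cl k π c.out).card = 1)).card
      = ∑ c ∈ univ.filter (fun c : Quotient (Sd k π) => e c.out),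
        (if (Cl k π c.out).card = 1 then 1 else 0) := by
    rw [← filter_filter, card_filter]
  rw [h1, mul_sum, card_eq_sum_ones, mul_sum, ← sum_add_distrib, ← sum_add_distrib]
  apply sum_le_sum
  intro c _
  have hpos : 0 < (Cl k π c.out).card := card_pos.2 ⟨_, self_mem_Cl _⟩
  split_ifs <;> omega

theorem single_count (hk : 1 ≤ k) (hπ : π ∈ PiStar k) (e : ZMod (4 * k) → Prop) [DecidablePred e] :
    (univ.filter (fun c : Quotient (Sd k π) => e c.out ∧ (Cl k π c.out).card = 1)).card
      ≤ (({0, ((2 * k : ℕ) : ZMod (4 * k))} : Finset (ZMod (4 * k))).filter (fun t => e t)).card := by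
  classical
  rw [PiStar_iff] at hπ
  apply Finset.card_le_card_of_injOn (fun c => c.out)
  · intro c hc
    simp only [coe_filter, mem_univ, true_and] at hc
    obtain ⟨h1, h2⟩ := hc
    simp only [coe_filter, mem_insert, mem_singleton]
    refine ⟨?_, h1⟩
    apply single_place hk hπ.2.2
    apply single_pair hk hπ.1
    intro t' ht'
    obtain ⟨x, hx⟩ := Finset.card_eq_one.1 h2
    have h3 := self_mem_Cl (π := π) c.out
    have h4 := mem_Cl.2 ht'
    rw [hx, mem_singleton] at h3 h4
    rw [h3, h4]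
  · intro c _ c' _ h
    simp only at h
    rw [← Quotient.out_eq c, ← Quotient.out_eq c', h]


/-- number of even and odd classes -/
theorem VE_le (hk : 1 ≤ k) (hπ : π ∈ PiStar k) :
    6 * (univ.filter (fun c : Quotient (Sd k π) => Even c.out.val)).card
      + ((Bad k π).filter (fun t => Even t.val)).card ≤ 6 * k + 8 := by
  classical
  have h1 := class_ineq π (fun t => Even t.val) (par_out π hk)
  have h2 := single_count π hk hπ (fun t => Even t.val)
  have h3 : (({0, ((2 * k : ℕ) : ZMod (4 * k))} : Finset (ZMod (4 * k))).filter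
      (fun t => Even t.val)).card ≤ 2 :=
    le_trans (card_filter_le _ _) card_le_two
  rw [(card_even hk).1] at h1
  omega

theorem VO_le (hk : 1 ≤ k) (hπ : π ∈ PiStar k) :
    6 * (univ.filter (fun c : Quotient (Sd k π) => ¬ Even c.out.val)).card
      + ((Bad k π).filter (fun t => ¬ Even t.val)).card ≤ 6 * k := by
  classical
  have h1 := class_ineq π (fun t => ¬ Even t.val) (fun t => not_congr (par_out π hk t))
  have h2 := single_count π hk hπ (fun t => ¬ Even t.val)
  have h3 : (({0, ((2 * k : ℕ) : ZMod (4 * k))} : Finset (ZMod (4 * k))).filter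
      (fun t => ¬ Even t.val)).card = 0 := by
    rw [Finset.card_eq_zero, Finset.filter_eq_empty_iff]
    intro t ht
    rw [mem_insert, mem_singleton] at ht
    rw [not_not]
    rcases ht with h | h
    · rw [h, ZMod.val_zero]; exact Even.zero
    · rw [h, ZMod.val_natCast_of_lt (by omega)]
      exact ⟨k, by ring⟩
  rw [(card_even hk).2] at h1
  omega

/-- compatible index functions -/
noncomputable def Hc (N P : ℕ) : Finset (ZMod (4 * k) → ℕ) := by
  classical
  exact (Fintype.piFinset (fun t : ZMod (4 * k) => range (if Even t.val then N else P))).filter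
    (fun h => ∀ a, cmp h a (π a))

theorem mem_Hc {N P : ℕ} {h : ZMod (4 * k) → ℕ} :
    h ∈ Hc π N P ↔ h ∈ HH k N P ∧ ∀ a, cmp h a (π a) := by
  classical
  simp only [Hc, mem_filter, Fintype.mem_piFinset, mem_range, HH, Set.mem_ofPred_eq]
  refine and_congr_left fun _ => forall_congr' fun t => ?_
  by_cases he : Even t.val
  · simp [he]
  · simp [he]

theorem card_Hc_le (N P : ℕ) :
    (Hc π N P).card ≤ N ^ (univ.filter (fun c : Quotient (Sd k π) => Even c.out.val)).card
      * P ^ (univ.filter (fun c : Quotient (Sd k π) => ¬ Even c.out.val)).card := by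
  classical
  have h1 : (Hc π N P).card ≤ (Fintype.piFinset (fun c : Quotient (Sd k π) =>
      range (if Even c.out.val then N else P))).card := by
    apply Finset.card_le_card_of_injOn (fun h c => h c.out)
    · intro h hh
      rw [mem_coe, mem_Hc] at hh
      rw [mem_coe, Fintype.mem_piFinset]
      intro c
      rw [mem_range]
      have := hh.1 c.out
      split_ifs with he
      · exact this.1 he
      · exact this.2 he
    · intro h hh h' hh' heq
      rw [mem_coe, mem_Hc] at hh hh'
      funext t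
      have h2 := out_rel π t h hh.2
      have h3 := out_rel π t h' hh'.2
      have h4 := congrFun heq (Quotient.mk (Sd k π) t)
      simp only at h4
      rw [← h2, ← h3, h4]
  refine le_trans h1 (le_of_eq ?_)
  rw [Fintype.card_piFinset]
  have : ∀ c : Quotient (Sd k π), (range (if Even c.out.val then N else P)).card
      = if Even c.out.val then N else P := fun c => card_range _
  rw [prod_congr rfl (fun c _ => this c), prod_ite, prod_const, prod_const]

theorem pow_aux {A N v b m : ℕ} (hA : A ^ 6 ≤ N) (hN : 1 ≤ N) (h : 6 * v + b ≤ 6 * m) :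
    A ^ b * N ^ v ≤ N ^ m := by
  rw [← pow_le_pow_iff_left₀ (Nat.zero_le _) (Nat.zero_le _) (by norm_num : 6 ≠ 0)]
  calc (A ^ b * N ^ v) ^ 6 = (A ^ 6) ^ b * N ^ (6 * v) := by
        rw [mul_pow, ← pow_mul, ← pow_mul, ← pow_mul, mul_comm b 6, mul_comm v 6]
    _ ≤ N ^ b * N ^ (6 * v) := Nat.mul_le_mul_right _ (Nat.pow_le_pow_left hA b)
    _ = N ^ (b + 6 * v) := by rw [pow_add]
    _ ≤ N ^ (6 * m) := Nat.pow_le_pow_right hN (by omega)
    _ = (N ^ m) ^ 6 := by rw [← pow_mul, mul_comm]

theorem Hc_bound (hk : 1 ≤ k) (hπ : π ∈ PiStar k) {A N P : ℕ} (hN : A ^ 6 ≤ N) (hP : A ^ 6 ≤ P)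
    (hA : 1 ≤ A) :
    A ^ (Bad k π).card * (Hc π N P).card ≤ N ^ (k + 2) * P ^ k := by
  classical
  have hN1 : 1 ≤ N := le_trans (Nat.one_le_pow _ _ hA) hN
  have hP1 : 1 ≤ P := le_trans (Nat.one_le_pow _ _ hA) hP
  have h1 := VE_le π hk hπ
  have h2 := VO_le π hk hπ
  have h3 := card_Hc_le π N P
  have h4 : ((Bad k π).filter (fun t => Even t.val)).card
      + ((Bad k π).filter (fun t => ¬ Even t.val)).card = (Bad k π).card :=
    Finset.card_filter_add_card_filter_not _
  rw [← h4, pow_add]
  calc _ ≤ A ^ ((Bad k π).filter (fun t => Even t.val)).card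
        * A ^ ((Bad k π).filter (fun t => ¬ Even t.val)).card
        * (N ^ (univ.filter (fun c : Quotient (Sd k π) => Even c.out.val)).card
      * P ^ (univ.filter (fun c : Quotient (Sd k π) => ¬ Even c.out.val)).card) :=
        Nat.mul_le_mul_left _ h3
    _ = (A ^ ((Bad k π).filter (fun t => Even t.val)).card
          * N ^ (univ.filter (fun c : Quotient (Sd k π) => Even c.out.val)).card)
        * (A ^ ((Bad k π).filter (fun t => ¬ Even t.val)).card
          * P ^ (univ.filter (fun c : Quotient (Sd k π) => ¬ Even c.out.val)).card) := by ring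
    _ ≤ N ^ (k + 2) * P ^ k :=
        Nat.mul_le_mul (pow_aux hN hN1 (by omega)) (pow_aux hP hP1 (by omega))

end classes

theorem one_add_pow_le_two {L : ℕ} (hL : 1 ≤ L) : (1 + 1 / (2 * (L : ℝ))) ^ L ≤ 2 := by
  have hL' : (0 : ℝ) < L := by exact_mod_cast hL
  have h1 : (1 + 1 / (2 * (L : ℝ))) ^ L ≤ Real.exp (1 / 2) := by
    have h2 : 1 + 1 / (2 * (L : ℝ)) ≤ Real.exp (1 / (2 * (L : ℝ))) := by
      have := Real.add_one_le_exp (1 / (2 * (L : ℝ)))
      linarith
    calc (1 + 1 / (2 * (L : ℝ))) ^ L ≤ (Real.exp (1 / (2 * (L : ℝ)))) ^ L :=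
          pow_le_pow_left₀ (by positivity) h2 L
      _ = Real.exp (1 / 2) := by
          rw [← Real.exp_nat_mul]
          congr 1
          field_simp
  have h3 : Real.exp (1 / 2) ≤ 2 := by
    have h4 := Real.exp_one_lt_d9
    have h5 : Real.exp (1 / 2) ^ 2 = Real.exp 1 := by
      rw [← Real.exp_nat_mul]; norm_num
    have h6 := Real.exp_pos (1 / 2)
    nlinarith
  linarith

end setoid

theorem count_le (k N P : ℕ) (hk : 1 ≤ k) (hN : (4 * (4 * k) ^ 2) ^ 6 ≤ N)
    (hP : (4 * (4 * k) ^ 2) ^ 6 ≤ P) :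
    Set.ncard {p : Equiv.Perm (ZMod (4 * k)) × (ZMod (4 * k) → ℕ) |
      p.1 ∈ PiStar k ∧ p.2 ∈ HH k N P ∧ ∀ a, cmp p.2 a (p.1 a)} ≤
      16 * k * N ^ (k + 2) * P ^ k := by
  classical
  have : NeZero (4 * k) := ⟨by omega⟩
  set PS : Finset (Equiv.Perm (ZMod (4 * k))) := univ.filter (fun π => π ∈ PiStar k) with hPS
  have hset : {p : Equiv.Perm (ZMod (4 * k)) × (ZMod (4 * k) → ℕ) |
      p.1 ∈ PiStar k ∧ p.2 ∈ HH k N P ∧ ∀ a, cmp p.2 a (p.1 a)}
      = ((PS.sigma (fun π => Hc π N P)).image (fun x => ((x.1, x.2) :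
        Equiv.Perm (ZMod (4 * k)) × (ZMod (4 * k) → ℕ))) : Finset _) := by
    ext ⟨π, h⟩
    simp only [Set.mem_ofPred_eq, coe_image, Set.mem_image, mem_coe, mem_sigma, hPS, mem_filter,
      mem_univ, true_and, mem_Hc]
    constructor
    · rintro ⟨h1, h2, h3⟩
      exact ⟨⟨π, h⟩, ⟨h1, h2, h3⟩, rfl⟩
    · rintro ⟨⟨π', h'⟩, ⟨h1, h2, h3⟩, heq⟩
      simp only [Prod.mk.injEq] at heq
      obtain ⟨e1, e2⟩ := heq
      subst e1
      subst e2
      exact ⟨h1, h2, h3⟩
  rw [hset, Set.ncard_coe_finset]
  refine le_trans card_image_le ?_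
  rw [card_sigma]
  set A : ℕ := 4 * (4 * k) ^ 2 with hA
  have hA1 : 1 ≤ A := by
    have : 1 ≤ (4 * k) ^ 2 := Nat.one_le_pow _ _ (by omega)
    omega
  have hAr : (0 : ℝ) < A := by exact_mod_cast hA1
  have hkr : (0 : ℝ) < k := by exact_mod_cast hk
  set Q : ℝ := (N : ℝ) ^ (k + 2) * (P : ℝ) ^ k with hQ
  have hQ0 : 0 ≤ Q := by positivity
  have hterm : ∀ π ∈ PS, ((Hc π N P).card : ℝ) ≤ Q * (1 / (A : ℝ)) ^ (Bad k π).card := by
    intro π hπ
    rw [hPS, mem_filter] at hπ
    have h1 := Hc_bound π hk hπ.2 hN hP hA1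
    have h2 : (A : ℝ) ^ (Bad k π).card * ((Hc π N P).card : ℝ) ≤ Q := by
      rw [hQ]; exact_mod_cast h1
    rw [one_div, inv_pow, ← div_eq_mul_inv, le_div_iff₀ (by positivity)]
    linarith
  have hfib : ∑ π ∈ PS, Q * (1 / (A : ℝ)) ^ (Bad k π).card
      = ∑ B ∈ (univ : Finset (ZMod (4 * k))).powerset, ∑ π ∈ PS with Bad k π = B,
        Q * (1 / (A : ℝ)) ^ (Bad k π).card := by
    rw [Finset.sum_fiberwise_of_maps_to]
    intro π _
    exact mem_powerset.2 (subset_univ _)
  have hB : ∀ B ∈ (univ : Finset (ZMod (4 * k))).powerset, ∑ π ∈ PS with Bad k π = B,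
        Q * (1 / (A : ℝ)) ^ (Bad k π).card
      ≤ Q * (2 * (4 * k)) * (1 / (2 * ((4 * k : ℕ) : ℝ))) ^ B.card := by
    intro B _
    have h1 : ∑ π ∈ PS with Bad k π = B, Q * (1 / (A : ℝ)) ^ (Bad k π).card
        = ∑ π ∈ PS with Bad k π = B, Q * (1 / (A : ℝ)) ^ B.card := by
      refine sum_congr rfl fun π hπ => ?_
      rw [mem_filter] at hπ
      rw [hπ.2]
    rw [h1, sum_const, nsmul_eq_mul]
    have h2 : ((PS.filter (fun π => Bad k π = B)).card : ℝ) ≤ (2 * (4 * k)) ^ (B.card + 1) := by
      have := card_given_bad hk B (PS.filter (fun π => Bad k π = B)) (by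
        intro π hπ
        rw [mem_filter, hPS, mem_filter] at hπ
        exact ⟨hπ.1.2, hπ.2⟩)
      exact_mod_cast this
    calc _ ≤ (2 * (4 * (k : ℝ))) ^ (B.card + 1) * (Q * (1 / (A : ℝ)) ^ B.card) :=
          mul_le_mul_of_nonneg_right h2 (by positivity)
      _ = Q * (2 * (4 * k)) * ((2 * (4 * (k : ℝ))) * (1 / (A : ℝ))) ^ B.card := by
          have hx : ∀ x y : ℝ, x ^ (B.card + 1) * (Q * y ^ B.card) = Q * x * (x * y) ^ B.card := by
            intro x y
            rw [mul_pow, pow_succ]; ring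
          exact hx _ _
      _ = _ := by
          congr 2
          rw [hA]
          push_cast
          field_simp
          norm_num
  have hfinal : ∑ π ∈ PS, ((Hc π N P).card : ℝ) ≤ 16 * k * (N : ℝ) ^ (k + 2) * (P : ℝ) ^ k := by
    calc ∑ π ∈ PS, ((Hc π N P).card : ℝ) ≤ ∑ π ∈ PS, Q * (1 / (A : ℝ)) ^ (Bad k π).card :=
          sum_le_sum hterm
      _ ≤ ∑ B ∈ (univ : Finset (ZMod (4 * k))).powerset,
          Q * (2 * (4 * k)) * (1 / (2 * ((4 * k : ℕ) : ℝ))) ^ B.card := by
          rw [hfib]; exact sum_le_sum hB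
      _ = Q * (2 * (4 * k)) * (1 + 1 / (2 * ((4 * k : ℕ) : ℝ))) ^ (4 * k) := by
          rw [← mul_sum]
          congr 1
          have := Finset.sum_pow_mul_eq_add_pow (1 / (2 * ((4 * k : ℕ) : ℝ))) 1
            (univ : Finset (ZMod (4 * k)))
          simp only [one_pow, mul_one] at this
          rw [this, Finset.card_univ, ZMod.card, add_comm]
      _ ≤ Q * (2 * (4 * k)) * 2 :=
          mul_le_mul_of_nonneg_left (one_add_pow_le_two (by omega)) (by positivity)
      _ = 16 * k * (N : ℝ) ^ (k + 2) * (P : ℝ) ^ k := by rw [hQ]; ring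
  exact_mod_cast hfinal

end Pool.Agent.PG
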