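import Mathlib

/-!
# Products of paired Gaussian matrices: definitions (MP_cddc29_pr)
-/

open MeasureTheory ProbabilityTheory Filter Topology Complex

namespace Pool.Agent.PG

noncomputable section

/-- the real vector `(Re x, Im x, Re y, Im y)` -/
def vec (x y : ℂ) : EuclideanSpace ℝ (Fin 4) := WithLp.toLp 2 ![x.re, x.im, y.re, y.im]

/-- `X, Y` are paired Gaussian matrices of size `N × P` with covariance `Γ / N`: the pairs of
entries are independent, and the real vector of each pair is centred Gaussian with covariance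
`Γ / N`. -/
structure Paired (Γ : Matrix (Fin 4) (Fin 4) ℝ) {N P : ℕ} {Ω : Type} [MeasurableSpace Ω]
    (μ : Measure Ω) (X Y : Ω → Matrix (Fin N) (Fin P) ℂ) : Prop where
  measX : ∀ i j, Measurable fun ω => X ω i j
  measY : ∀ i j, Measurable fun ω => Y ω i j
  indep : iIndepFun (fun (e : Fin N × Fin P) (ω : Ω) => vec (X ω e.1 e.2) (Y ω e.1 e.2)) μ
  law : ∀ e : Fin N × Fin P, μ.map (fun ω => vec (X ω e.1 e.2) (Y ω e.1 e.2)) =
    multivariateGaussian 0 ((N : ℝ)⁻¹ • Γ)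

/-- `σ_x² = N E|x|²` -/
def sx2 (Γ : Matrix (Fin 4) (Fin 4) ℝ) : ℝ := Γ 0 0 + Γ 1 1

/-- `σ_y² = N E|y|²` -/
def sy2 (Γ : Matrix (Fin 4) (Fin 4) ℝ) : ℝ := Γ 2 2 + Γ 3 3

/-- `s = σ_x σ_y` -/
def sxy (Γ : Matrix (Fin 4) (Fin 4) ℝ) : ℝ := √(sx2 Γ) * √(sy2 Γ)

/-- `τ = N E[x ȳ] / (σ_x σ_y)` -/
def tau (Γ : Matrix (Fin 4) (Fin 4) ℝ) : ℂ :=
  (((Γ 0 2 + Γ 1 3 : ℝ) : ℂ) + ((Γ 1 2 - Γ 0 3 : ℝ) : ℂ) * I) / (sxy Γ : ℂ)

/-- the set `𝒮`: the closed elliptic region with centre `(1+α) s |τ|` and half axes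
`√α (1+|τ|²) s` and `√α (1-|τ|²) s`, rotated about `0` by `arg τ`, together with `0` if `α < 1` -/
def SS (α s : ℝ) (τ : ℂ) : Set ℂ :=
  {z | ∃ x y : ℝ, x ^ 2 + y ^ 2 ≤ 1 ∧
    z = exp (arg τ * I) * (((1 + α) * s * ‖τ‖ + √α * (1 + ‖τ‖ ^ 2) * s * x : ℝ) +
      (√α * (1 - ‖τ‖ ^ 2) * s * y : ℝ) * I)} ∪ {z | α < 1 ∧ z = 0}

/-- the eigenvalues -/
def eigs {N : ℕ} (A : Matrix (Fin N) (Fin N) ℂ) : Set ℂ := {z | z ∈ A.charpoly.roots}

/-- the integral of `φ` against the empirical eigenvalue distribution -/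
def esd {N : ℕ} (A : Matrix (Fin N) (Fin N) ℂ) (φ : ℂ → ℝ) : ℝ :=
  (N : ℝ)⁻¹ * (A.charpoly.roots.map φ).sum

/-! ### internal notions -/

/-- the polynomials `P_k` -/
def PP (τ : ℂ) (α : ℝ) (z : ℂ) : ℕ → ℂ
  | 0 => 1
  | 1 => z - τ * α
  | k + 2 => (z - τ * (1 + α)) * PP τ α z (k + 1) - τ ^ 2 * α * PP τ α z k

/-- the same polynomials of a matrix -/
def PM {N : ℕ} (τ : ℂ) (α : ℝ) (T : Matrix (Fin N) (Fin N) ℂ) : ℕ → Matrix (Fin N) (Fin N) ℂ
  | 0 => 1
  | 1 => T - (τ * α) • 1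
  | k + 2 => (T - (τ * (1 + α)) • 1) * PM τ α T (k + 1) - (τ ^ 2 * α) • PM τ α T k

/-- the law of an array of independent standard Gaussians -/
def gam (I : Type) [Fintype I] : Measure (I → ℝ) := Measure.pi fun _ => gaussianReal 0 1

instance (I : Type) [Fintype I] : IsProbabilityMeasure (gam I) := by
  unfold gam
  infer_instance

/-- the entry of `X` at `e` as a function of the standard Gaussians -/
def xg {N P : ℕ} (B : Matrix (Fin 4) (Fin 4) ℝ) (g : (Fin N × Fin P) × Fin 4 → ℝ)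
    (e : Fin N × Fin P) : ℂ := ∑ c, ((B 0 c : ℂ) + B 1 c * I) * g (e, c)

/-- the entry of `Y` at `e` as a function of the standard Gaussians -/
def yg {N P : ℕ} (B : Matrix (Fin 4) (Fin 4) ℝ) (g : (Fin N × Fin P) × Fin 4 → ℝ)
    (e : Fin N × Fin P) : ℂ := ∑ c, ((B 2 c : ℂ) + B 3 c * I) * g (e, c)

/-! ### pairings -/

/-- forbidden pairs of letters: neighbours in the same word; letters `0, …, 2k-1` form the first
word, letters `2k, …, 4k-1` the second one -/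
def Fr (k : ℕ) (a b : ZMod (4 * k)) : Prop :=
  (a.val < 2 * k ↔ b.val < 2 * k) ∧ (b = a + 1 ∨ a = b + 1)

/-- pairings of the letters without forbidden pairs -/
def PiStar (k : ℕ) : Set (Equiv.Perm (ZMod (4 * k))) :=
  {π | ∀ a, π a ≠ a ∧ π (π a) = a ∧ ¬ Fr k a (π a)}

/-- letter `a` joins the times `a` and `a + 1`; the even one of them -/
def ev (k : ℕ) (a : ZMod (4 * k)) : ZMod (4 * k) := if Even a.val then a else a + 1

/-- the odd one of them -/
def od (k : ℕ) (a : ZMod (4 * k)) : ZMod (4 * k) := if Even a.val then a + 1 else a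

/-- index functions: `< N` at even times and `< P` at odd times -/
def HH (k N P : ℕ) : Set (ZMod (4 * k) → ℕ) :=
  {h | ∀ t, (Even t.val → h t < N) ∧ (¬ Even t.val → h t < P)}

/-- letters `a` and `b` carry the same matrix entry -/
def cmp {k : ℕ} (h : ZMod (4 * k) → ℕ) (a b : ZMod (4 * k)) : Prop :=
  h (ev k a) = h (ev k b) ∧ h (od k a) = h (od k b)

end

end Pool.Agent.PG
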