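import Pool.Agent.PG.Defs

/-!
# The polynomials `P_k` outside the ellipse
-/

open Filter Topology Complex

namespace Pool.Agent.PG

/-- the closed form of the polynomials `P_k` -/
theorem PP_closed (τ : ℂ) (α : ℝ) (z r₁ r₂ : ℂ) (hs : r₁ + r₂ = z - τ * (1 + α))
    (hp : r₁ * r₂ = τ ^ 2 * α) (k : ℕ) :
    (r₁ - r₂) * PP τ α z k = (r₁ + τ) * r₁ ^ k - (r₂ + τ) * r₂ ^ k := by
  induction k using Nat.twoStepInduction with
  | zero => simp [PP]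
  | one =>
    have : z = r₁ + r₂ + τ * (1 + α) := by rw [hs]; ring
    rw [PP, this]
    ring
  | more n h0 h1 =>
    have e : (r₁ - r₂) * PP τ α z (n + 2) = (z - τ * (1 + α)) * ((r₁ - r₂) * PP τ α z (n + 1)) -
        τ ^ 2 * α * ((r₁ - r₂) * PP τ α z n) := by
      rw [PP]; ring
    rw [e, h0, h1, ← hs, ← hp]
    ring

/-- the two roots, the first one being the larger -/
theorem exists_roots (u v : ℂ) : ∃ r₁ r₂ : ℂ, r₁ + r₂ = u ∧ r₁ * r₂ = v ∧ ‖r₂‖ ≤ ‖r₁‖ := by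
  obtain ⟨d, hd⟩ := IsAlgClosed.exists_pow_nat_eq (u ^ 2 - 4 * v) (n := 2) (by norm_num)
  have h1 : (u + d) / 2 + (u - d) / 2 = u := by ring
  have h2 : (u + d) / 2 * ((u - d) / 2) = v := by
    have : (u + d) / 2 * ((u - d) / 2) = (u ^ 2 - d ^ 2) / 4 := by ring
    rw [this, hd]; ring
  rcases le_total ‖(u - d) / 2‖ ‖(u + d) / 2‖ with h | h
  · exact ⟨_, _, h1, h2, h⟩
  · exact ⟨_, _, by rw [add_comm]; exact h1, by rw [mul_comm]; exact h2, h⟩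

/-- the Joukowski map sends the annulus `|τ| ≤ |w| ≤ 1` to the ellipse -/
theorem jou_mem (α : ℝ) (τ w : ℂ) (h1 : ‖τ‖ ≤ ‖w‖) (h2 : ‖w‖ ≤ 1) :
    (√α : ℂ) * (w + τ ^ 2 / w) + τ * (1 + α) ∈ SS α 1 τ := by
  left
  set t : ℝ := ‖τ‖ with ht
  have ht0 : 0 ≤ t := norm_nonneg _
  have ht1 : t ≤ 1 := h1.trans h2
  set e : ℂ := exp (arg τ * I) with he
  have hτ : τ = t * e := (norm_mul_exp_arg_mul_I τ).symm
  have hen : ‖e‖ = 1 := norm_exp_ofReal_mul_I _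
  have he0 : e ≠ 0 := exp_ne_zero _
  set q : ℂ := w / e with hq
  have hw : w = q * e := by rw [hq]; field_simp
  have hqn : ‖q‖ = ‖w‖ := by rw [hq, norm_div, hen, div_one]
  rcases eq_or_ne w 0 with h0 | h0
  · have hτ0 : τ = 0 := by
      rw [h0, norm_zero] at h1
      exact norm_eq_zero.1 (le_antisymm h1 ht0)
    refine ⟨0, 0, by norm_num, ?_⟩
    have ht00 : t = 0 := by rw [ht, hτ0, norm_zero]
    rw [h0, hτ0, ht00]
    simp
  have hq0 : q ≠ 0 := by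
    rw [hq]; exact div_ne_zero h0 he0
  set ρ : ℝ := ‖q‖ with hρ
  have hρ0 : 0 < ρ := norm_pos_iff.2 hq0
  have hρt : t ≤ ρ := by rw [hqn]; exact h1
  have hρ1 : ρ ≤ 1 := by rw [hqn]; exact h2
  have hsq : q.re ^ 2 + q.im ^ 2 = ρ ^ 2 := by
    rw [hρ, ← Complex.normSq_eq_norm_sq, Complex.normSq_apply]; ring
  have hconj : (starRingEnd ℂ) q * q = (ρ : ℂ) ^ 2 := by
    rw [mul_comm, Complex.mul_conj, Complex.normSq_eq_norm_sq]
    push_cast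
    rfl
  have hinv : q⁻¹ = (starRingEnd ℂ) q / (ρ : ℂ) ^ 2 := by
    rw [← hconj]
    have : (starRingEnd ℂ) q ≠ 0 := by simpa using hq0
    field_simp
  have hsum : q + t ^ 2 / q = ((q.re * (1 + t ^ 2 / ρ ^ 2) : ℝ) : ℂ) +
      ((q.im * (1 - t ^ 2 / ρ ^ 2) : ℝ) : ℂ) * I := by
    rw [div_eq_mul_inv, hinv]
    have hρc : (ρ : ℂ) ≠ 0 := by exact_mod_cast hρ0.ne'
    apply Complex.ext
    · simp [← Complex.ofReal_pow, Complex.div_re, Complex.normSq_apply]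
      field_simp
    · simp [← Complex.ofReal_pow, Complex.div_im, Complex.normSq_apply]
      field_simp
      ring
  have hx1 : |1 + t ^ 2 / ρ ^ 2| ≤ (1 + t ^ 2) / ρ := by
    rw [abs_of_nonneg (by positivity)]
    have : (1 + t ^ 2) / ρ - (1 + t ^ 2 / ρ ^ 2) = (1 - ρ) * (ρ - t ^ 2) / ρ ^ 2 := by
      field_simp
      ring
    have h3 : 0 ≤ (1 - ρ) * (ρ - t ^ 2) := by
      apply mul_nonneg (by linarith)
      nlinarith
    have : 0 ≤ (1 + t ^ 2) / ρ - (1 + t ^ 2 / ρ ^ 2) := by rw [this]; positivity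
    linarith
  have hy0 : 0 ≤ 1 - t ^ 2 / ρ ^ 2 := by
    have : t ^ 2 / ρ ^ 2 ≤ 1 := by
      rw [div_le_one (by positivity)]
      exact pow_le_pow_left₀ ht0 hρt 2
    linarith
  have hy1 : 1 - t ^ 2 / ρ ^ 2 ≤ (1 - t ^ 2) / ρ := by
    have : (1 - t ^ 2) / ρ - (1 - t ^ 2 / ρ ^ 2) = (1 - ρ) * (ρ + t ^ 2) / ρ ^ 2 := by
      field_simp
      ring
    have h3 : 0 ≤ (1 - ρ) * (ρ + t ^ 2) := mul_nonneg (by linarith) (by positivity)
    have : 0 ≤ (1 - t ^ 2) / ρ - (1 - t ^ 2 / ρ ^ 2) := by rw [this]; positivity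
    linarith
  have hX : (q.re * (1 + t ^ 2 / ρ ^ 2) / (1 + t ^ 2)) ^ 2 ≤ q.re ^ 2 / ρ ^ 2 := by
    have h4 : (0 : ℝ) < 1 + t ^ 2 := by positivity
    have h5 : 1 + t ^ 2 / ρ ^ 2 ≤ (1 + t ^ 2) / ρ := le_trans (le_abs_self _) hx1
    have h6 : (1 + t ^ 2 / ρ ^ 2) ^ 2 ≤ ((1 + t ^ 2) / ρ) ^ 2 :=
      pow_le_pow_left₀ (by positivity) h5 2
    calc (q.re * (1 + t ^ 2 / ρ ^ 2) / (1 + t ^ 2)) ^ 2
        = q.re ^ 2 * (1 + t ^ 2 / ρ ^ 2) ^ 2 / (1 + t ^ 2) ^ 2 := by rw [div_pow, mul_pow]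
      _ ≤ q.re ^ 2 * ((1 + t ^ 2) / ρ) ^ 2 / (1 + t ^ 2) ^ 2 := by gcongr
      _ = q.re ^ 2 / ρ ^ 2 := by field_simp
  have hY : (q.im * (1 - t ^ 2 / ρ ^ 2) / (1 - t ^ 2)) ^ 2 ≤ q.im ^ 2 / ρ ^ 2 := by
    rcases eq_or_lt_of_le ht1 with h7 | h7
    · rw [h7]
      norm_num
      positivity
    · have h4 : (0 : ℝ) < 1 - t ^ 2 := by nlinarith
      have h6 : (1 - t ^ 2 / ρ ^ 2) ^ 2 ≤ ((1 - t ^ 2) / ρ) ^ 2 :=
        pow_le_pow_left₀ hy0 hy1 2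
      calc (q.im * (1 - t ^ 2 / ρ ^ 2) / (1 - t ^ 2)) ^ 2
          = q.im ^ 2 * (1 - t ^ 2 / ρ ^ 2) ^ 2 / (1 - t ^ 2) ^ 2 := by rw [div_pow, mul_pow]
        _ ≤ q.im ^ 2 * ((1 - t ^ 2) / ρ) ^ 2 / (1 - t ^ 2) ^ 2 := by gcongr
        _ = q.im ^ 2 / ρ ^ 2 := by field_simp
  refine ⟨q.re * (1 + t ^ 2 / ρ ^ 2) / (1 + t ^ 2), q.im * (1 - t ^ 2 / ρ ^ 2) / (1 - t ^ 2),
    ?_, ?_⟩
  · have : q.re ^ 2 / ρ ^ 2 + q.im ^ 2 / ρ ^ 2 = 1 := by
      rw [← add_div, hsq]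
      field_simp
    linarith
  · have hE1 : (1 + t ^ 2) * (q.re * (1 + t ^ 2 / ρ ^ 2) / (1 + t ^ 2)) =
        q.re * (1 + t ^ 2 / ρ ^ 2) := by
      field_simp
    have hE2 : (1 - t ^ 2) * (q.im * (1 - t ^ 2 / ρ ^ 2) / (1 - t ^ 2)) =
        q.im * (1 - t ^ 2 / ρ ^ 2) := by
      rcases eq_or_lt_of_le ht1 with h7 | h7
      · have hρe : ρ = 1 := le_antisymm hρ1 (by linarith)
        rw [h7, hρe]
        norm_num
      · have h4 : (1 - t ^ 2 : ℝ) ≠ 0 := by nlinarith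
        field_simp
    have e1 : (1 + α) * 1 * t + √α * (1 + t ^ 2) * 1 * (q.re * (1 + t ^ 2 / ρ ^ 2) / (1 + t ^ 2)) =
        (1 + α) * t + √α * (q.re * (1 + t ^ 2 / ρ ^ 2)) := by
      linear_combination √α * hE1
    have e2 : √α * (1 - t ^ 2) * 1 * (q.im * (1 - t ^ 2 / ρ ^ 2) / (1 - t ^ 2)) =
        √α * (q.im * (1 - t ^ 2 / ρ ^ 2)) := by
      linear_combination √α * hE2
    rw [e1, e2]
    have e3 : w + τ ^ 2 / w = e * (q + t ^ 2 / q) := by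
      rw [hw, hτ]
      field_simp
    rw [e3, hsum, hτ]
    push_cast
    ring

/-- the larger root is large outside the ellipse -/
theorem root_large (α : ℝ) (hα : 0 < α) (τ : ℂ) (hτ : ‖τ‖ ≤ 1) (ε : ℝ) (hε : 0 < ε)
    (δ : ℝ) (hδ : 0 < δ) (hδ1 : δ ≤ 1) (hδ2 : 2 * √α * δ ≤ ε / 4)
    (α' : ℝ) (hα' : 0 < α') (h1 : |α' - α| ≤ ε / 4) (h2 : |α' - α| ≤ √α * ε / 12)
    (z r₁ r₂ : ℂ) (hz : ε ≤ Metric.infDist z (SS α 1 τ))
    (hs : r₁ + r₂ = z - τ * (1 + α')) (hp : r₁ * r₂ = τ ^ 2 * α') (hr : ‖r₂‖ ≤ ‖r₁‖) :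
    √α' * (1 + δ) ≤ ‖r₁‖ := by
  by_contra hcon
  rw [not_le] at hcon
  have hsα : 0 < √α := Real.sqrt_pos.2 hα
  have hsα' : 0 < √α' := Real.sqrt_pos.2 hα'
  have hsc : (√α' : ℂ) ≠ 0 := by exact_mod_cast hsα'.ne'
  have hsq' : (√α' : ℂ) ^ 2 = α' := by
    exact_mod_cast Real.sq_sqrt hα'.le
  set w : ℂ := r₁ / √α' with hw
  have hwn : ‖w‖ = ‖r₁‖ / √α' := by
    rw [hw, norm_div, Complex.norm_real, Real.norm_of_nonneg hsα'.le]
  have hr1w : r₁ = √α' * w := by rw [hw]; field_simp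
  have hwδ : ‖w‖ < 1 + δ := by
    rw [hwn, div_lt_iff₀ hsα', mul_comm]
    exact hcon
  have hτw : ‖τ‖ ≤ ‖w‖ := by
    have h3 : ‖r₁‖ * ‖r₂‖ = ‖τ‖ ^ 2 * α' := by
      rw [← norm_mul, hp, norm_mul, norm_pow, Complex.norm_real, Real.norm_of_nonneg hα'.le]
    have h4 : ‖τ‖ ^ 2 * α' ≤ ‖r₁‖ ^ 2 := by
      rw [← h3, sq]
      exact mul_le_mul_of_nonneg_left hr (norm_nonneg _)
    have h5 : (‖τ‖ * √α') ^ 2 ≤ ‖r₁‖ ^ 2 := by
      rw [mul_pow, Real.sq_sqrt hα'.le]; exact h4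
    have h6 : ‖τ‖ * √α' ≤ ‖r₁‖ := by
      exact (pow_le_pow_iff_left₀ (by positivity) (norm_nonneg _) (by norm_num)).1 h5
    rw [hwn, le_div_iff₀ hsα']
    exact h6
  have hzw : z = (√α' : ℂ) * (w + τ ^ 2 / w) + τ * (1 + α') := by
    have : z = r₁ + r₂ + τ * (1 + α') := by rw [hs]; ring
    rw [this]
    rcases eq_or_ne w 0 with h0 | h0
    · have h7 : r₁ = 0 := by rw [hr1w, h0, mul_zero]
      have h8 : r₂ = 0 := by
        rw [h7, norm_zero] at hr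
        exact norm_eq_zero.1 (le_antisymm hr (norm_nonneg _))
      rw [h7, h8, h0]
      simp
    · have h9 : r₂ = √α' * (τ ^ 2 / w) := by
        have h10 : (√α' * w) * r₂ = τ ^ 2 * (√α' : ℂ) ^ 2 := by
          rw [← hr1w, hp, hsq']
        field_simp
        have h11 : (√α' : ℂ) * (w * r₂) = √α' * (τ ^ 2 * √α') := by
          linear_combination h10
        have := mul_left_cancel₀ hsc h11
        linear_combination this
      rw [hr1w, h9]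
      ring
  -- the point of the ellipse
  obtain ⟨w', hw1, hw2, hw3, hw4⟩ : ∃ w' : ℂ, ‖τ‖ ≤ ‖w'‖ ∧ ‖w'‖ ≤ 1 ∧ ‖w - w'‖ ≤ δ ∧
      ‖τ ^ 2 / w - τ ^ 2 / w'‖ ≤ δ := by
    rcases le_total ‖w‖ 1 with h | h
    · exact ⟨w, hτw, h, by simpa using hδ.le, by simpa using hδ.le⟩
    · have hw0 : w ≠ 0 := by
        rw [← norm_pos_iff]; linarith
      have hwr : (0 : ℝ) < ‖w‖ := by linarith
      have hwc : (‖w‖ : ℂ) ≠ 0 := by exact_mod_cast hwr.ne'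
      refine ⟨w / ‖w‖, ?_, ?_, ?_, ?_⟩
      · rw [norm_div, Complex.norm_real, norm_norm, div_self hwr.ne']
        exact hτ
      · rw [norm_div, Complex.norm_real, norm_norm, div_self hwr.ne']
      · have : w - w / ‖w‖ = w * ((‖w‖ - 1 : ℝ) : ℂ) / ‖w‖ := by
          field_simp
          push_cast
          ring
        rw [this, norm_div, norm_mul, Complex.norm_real, Complex.norm_real, norm_norm,
          Real.norm_of_nonneg (by linarith)]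
        rw [mul_comm, mul_div_assoc, div_self hwr.ne']
        linarith
      · have : τ ^ 2 / w - τ ^ 2 / (w / ‖w‖) = - (τ ^ 2 * ((‖w‖ - 1 : ℝ) : ℂ) / w) := by
          field_simp
          push_cast
          ring
        rw [this, norm_neg, norm_div, norm_mul, Complex.norm_real, norm_pow,
          Real.norm_of_nonneg (by linarith : (0 : ℝ) ≤ ‖w‖ - 1)]
        rw [div_le_iff₀ hwr]
        have h12 : ‖τ‖ ^ 2 ≤ 1 := pow_le_one₀ (norm_nonneg _) hτ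
        have h13 : 0 ≤ ‖w‖ - 1 := by linarith
        calc ‖τ‖ ^ 2 * (‖w‖ - 1) ≤ 1 * (‖w‖ - 1) := mul_le_mul_of_nonneg_right h12 h13
          _ ≤ δ * 1 := by linarith
          _ ≤ δ * ‖w‖ := mul_le_mul_of_nonneg_left h hδ.le
  have hmem := jou_mem α τ w' hw1 hw2
  have hd : Metric.infDist z (SS α 1 τ) ≤
      dist z ((√α : ℂ) * (w' + τ ^ 2 / w') + τ * (1 + α)) := Metric.infDist_le_dist_of_mem hmem
  rw [dist_eq_norm] at hd
  have hdiff : z - ((√α : ℂ) * (w' + τ ^ 2 / w') + τ * (1 + α)) =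
      ((√α' - √α : ℝ) : ℂ) * (w + τ ^ 2 / w) + √α * ((w - w') + (τ ^ 2 / w - τ ^ 2 / w')) +
        τ * ((α' - α : ℝ) : ℂ) := by
    rw [hzw]
    push_cast
    ring
  have hτw2 : ‖τ ^ 2 / w‖ ≤ 1 := by
    rcases eq_or_ne w 0 with h0 | h0
    · rw [h0]; simp
    · rw [norm_div, norm_pow, div_le_one (norm_pos_iff.2 h0), sq]
      calc ‖τ‖ * ‖τ‖ ≤ 1 * ‖w‖ := mul_le_mul hτ hτw (norm_nonneg _) zero_le_one
        _ = ‖w‖ := one_mul _
  have hsqrt : |√α' - √α| ≤ ε / 12 := by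
    have h14 : |√α' - √α| * (√α' + √α) = |α' - α| := by
      have : α' - α = (√α' - √α) * (√α' + √α) := by
        have e1 := Real.sq_sqrt hα'.le
        have e2 := Real.sq_sqrt hα.le
        nlinarith
      rw [this, abs_mul, abs_of_pos (by positivity : 0 < √α' + √α)]
    have h15 : |√α' - √α| * √α ≤ √α * ε / 12 := by
      calc |√α' - √α| * √α ≤ |√α' - √α| * (√α' + √α) := by
            apply mul_le_mul_of_nonneg_left _ (abs_nonneg _)
            linarith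
        _ = |α' - α| := h14
        _ ≤ _ := h2
    have h16 : √α * |√α' - √α| ≤ √α * (ε / 12) := by linarith
    exact le_of_mul_le_mul_left h16 hsα
  have hn : ‖z - ((√α : ℂ) * (w' + τ ^ 2 / w') + τ * (1 + α))‖ ≤
      (ε / 12) * (2 + δ) + √α * (δ + δ) + ε / 4 := by
    rw [hdiff]
    refine (norm_add₃_le).trans ?_
    have n1 : ‖((√α' - √α : ℝ) : ℂ) * (w + τ ^ 2 / w)‖ ≤ (ε / 12) * (2 + δ) := by
      rw [norm_mul, Complex.norm_real, Real.norm_eq_abs]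
      apply mul_le_mul hsqrt _ (norm_nonneg _) (by positivity)
      refine (norm_add_le _ _).trans ?_
      linarith
    have n2 : ‖(√α : ℂ) * ((w - w') + (τ ^ 2 / w - τ ^ 2 / w'))‖ ≤ √α * (δ + δ) := by
      rw [norm_mul, Complex.norm_real, Real.norm_of_nonneg hsα.le]
      apply mul_le_mul_of_nonneg_left _ hsα.le
      refine (norm_add_le _ _).trans ?_
      linarith
    have n3 : ‖τ * ((α' - α : ℝ) : ℂ)‖ ≤ ε / 4 := by
      rw [norm_mul, Complex.norm_real, Real.norm_eq_abs]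
      calc ‖τ‖ * |α' - α| ≤ 1 * |α' - α| := mul_le_mul_of_nonneg_right hτ (abs_nonneg _)
        _ ≤ ε / 4 := by rw [one_mul]; exact h1
    linarith
  have h17 : (ε / 12) * (2 + δ) ≤ ε / 4 := by nlinarith
  have h18 : √α * (δ + δ) ≤ ε / 4 := by nlinarith
  linarith

theorem ellipse_main (α : ℝ) (hα : 0 < α) (τ : ℂ) (hτ : ‖τ‖ ≤ 1) (ε : ℝ) (hε : 0 < ε) :
    ∃ δ > 0, ∃ c > 0, ∃ η > 0, ∃ k₀ : ℕ, ∀ α' : ℝ, |α' - α| ≤ η → ∀ z : ℂ,
      ε ≤ Metric.infDist z (SS α 1 τ) → ∀ k ≥ k₀, c * (√α' * (1 + δ)) ^ k ≤ ‖PP τ α' z k‖ := by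
  have hsα : 0 < √α := Real.sqrt_pos.2 hα
  -- δ
  set δ : ℝ := min 1 (ε / (8 * √α)) with hδ
  have hδ0 : 0 < δ := lt_min one_pos (by positivity)
  have hδ1 : δ ≤ 1 := min_le_left _ _
  have hδ2 : 2 * √α * δ ≤ ε / 4 := by
    have : δ ≤ ε / (8 * √α) := min_le_right _ _
    calc 2 * √α * δ ≤ 2 * √α * (ε / (8 * √α)) := by gcongr
      _ = ε / 4 := by field_simp; norm_num
  -- the constant comparing `|r₁ + τ|` and `|r₁|`, and the neighbourhood of `α`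
  obtain ⟨c, η, hc, hη, hη1, hη2, hη3, hcomp⟩ : ∃ c η : ℝ, 0 < c ∧ 0 < η ∧ η ≤ α / 2 ∧ η ≤ ε / 4 ∧
      η ≤ √α * ε / 12 ∧ ∀ α' : ℝ, |α' - α| ≤ η → ∀ z r₁ r₂ : ℂ,
        ε ≤ Metric.infDist z (SS α 1 τ) → r₁ + r₂ = z - τ * (1 + α') → r₁ * r₂ = τ ^ 2 * α' →
        √α' * (1 + δ) ≤ ‖r₁‖ → c * ‖r₁‖ ≤ ‖r₁ + τ‖ := by
    rcases lt_or_ge 1 α with h | h
    · refine ⟨δ / (1 + δ), min (α - 1) (min (α / 2) (min (ε / 4) (√α * ε / 12))), by positivity,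
        ?_, ?_, ?_, ?_, ?_⟩
      · exact lt_min (by linarith) (lt_min (by linarith) (lt_min (by linarith) (by positivity)))
      · exact (min_le_right _ _).trans (min_le_left _ _)
      · exact (min_le_right _ _).trans ((min_le_right _ _).trans (min_le_left _ _))
      · exact (min_le_right _ _).trans ((min_le_right _ _).trans (min_le_right _ _))
      · intro α' hα' z r₁ r₂ _ _ _ hr
        have h1 : |α' - α| ≤ α - 1 := hα'.trans (min_le_left _ _)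
        have h2 : 1 ≤ α' := by
          have := (abs_le.1 h1).1
          linarith
        have h3 : 1 ≤ √α' := by
          rw [Real.one_le_sqrt]; exact h2
        have h4 : 1 + δ ≤ ‖r₁‖ := by nlinarith
        have h5 : ‖r₁‖ - ‖τ‖ ≤ ‖r₁ + τ‖ := by
          have := norm_sub_le (r₁ + τ) τ
          rw [add_sub_cancel_right] at this
          linarith
        have h6 : δ / (1 + δ) * ‖r₁‖ = ‖r₁‖ - ‖r₁‖ / (1 + δ) := by
          field_simp
          ring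
        have h7 : 1 ≤ ‖r₁‖ / (1 + δ) := by
          rw [le_div_iff₀ (by positivity)]
          linarith
        linarith
    · have h0 : (0 : ℂ) ∈ SS α 1 τ := by
        rcases eq_or_lt_of_le h with h1 | h1
        · left
          refine ⟨-(2 * ‖τ‖) / (1 + ‖τ‖ ^ 2), 0, ?_, ?_⟩
          · have h2 : 0 ≤ (1 - ‖τ‖) ^ 2 := sq_nonneg _
            have h3 : (0 : ℝ) < 1 + ‖τ‖ ^ 2 := by positivity
            have h4 : (-(2 * ‖τ‖) / (1 + ‖τ‖ ^ 2)) ^ 2 ≤ 1 := by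
              rw [div_pow, div_le_one (by positivity)]
              nlinarith [norm_nonneg τ]
            simpa using h4
          · rw [h1]
            have h3 : (1 + ‖τ‖ ^ 2 : ℝ) ≠ 0 := by positivity
            have h4 : (1 + 1) * 1 * ‖τ‖ + √1 * (1 + ‖τ‖ ^ 2) * 1 * (-(2 * ‖τ‖) / (1 + ‖τ‖ ^ 2)) =
                0 := by
              rw [Real.sqrt_one]
              field_simp
              ring
            rw [h4]
            simp
        · right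
          exact ⟨h1, rfl⟩
      refine ⟨min (ε / 4) (1 / 2), min 1 (min (α / 2) (min (ε / 4) (√α * ε / 12))),
        lt_min (by linarith) (by norm_num), ?_, ?_, ?_, ?_, ?_⟩
      · exact lt_min (by linarith) (lt_min (by linarith) (lt_min (by linarith) (by positivity)))
      · exact (min_le_right _ _).trans (min_le_left _ _)
      · exact (min_le_right _ _).trans ((min_le_right _ _).trans (min_le_left _ _))
      · exact (min_le_right _ _).trans ((min_le_right _ _).trans (min_le_right _ _))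
      · intro α' hα' z r₁ r₂ hz hs hp hr
        have h1 : |α' - α| ≤ 1 := hα'.trans (min_le_left _ _)
        have h1' : |α' - α| ≤ α / 2 :=
          hα'.trans ((min_le_right _ _).trans (min_le_left _ _))
        have h2 : α' ≤ 2 := by
          have := (abs_le.1 h1).2
          linarith
        have h2' : 0 < α' := by
          have := (abs_le.1 h1').1
          linarith
        have hzn : ε ≤ ‖z‖ := by
          have := Metric.infDist_le_dist_of_mem (x := z) h0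
          rw [dist_zero_right] at this
          linarith
        rcases le_total ‖r₁‖ 2 with h5 | h5
        · have h6 : z * r₁ = (r₁ + τ) * (r₁ + τ * α') := by
            have : z = r₁ + r₂ + τ * (1 + α') := by rw [hs]; ring
            rw [this]
            linear_combination hp
          have h7 : ‖z‖ * ‖r₁‖ = ‖r₁ + τ‖ * ‖r₁ + τ * α'‖ := by
            rw [← norm_mul, h6, norm_mul]
          have h8 : ‖r₁ + τ * α'‖ ≤ 4 := by
            refine (norm_add_le _ _).trans ?_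
            rw [norm_mul, Complex.norm_real, Real.norm_of_nonneg h2'.le]
            have : ‖τ‖ * α' ≤ 1 * 2 := mul_le_mul hτ h2 h2'.le zero_le_one
            linarith
          have h9 : ε * ‖r₁‖ ≤ ‖r₁ + τ‖ * 4 := by
            calc ε * ‖r₁‖ ≤ ‖z‖ * ‖r₁‖ := mul_le_mul_of_nonneg_right hzn (norm_nonneg _)
              _ = ‖r₁ + τ‖ * ‖r₁ + τ * α'‖ := h7
              _ ≤ _ := mul_le_mul_of_nonneg_left h8 (norm_nonneg _)
          calc min (ε / 4) (1 / 2) * ‖r₁‖ ≤ ε / 4 * ‖r₁‖ :=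
                mul_le_mul_of_nonneg_right (min_le_left _ _) (norm_nonneg _)
            _ ≤ _ := by linarith
        · have h6 : ‖r₁‖ - ‖τ‖ ≤ ‖r₁ + τ‖ := by
            have := norm_sub_le (r₁ + τ) τ
            rw [add_sub_cancel_right] at this
            linarith
          calc min (ε / 4) (1 / 2) * ‖r₁‖ ≤ 1 / 2 * ‖r₁‖ :=
                mul_le_mul_of_nonneg_right (min_le_right _ _) (norm_nonneg _)
            _ ≤ _ := by linarith
  -- `k₀`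
  have hlim : Tendsto (fun k : ℕ => (1 + 1 / √(α / 2)) / 2 * (1 / (1 + δ) ^ 2) ^ k) atTop
      (𝓝 ((1 + 1 / √(α / 2)) / 2 * 0)) := by
    apply Tendsto.const_mul
    apply tendsto_pow_atTop_nhds_zero_of_lt_one (by positivity)
    rw [div_lt_one (by positivity)]
    nlinarith
  rw [mul_zero] at hlim
  have hev := hlim.eventually (ge_mem_nhds (show (0 : ℝ) < c / 4 by positivity))
  obtain ⟨k₀, hk₀⟩ := eventually_atTop.1 hev
  refine ⟨δ, hδ0, c / 4, by positivity, η, hη, k₀, ?_⟩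
  intro α' hα' z hz k hk
  have hα'0 : α / 2 ≤ α' := by
    have := (abs_le.1 (hα'.trans hη1)).1
    linarith
  have hα'1 : 0 < α' := by linarith
  have hsα' : 0 < √α' := Real.sqrt_pos.2 hα'1
  obtain ⟨r₁, r₂, hs, hp, hr⟩ := exists_roots (z - τ * (1 + α')) (τ ^ 2 * α')
  have hlarge := root_large α hα τ hτ ε hε δ hδ0 hδ1 hδ2 α' hα'1 (hα'.trans hη2) (hα'.trans hη3)
    z r₁ r₂ hz hs hp hr
  have hr1 : 0 < ‖r₁‖ := lt_of_lt_of_le (by positivity) hlarge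
  have hcmp := hcomp α' hα' z r₁ r₂ hz hs hp hlarge
  have hclosed := PP_closed τ α' z r₁ r₂ hs hp k
  -- the smaller root
  have hr2 : ‖r₂‖ ≤ √α' / (1 + δ) := by
    have h3 : ‖r₁‖ * ‖r₂‖ = ‖τ‖ ^ 2 * α' := by
      rw [← norm_mul, hp, norm_mul, norm_pow, Complex.norm_real, Real.norm_of_nonneg hα'1.le]
    have h4 : ‖r₁‖ * ‖r₂‖ ≤ α' := by
      rw [h3]
      have : ‖τ‖ ^ 2 ≤ 1 := pow_le_one₀ (norm_nonneg _) hτ
      nlinarith
    have h5 : √α' * (1 + δ) * ‖r₂‖ ≤ √α' * √α' := by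
      rw [Real.mul_self_sqrt hα'1.le]
      exact (mul_le_mul_of_nonneg_right hlarge (norm_nonneg _)).trans h4
    rw [le_div_iff₀ (by positivity)]
    have h6 : √α' * (‖r₂‖ * (1 + δ)) ≤ √α' * √α' := by linarith
    exact le_of_mul_le_mul_left h6 hsα'
  have hratio : ‖r₂‖ ≤ 1 / (1 + δ) ^ 2 * ‖r₁‖ := by
    calc ‖r₂‖ ≤ √α' / (1 + δ) := hr2
      _ = 1 / (1 + δ) ^ 2 * (√α' * (1 + δ)) := by field_simp
      _ ≤ _ := by gcongr
  have hr2le : ‖r₂‖ ≤ ‖r₁‖ := hr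
  have hk := hk₀ k hk
  have hroot : (1 : ℝ) / ‖r₁‖ ≤ 1 / √(α / 2) := by
    apply one_div_le_one_div_of_le (Real.sqrt_pos.2 (by linarith))
    calc √(α / 2) ≤ √α' := Real.sqrt_le_sqrt hα'0
      _ ≤ √α' * (1 + δ) := by nlinarith
      _ ≤ _ := hlarge
  -- the lower bound
  have hmain : c * ‖r₁‖ * ‖r₁‖ ^ k - (‖r₂‖ + 1) * ‖r₂‖ ^ k ≤ 2 * ‖r₁‖ * ‖PP τ α' z k‖ := by
    have n1 : ‖(r₁ + τ) * r₁ ^ k - (r₂ + τ) * r₂ ^ k‖ = ‖r₁ - r₂‖ * ‖PP τ α' z k‖ := by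
      rw [← hclosed, norm_mul]
    have n2 : ‖(r₁ + τ) * r₁ ^ k‖ - ‖(r₂ + τ) * r₂ ^ k‖ ≤ ‖r₁ - r₂‖ * ‖PP τ α' z k‖ := by
      rw [← n1]
      exact norm_sub_norm_le _ _
    rw [norm_mul, norm_mul, norm_pow, norm_pow] at n2
    have n3 : ‖r₁ - r₂‖ ≤ 2 * ‖r₁‖ := by
      refine (norm_sub_le _ _).trans ?_
      linarith
    have n4 : ‖r₂ + τ‖ ≤ ‖r₂‖ + 1 := (norm_add_le _ _).trans (by linarith)
    have n5 : c * ‖r₁‖ * ‖r₁‖ ^ k ≤ ‖r₁ + τ‖ * ‖r₁‖ ^ k :=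
      mul_le_mul_of_nonneg_right hcmp (by positivity)
    have n6 : ‖r₂ + τ‖ * ‖r₂‖ ^ k ≤ (‖r₂‖ + 1) * ‖r₂‖ ^ k :=
      mul_le_mul_of_nonneg_right n4 (by positivity)
    have n7 : ‖r₁ - r₂‖ * ‖PP τ α' z k‖ ≤ 2 * ‖r₁‖ * ‖PP τ α' z k‖ :=
      mul_le_mul_of_nonneg_right n3 (norm_nonneg _)
    linarith
  have hsmall : (‖r₂‖ + 1) * ‖r₂‖ ^ k ≤ 2 * ‖r₁‖ * (c / 4 * ‖r₁‖ ^ k) := by
    have m1 : ‖r₂‖ ^ k ≤ (1 / (1 + δ) ^ 2) ^ k * ‖r₁‖ ^ k := by
      rw [← mul_pow]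
      exact pow_le_pow_left₀ (norm_nonneg _) hratio k
    have m2 : ‖r₂‖ + 1 ≤ ‖r₁‖ * (1 + 1 / √(α / 2)) := by
      have : ‖r₁‖ * (1 / ‖r₁‖) = 1 := by field_simp
      have m3 : ‖r₁‖ * (1 / ‖r₁‖) ≤ ‖r₁‖ * (1 / √(α / 2)) :=
        mul_le_mul_of_nonneg_left hroot hr1.le
      linarith
    calc (‖r₂‖ + 1) * ‖r₂‖ ^ k
        ≤ (‖r₁‖ * (1 + 1 / √(α / 2))) * ((1 / (1 + δ) ^ 2) ^ k * ‖r₁‖ ^ k) :=
          mul_le_mul m2 m1 (by positivity) (by positivity)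
      _ = 2 * ‖r₁‖ * (((1 + 1 / √(α / 2)) / 2 * (1 / (1 + δ) ^ 2) ^ k) * ‖r₁‖ ^ k) := by ring
      _ ≤ 2 * ‖r₁‖ * (c / 4 * ‖r₁‖ ^ k) := by gcongr
  have hfin : 2 * ‖r₁‖ * (c / 4 * ‖r₁‖ ^ k) ≤ 2 * ‖r₁‖ * ‖PP τ α' z k‖ := by
    have : c * ‖r₁‖ * ‖r₁‖ ^ k = 2 * ‖r₁‖ * (c / 4 * ‖r₁‖ ^ k) + 2 * ‖r₁‖ * (c / 4 * ‖r₁‖ ^ k) := by
      ring
    linarith
  have hfin2 : c / 4 * ‖r₁‖ ^ k ≤ ‖PP τ α' z k‖ :=
    le_of_mul_le_mul_left hfin (by positivity)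
  calc c / 4 * (√α' * (1 + δ)) ^ k ≤ c / 4 * ‖r₁‖ ^ k := by
        gcongr
    _ ≤ _ := hfin2

/-- scaling and elementary properties of `𝒮` -/
theorem SS_scale (α s : ℝ) (hs : 0 < s) (τ : ℂ) : SS α s τ = (fun z => (s : ℂ) * z) '' SS α 1 τ := by
  have hsc : (s : ℂ) ≠ 0 := by exact_mod_cast hs.ne'
  ext z
  constructor
  · rintro (⟨x, y, hxy, hz⟩ | ⟨h1, h2⟩)
    · refine ⟨_, Or.inl ⟨x, y, hxy, rfl⟩, ?_⟩
      rw [hz]
      push_cast
      ring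
    · refine ⟨0, Or.inr ⟨h1, rfl⟩, ?_⟩
      simp [h2]
  · rintro ⟨w, (⟨x, y, hxy, hw⟩ | ⟨h1, h2⟩), rfl⟩
    · left
      refine ⟨x, y, hxy, ?_⟩
      rw [hw]
      push_cast
      ring
    · right
      exact ⟨h1, by simp [h2]⟩

theorem SS_compact (α s : ℝ) (τ : ℂ) : IsCompact (SS α s τ) := by
  apply IsCompact.union
  · have hc : IsCompact {p : ℝ × ℝ | p.1 ^ 2 + p.2 ^ 2 ≤ 1} := by
      apply Metric.isCompact_of_isClosed_isBounded
      · exact isClosed_le (by fun_prop) (by fun_prop)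
      · rw [isBounded_iff_forall_norm_le]
        refine ⟨1, ?_⟩
        rintro ⟨x, y⟩ h
        simp only [Set.mem_ofPred_eq] at h
        rw [Prod.norm_def]
        apply max_le
        · rw [Real.norm_eq_abs]
          apply abs_le_of_sq_le_sq' _ (by norm_num) |> abs_le.2
          nlinarith [sq_nonneg y]
        · rw [Real.norm_eq_abs]
          apply abs_le_of_sq_le_sq' _ (by norm_num) |> abs_le.2
          nlinarith [sq_nonneg x]
    have him := hc.image (f := fun p : ℝ × ℝ => exp (arg τ * I) *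
      (((1 + α) * s * ‖τ‖ + √α * (1 + ‖τ‖ ^ 2) * s * p.1 : ℝ) +
        (√α * (1 - ‖τ‖ ^ 2) * s * p.2 : ℝ) * I)) (by fun_prop)
    convert him using 1
    ext z
    constructor
    · rintro ⟨x, y, h, hz⟩
      exact ⟨(x, y), h, hz.symm⟩
    · rintro ⟨⟨x, y⟩, h, hz⟩
      exact ⟨x, y, h, hz.symm⟩
  · apply Set.Finite.isCompact
    apply Set.Finite.subset (Set.finite_singleton (0 : ℂ))
    rintro z ⟨_, hz⟩
    exact hz

theorem SS_nonempty (α s : ℝ) (τ : ℂ) : (SS α s τ).Nonempty :=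
  ⟨_, Or.inl ⟨0, 0, by norm_num, rfl⟩⟩

end Pool.Agent.PG
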