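import Pool.Agent.PG.Defs

/-!
# Gaussian integration by parts and continuants
-/

open MeasureTheory ProbabilityTheory Filter Topology

namespace Pool.Agent.PG

noncomputable section

/-! ### one variable -/

theorem gs_int (n : ℕ) : Integrable (fun x : ℝ => x ^ n * Real.exp (-(1 / 2) * x ^ 2)) := by
  have h := integrable_rpow_mul_exp_neg_mul_sq (b := 1 / 2) (by norm_num) (s := (n : ℝ))
    (by have : (0 : ℝ) ≤ n := n.cast_nonneg
        linarith)
  simpa only [Real.rpow_natCast] using h

theorem gs_ibp (n : ℕ) : ∫ x : ℝ, x ^ (n + 1) * Real.exp (-(1 / 2) * x ^ 2) =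
    n * ∫ x : ℝ, x ^ (n - 1) * Real.exp (-(1 / 2) * x ^ 2) := by
  have h := integral_mul_deriv_eq_deriv_mul_of_integrable (u := fun x : ℝ => x ^ n)
    (u' := fun x : ℝ => n * x ^ (n - 1)) (v := fun x : ℝ => Real.exp (-(1 / 2) * x ^ 2))
    (v' := fun x : ℝ => -(x * Real.exp (-(1 / 2) * x ^ 2)))
    (fun x _ => hasDerivAt_pow n x) (fun x _ => by
      have h1 : HasDerivAt (fun x : ℝ => -(1 / 2) * x ^ 2) (-(1 / 2) * (2 * x)) x := by
        have := (hasDerivAt_pow 2 x).const_mul (-(1 / 2) : ℝ)
        simpa using this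
      have h2 := h1.exp
      have h3 : Real.exp (-(1 / 2) * x ^ 2) * (-(1 / 2) * (2 * x)) =
          -(x * Real.exp (-(1 / 2) * x ^ 2)) := by ring
      rw [h3] at h2
      exact h2) ?_ ?_ ?_
  · have e1 : ∀ x : ℝ, x ^ n * -(x * Real.exp (-(1 / 2) * x ^ 2)) =
        -(x ^ (n + 1) * Real.exp (-(1 / 2) * x ^ 2)) := fun x => by ring
    have e2 : ∀ x : ℝ, n * x ^ (n - 1) * Real.exp (-(1 / 2) * x ^ 2) =
        n * (x ^ (n - 1) * Real.exp (-(1 / 2) * x ^ 2)) := fun x => by ring
    simp only [e1, e2, integral_neg, integral_const_mul] at h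
    linarith
  · have := (gs_int (n + 1)).neg
    refine this.congr (Eventually.of_forall fun x => ?_)
    simp only [Pi.neg_apply, Pi.mul_apply]
    ring
  · have := (gs_int (n - 1)).const_mul (n : ℝ)
    refine this.congr (Eventually.of_forall fun x => ?_)
    simp only [Pi.mul_apply]
    ring
  · exact gs_int n

/-- moments of the standard Gaussian -/
def gmom (n : ℕ) : ℝ := ∫ x, x ^ n ∂gaussianReal 0 1

theorem gmom_eq (n : ℕ) : gmom n =
    (√(2 * Real.pi))⁻¹ * ∫ x : ℝ, x ^ n * Real.exp (-(1 / 2) * x ^ 2) := by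
  unfold gmom
  rw [integral_gaussianReal_eq_integral_smul (by norm_num), ← integral_const_mul]
  refine integral_congr_ae (Eventually.of_forall fun x => ?_)
  simp only [gaussianPDFReal, smul_eq_mul, NNReal.coe_one, mul_one, sub_zero]
  have : -x ^ 2 / 2 = -(1 / 2) * x ^ 2 := by ring
  rw [this]
  ring

theorem gmom_rec (n : ℕ) : gmom (n + 1) = n * gmom (n - 1) := by
  rw [gmom_eq, gmom_eq, gs_ibp]
  ring

theorem gpow_int (n : ℕ) : Integrable (fun x : ℝ => x ^ n) (gaussianReal 0 1) := by
  rcases Nat.eq_zero_or_pos n with rfl | hn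
  · simp
  · have h := memLp_id_gaussianReal (μ := 0) (v := 1) (n : NNReal)
    have h2 := (MemLp.integrable_norm_pow (p := n) (by exact_mod_cast h) hn.ne')
    refine h2.mono (by fun_prop) (Eventually.of_forall fun x => ?_)
    simp

/-! ### the expectation on polynomials -/

variable {I : Type} [Fintype I]

/-- the expectation of a polynomial in independent standard Gaussians -/
def EE (F : MvPolynomial I ℂ) : ℂ :=
  ∫ g : I → ℝ, MvPolynomial.eval (fun i => (g i : ℂ)) F ∂gam I

theorem mon_eq (m : I →₀ ℕ) (c : ℂ) (g : I → ℝ) :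
    MvPolynomial.eval (fun i => (g i : ℂ)) (MvPolynomial.monomial m c) =
      c * ∏ i, ((g i ^ m i : ℝ) : ℂ) := by
  rw [MvPolynomial.eval_monomial, Finsupp.prod_fintype _ _ (fun _ => pow_zero _)]
  simp

theorem mon_int (m : I →₀ ℕ) (c : ℂ) :
    Integrable (fun g : I → ℝ => MvPolynomial.eval (fun i => (g i : ℂ))
      (MvPolynomial.monomial m c)) (gam I) := by
  simp_rw [mon_eq]
  refine Integrable.const_mul ?_ c
  unfold gam
  exact Integrable.fintype_prod (f := fun i (x : ℝ) => ((x ^ m i : ℝ) : ℂ))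
    fun i => (gpow_int (m i)).ofReal

theorem poly_int (F : MvPolynomial I ℂ) :
    Integrable (fun g : I → ℝ => MvPolynomial.eval (fun i => (g i : ℂ)) F) (gam I) := by
  induction F using MvPolynomial.induction_on' with
  | monomial m c => exact mon_int m c
  | add p q hp hq =>
    simp only [map_add]
    exact hp.add hq

theorem EE_add (F G : MvPolynomial I ℂ) : EE (F + G) = EE F + EE G := by
  unfold EE
  simp only [map_add]
  exact integral_add (poly_int F) (poly_int G)

theorem EE_C_mul (c : ℂ) (F : MvPolynomial I ℂ) : EE (MvPolynomial.C c * F) = c * EE F := by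
  unfold EE
  simp only [map_mul, MvPolynomial.eval_C]
  exact integral_const_mul _ _

theorem EE_zero : EE (0 : MvPolynomial I ℂ) = 0 := by
  unfold EE
  simp

theorem EE_one : EE (1 : MvPolynomial I ℂ) = 1 := by
  unfold EE
  simp

theorem EE_sub (F G : MvPolynomial I ℂ) : EE (F - G) = EE F - EE G := by
  unfold EE
  simp only [map_sub]
  exact integral_sub (poly_int F) (poly_int G)

theorem EE_sum {κ : Type} (s : Finset κ) (F : κ → MvPolynomial I ℂ) :
    EE (∑ a ∈ s, F a) = ∑ a ∈ s, EE (F a) := by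
  unfold EE
  simp only [map_sum]
  exact integral_finsetSum _ fun a _ => poly_int (F a)

theorem EE_mon (m : I →₀ ℕ) (c : ℂ) :
    EE (MvPolynomial.monomial m c) = c * ∏ i, (gmom (m i) : ℂ) := by
  unfold EE
  simp_rw [mon_eq]
  rw [integral_const_mul]
  congr 1
  unfold gam gmom
  rw [integral_fintype_prod_eq_prod (f := fun i (x : ℝ) => ((x ^ m i : ℝ) : ℂ))]
  exact Finset.prod_congr rfl fun i _ => integral_ofReal

variable [DecidableEq I]

theorem EE_X_mul (i : I) (F : MvPolynomial I ℂ) :
    EE (MvPolynomial.X i * F) = EE (MvPolynomial.pderiv i F) := by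
  induction F using MvPolynomial.induction_on' with
  | monomial m c =>
    rw [MvPolynomial.pderiv_monomial, EE_mon, MvPolynomial.X, MvPolynomial.monomial_mul, EE_mon,
      one_mul]
    have h1 : ∏ j, (gmom ((Finsupp.single i 1 + m : I →₀ ℕ) j) : ℂ) =
        (gmom (m i + 1) : ℂ) * ∏ j ∈ Finset.univ.erase i, (gmom (m j) : ℂ) := by
      rw [← Finset.mul_prod_erase _ _ (Finset.mem_univ i)]
      congr 1
      · simp [add_comm]
      · refine Finset.prod_congr rfl fun j hj => ?_
        have : i ≠ j := fun h => (Finset.ne_of_mem_erase hj) h.symm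
        simp [this]
    have h2 : ∏ j, (gmom ((m - Finsupp.single i 1 : I →₀ ℕ) j) : ℂ) =
        (gmom (m i - 1) : ℂ) * ∏ j ∈ Finset.univ.erase i, (gmom (m j) : ℂ) := by
      rw [← Finset.mul_prod_erase _ _ (Finset.mem_univ i)]
      congr 1
      · simp
      · refine Finset.prod_congr rfl fun j hj => ?_
        have : i ≠ j := fun h => (Finset.ne_of_mem_erase hj) h.symm
        simp [this]
    rw [h1, h2, gmom_rec]
    push_cast
    ring
  | add p q hp hq => rw [mul_add, EE_add, map_add, EE_add, hp, hq]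

/-- the linear form with coefficients `β` -/
def lin (β : I → ℂ) : MvPolynomial I ℂ := ∑ i, MvPolynomial.C (β i) * MvPolynomial.X i

/-- covariance -/
def cv (β β' : I → ℂ) : ℂ := ∑ i, β i * β' i

/-- the derivation in direction `β` -/
def dd (β : I → ℂ) : Derivation ℂ (MvPolynomial I ℂ) (MvPolynomial I ℂ) :=
  ∑ i, β i • MvPolynomial.pderiv i

theorem dd_apply (β : I → ℂ) (F : MvPolynomial I ℂ) :
    dd β F = ∑ i, MvPolynomial.C (β i) * MvPolynomial.pderiv i F := by
  unfold dd
  have h : ∀ s : Finset I, (∑ i ∈ s, β i • MvPolynomial.pderiv i :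
      Derivation ℂ (MvPolynomial I ℂ) (MvPolynomial I ℂ)) F =
      ∑ i ∈ s, MvPolynomial.C (β i) * MvPolynomial.pderiv i F := by
    intro s
    induction s using Finset.induction_on with
    | empty => simp
    | insert a s ha ih =>
      rw [Finset.sum_insert ha, Finset.sum_insert ha, Derivation.add_apply, ih,
        Derivation.smul_apply, MvPolynomial.smul_eq_C_mul]
  exact h _

theorem dd_lin (β β' : I → ℂ) : dd β (lin β') = MvPolynomial.C (cv β β') := by
  rw [dd_apply]
  unfold lin cv
  rw [map_sum]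
  refine Finset.sum_congr rfl fun i _ => ?_
  rw [map_sum, Finset.sum_eq_single i]
  · rw [Derivation.leibniz, MvPolynomial.pderiv_X_self, MvPolynomial.pderiv_C]
    simp
  · intro j _ hj
    rw [Derivation.leibniz, MvPolynomial.pderiv_X_of_ne hj, MvPolynomial.pderiv_C]
    simp
  · intro h
    exact absurd (Finset.mem_univ i) h

theorem EE_lin_mul (β : I → ℂ) (F : MvPolynomial I ℂ) : EE (lin β * F) = EE (dd β F) := by
  rw [dd_apply]
  unfold lin
  rw [Finset.sum_mul, EE_sum, EE_sum]
  refine Finset.sum_congr rfl fun i _ => ?_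
  rw [mul_assoc, EE_C_mul, EE_C_mul, EE_X_mul]

end

end Pool.Agent.PG
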