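import Pool.Agent.PG.Defs

/-!
# Paired Gaussian matrices as linear images of independent standard Gaussians
-/

open MeasureTheory ProbabilityTheory Filter Topology Complex
open scoped MatrixOrder

namespace Pool.Agent.PG

noncomputable section

/-- the curried standard Gaussian array -/
lemma gam_map_curry (I J : Type) [Fintype I] [Fintype J] :
    (gam (I × J)).map (fun g i j => g (i, j)) = Measure.pi fun _ : I => gam J := by
  have h := Measure.infinitePi_map_curry (ι := I) (κ := J) (X := ℝ) (fun _ _ => gaussianReal 0 1)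
  simp only [Measure.infinitePi_eq_pi] at h
  exact h

/-- the pair of complex numbers of a real vector -/
def unvec (v : EuclideanSpace ℝ (Fin 4)) : ℂ × ℂ :=
  ((v 0 : ℂ) + (v 1 : ℂ) * I, (v 2 : ℂ) + (v 3 : ℂ) * I)

lemma unvec_vec (x y : ℂ) : unvec (vec x y) = (x, y) := by
  simp only [unvec, vec]
  refine Prod.ext ?_ ?_
  · exact Complex.re_add_im x
  · exact Complex.re_add_im y

lemma measurable_unvec : Measurable unvec := by
  unfold unvec
  fun_prop

lemma measurable_vec {Ω : Type} [MeasurableSpace Ω] {f g : Ω → ℂ} (hf : Measurable f)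
    (hg : Measurable g) : Measurable fun ω => vec (f ω) (g ω) := by
  unfold vec
  refine (MeasurableEquiv.toLp 2 (Fin 4 → ℝ)).measurable.comp ?_
  rw [measurable_pi_iff]
  intro i
  fin_cases i
  · exact Complex.measurable_re.comp hf
  · exact Complex.measurable_im.comp hf
  · exact Complex.measurable_re.comp hg
  · exact Complex.measurable_im.comp hg

/-- the centred Gaussian law as a linear image of the standard one -/
lemma gaussian_eq_map (S : Matrix (Fin 4) (Fin 4) ℝ) :
    multivariateGaussian 0 S =
      (gam (Fin 4)).map (fun v => WithLp.toLp 2 ((CFC.sqrt S).mulVec v)) := by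
  rw [multivariateGaussian, ← map_pi_eq_stdGaussian, Measure.map_map (by fun_prop) (by fun_prop)]
  congr 1
  funext v
  simp only [Function.comp_apply, zero_add]
  rfl

theorem law_transfer {Γ : Matrix (Fin 4) (Fin 4) ℝ} (hΓ : Γ.PosSemidef) {N P : ℕ} (hN : 1 ≤ N)
    {Ω : Type} [MeasurableSpace Ω] (μ : Measure Ω) [IsProbabilityMeasure μ]
    (X Y : Ω → Matrix (Fin N) (Fin P) ℂ) (h : Paired Γ μ X Y) :
    ∃ B : Matrix (Fin 4) (Fin 4) ℝ, B * B.transpose = (N : ℝ)⁻¹ • Γ ∧
      ∀ E : Set (Fin N × Fin P → ℂ × ℂ), MeasurableSet E →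
        μ {ω | (fun e => (X ω e.1 e.2, Y ω e.1 e.2)) ∈ E} =
          gam ((Fin N × Fin P) × Fin 4) {g | (fun e => (xg B g e, yg B g e)) ∈ E} := by
  have hS : ((N : ℝ)⁻¹ • Γ).PosSemidef := hΓ.smul (inv_nonneg.2 (Nat.cast_nonneg N))
  set S : Matrix (Fin 4) (Fin 4) ℝ := (N : ℝ)⁻¹ • Γ with hSdef

  refine ⟨CFC.sqrt S, ?_, ?_⟩
  · have h1 : (CFC.sqrt S).transpose = CFC.sqrt S := by
      have h2 : IsSelfAdjoint (CFC.sqrt S) := (CFC.sqrt_nonneg S).isSelfAdjoint
      have h3 : (CFC.sqrt S).conjTranspose = CFC.sqrt S := h2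
      rwa [Matrix.conjTranspose_eq_transpose_of_trivial] at h3
    rw [h1]
    exact CFC.sqrt_mul_sqrt_self _ hS.nonneg
  · intro E hE
    set B := CFC.sqrt S with hB
    have hmeas : ∀ e : Fin N × Fin P, Measurable fun ω => vec (X ω e.1 e.2) (Y ω e.1 e.2) :=
      fun e => measurable_vec (h.measX e.1 e.2) (h.measY e.1 e.2)
    have hjoint := (iIndepFun_iff_map_fun_eq_pi_map (fun e => (hmeas e).aemeasurable)).1 h.indep
    have hT : Measurable (fun v : Fin 4 → ℝ => (WithLp.toLp 2 (B.mulVec v) :
        EuclideanSpace ℝ (Fin 4))) := by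
      refine (MeasurableEquiv.toLp 2 (Fin 4 → ℝ)).measurable.comp ?_
      rw [measurable_pi_iff]
      intro i
      simp only [Matrix.mulVec, dotProduct]
      fun_prop
    have h1 : μ.map (fun ω (e : Fin N × Fin P) => vec (X ω e.1 e.2) (Y ω e.1 e.2)) =
        (gam ((Fin N × Fin P) × Fin 4)).map
          (fun g e => (WithLp.toLp 2 (B.mulVec fun c => g (e, c)) : EuclideanSpace ℝ (Fin 4))) := by
      rw [hjoint]
      have h2 : (fun e : Fin N × Fin P => μ.map fun ω => vec (X ω e.1 e.2) (Y ω e.1 e.2)) =
          fun _ => (gam (Fin 4)).map (fun v => (WithLp.toLp 2 (B.mulVec v) :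
            EuclideanSpace ℝ (Fin 4))) := by
        funext e
        rw [h.law e, gaussian_eq_map]
      rw [h2]
      have : ∀ _ : Fin N × Fin P, SigmaFinite ((gam (Fin 4)).map (fun v =>
          (WithLp.toLp 2 (B.mulVec v) : EuclideanSpace ℝ (Fin 4)))) := fun _ => by
        have := Measure.isProbabilityMeasure_map (μ := gam (Fin 4)) hT.aemeasurable
        infer_instance
      rw [← Measure.pi_map_pi (fun _ => hT.aemeasurable), ← gam_map_curry,
        Measure.map_map]
      · rfl
      · rw [measurable_pi_iff]
        intro e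
        exact hT.comp (measurable_pi_apply e)
      · fun_prop
    have hU : Measurable (fun (w : Fin N × Fin P → EuclideanSpace ℝ (Fin 4)) e => unvec (w e)) := by
      rw [measurable_pi_iff]
      intro e
      exact measurable_unvec.comp (measurable_pi_apply e)
    have h3 := congrArg (fun m => m ((fun (w : Fin N × Fin P → EuclideanSpace ℝ (Fin 4)) e =>
      unvec (w e)) ⁻¹' E)) h1
    simp only at h3
    rw [Measure.map_apply (measurable_pi_iff.2 hmeas) (hU hE), Measure.map_apply _ (hU hE)] at h3
    · convert h3 using 2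
      · ext ω
        simp only [Set.mem_ofPred_eq, Set.mem_preimage, unvec_vec]
      · ext g
        simp only [Set.mem_ofPred_eq, Set.mem_preimage]
        have h4 : (fun e => (xg B g e, yg B g e)) =
            fun e => unvec (WithLp.toLp 2 (B.mulVec fun c => g (e, c))) := by
          funext e
          simp only [xg, yg, unvec, Matrix.mulVec, dotProduct]
          refine Prod.ext ?_ ?_
          · simp only
            push_cast
            rw [Finset.sum_mul, ← Finset.sum_add_distrib]
            exact Finset.sum_congr rfl fun c _ => by ring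
          · simp only
            push_cast
            rw [Finset.sum_mul, ← Finset.sum_add_distrib]
            exact Finset.sum_congr rfl fun c _ => by ring
        rw [h4]
    · rw [measurable_pi_iff]
      intro e
      refine hT.comp ?_
      fun_prop

end

end Pool.Agent.PG
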