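import Pool.Agent.PG.Second
import Pool.Agent.PG.Law
import Pool.Agent.PG.Ellipse

/-!
# Eigenvalues, scaling and the probability estimate
-/

open MeasureTheory ProbabilityTheory Filter Topology Complex

open scoped Pointwise

namespace Pool.Agent.PG

noncomputable section

open Matrix in
theorem eigs_iff {N : ℕ} (A : Matrix (Fin N) (Fin N) ℂ) (z : ℂ) :
    z ∈ eigs A ↔ ∃ v ≠ 0, A *ᵥ v = z • v := by
  have h0 : A.charpoly ≠ 0 := (Matrix.charpoly_monic A).ne_zero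
  unfold eigs
  rw [Set.mem_ofPred_eq, Polynomial.mem_roots h0, Polynomial.IsRoot, Matrix.eval_charpoly,
    ← Matrix.exists_mulVec_eq_zero_iff]
  constructor
  · rintro ⟨v, hv, h⟩
    refine ⟨v, hv, ?_⟩
    rw [Matrix.sub_mulVec, sub_eq_zero] at h
    rw [← h]
    ext i
    simp [Matrix.scalar_apply, Matrix.mulVec_diagonal]
  · rintro ⟨v, hv, h⟩
    refine ⟨v, hv, ?_⟩
    rw [Matrix.sub_mulVec, sub_eq_zero, h]
    ext i
    simp [Matrix.scalar_apply, Matrix.mulVec_diagonal]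

open Matrix in
theorem PM_mulVec {N : ℕ} (τ : ℂ) (α : ℝ) (T : Matrix (Fin N) (Fin N) ℂ) (z : ℂ) (v : Fin N → ℂ)
    (h : T *ᵥ v = z • v) : ∀ k, PM τ α T k *ᵥ v = PP τ α z k • v ∧
      PM τ α T (k + 1) *ᵥ v = PP τ α z (k + 1) • v := by
  intro k
  induction k with
  | zero =>
    refine ⟨by simp [PM, PP], ?_⟩
    rw [PM, PP, Matrix.sub_mulVec, Matrix.smul_mulVec, Matrix.one_mulVec, h, sub_smul]
  | succ k ih =>
    refine ⟨ih.2, ?_⟩
    rw [PM, PP, Matrix.sub_mulVec, ← Matrix.mulVec_mulVec, ih.2, Matrix.smul_mulVec, ih.1,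
      Matrix.mulVec_smul, Matrix.sub_mulVec, Matrix.smul_mulVec, Matrix.one_mulVec, h]
    ext i
    simp only [Pi.sub_apply, Pi.smul_apply, smul_eq_mul]
    ring

open Matrix in
theorem PP_le {N : ℕ} (τ : ℂ) (α : ℝ) (T : Matrix (Fin N) (Fin N) ℂ) {z : ℂ} (hz : z ∈ eigs T)
    (k : ℕ) : ‖PP τ α z k‖ ^ 2 ≤ ∑ i, ∑ j, ‖PM τ α T k i j‖ ^ 2 := by
  obtain ⟨v, hv, h⟩ := (eigs_iff T z).1 hz
  have h1 := (PM_mulVec τ α T z v h k).1
  have h2 : ∀ i, ‖PP τ α z k‖ ^ 2 * ‖v i‖ ^ 2 ≤ (∑ j, ‖PM τ α T k i j‖ ^ 2) * ∑ j, ‖v j‖ ^ 2 := by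
    intro i
    have h3 := congrFun h1 i
    rw [Pi.smul_apply, smul_eq_mul] at h3
    rw [← mul_pow, ← norm_mul, ← h3]
    refine le_trans ?_ (Finset.sum_mul_sq_le_sq_mul_sq Finset.univ (fun j => ‖PM τ α T k i j‖)
      (fun j => ‖v j‖))
    refine pow_le_pow_left₀ (norm_nonneg _) ?_ 2
    show ‖∑ j, PM τ α T k i j * v j‖ ≤ _
    refine (norm_sum_le _ _).trans (le_of_eq ?_)
    exact Finset.sum_congr rfl fun j _ => norm_mul _ _
  have h3 : 0 < ∑ j, ‖v j‖ ^ 2 := by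
    obtain ⟨i, hi⟩ := Function.ne_iff.1 hv
    refine lt_of_lt_of_le ?_ (Finset.single_le_sum (f := fun j => ‖v j‖ ^ 2)
      (fun j _ => sq_nonneg _) (Finset.mem_univ i))
    have : 0 < ‖v i‖ := norm_pos_iff.2 hi
    positivity
  have h4 := Finset.sum_le_sum fun i (_ : i ∈ Finset.univ) => h2 i
  rw [← Finset.mul_sum, ← Finset.sum_mul] at h4
  exact le_of_mul_le_mul_right h4 h3

open Matrix in
theorem eigs_smul {N : ℕ} (A : Matrix (Fin N) (Fin N) ℂ) {z : ℂ} (c : ℂ) (hz : z ∈ eigs A) :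
    c * z ∈ eigs (c • A) := by
  obtain ⟨v, hv, h⟩ := (eigs_iff A z).1 hz
  refine (eigs_iff _ _).2 ⟨v, hv, ?_⟩
  rw [Matrix.smul_mulVec, h, smul_smul]

theorem PM_cont {N : ℕ} (τ : ℂ) (α : ℝ) : ∀ k, (Continuous fun T : Matrix (Fin N) (Fin N) ℂ =>
    PM τ α T k) ∧ Continuous fun T : Matrix (Fin N) (Fin N) ℂ => PM τ α T (k + 1) := by
  intro k
  induction k with
  | zero =>
    refine ⟨?_, ?_⟩
    · simp only [PM]
      exact continuous_const
    · simp only [PM]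
      exact continuous_id.sub continuous_const
  | succ k ih =>
    refine ⟨ih.2, ?_⟩
    simp only [PM]
    have h := ih.1.const_smul (τ ^ 2 * (α : ℂ))
    exact ((continuous_id.sub continuous_const).matrix_mul ih.2).sub h

theorem infDist_SS {α s : ℝ} (hs : 0 < s) (τ z : ℂ) :
    Metric.infDist z (SS α s τ) = s * Metric.infDist ((s : ℂ)⁻¹ * z) (SS α 1 τ) := by
  have h1 : SS α s τ = (s : ℂ) • SS α 1 τ := SS_scale α s hs τ
  have hsC : (s : ℂ) ≠ 0 := by exact_mod_cast hs.ne'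
  have h2 : z = (s : ℂ) • ((s : ℂ)⁻¹ * z) := by
    rw [smul_eq_mul, mul_inv_cancel_left₀ hsC]
  rw [h1]
  conv_lhs => rw [h2]
  rw [infDist_smul₀ hsC, norm_real, Real.norm_eq_abs, abs_of_pos hs]

theorem tau_le {Γ : Matrix (Fin 4) (Fin 4) ℝ} (hΓ : Γ.PosSemidef) (hx : 0 < sx2 Γ)
    (hy : 0 < sy2 Γ) : ‖tau Γ‖ ≤ 1 := by
  have hs : 0 < sxy Γ := mul_pos (Real.sqrt_pos.2 hx) (Real.sqrt_pos.2 hy)
  have hsym : ∀ i j, Γ i j = Γ j i := fun i j => by
    have := hΓ.1.apply i j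
    simpa using this.symm
  have hq : ∀ w : Fin 4 → ℝ, 0 ≤ ∑ i, ∑ j, w i * Γ i j * w j := by
    intro w
    have := hΓ.dotProduct_mulVec_nonneg w
    simp only [star_trivial, dotProduct, Matrix.mulVec, Finset.mul_sum] at this
    refine this.trans (le_of_eq ?_)
    refine Finset.sum_congr rfl fun i _ => Finset.sum_congr rfl fun j _ => ?_
    ring
  set C := Γ 0 2 + Γ 1 3 with hC
  set D := Γ 1 2 - Γ 0 3 with hD
  have key : ∀ p q : ℝ, 0 ≤ sx2 Γ + (p ^ 2 + q ^ 2) * sy2 Γ + 2 * (p * C + q * D) := by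
    intro p q
    have e1 := hq ![1, 0, p, -q]
    have e2 := hq ![0, 1, q, p]
    simp only [Fin.sum_univ_four, Matrix.cons_val_zero, Matrix.cons_val_one, Matrix.cons_val] at e1 e2
    unfold sx2 sy2
    rw [hC, hD]
    have s1 := hsym 2 0
    have s2 := hsym 3 0
    have s3 := hsym 2 1
    have s4 := hsym 3 1
    have s5 := hsym 1 0
    have s6 := hsym 3 2
    rw [s1, s2, s3, s4, s5, s6] at e1 e2
    nlinarith
  have h1 := key (-C / sy2 Γ) (-D / sy2 Γ)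
  have h2 : C ^ 2 + D ^ 2 ≤ sx2 Γ * sy2 Γ := by
    have e : sx2 Γ + ((-C / sy2 Γ) ^ 2 + (-D / sy2 Γ) ^ 2) * sy2 Γ +
        2 * ((-C / sy2 Γ) * C + (-D / sy2 Γ) * D) = sx2 Γ - (C ^ 2 + D ^ 2) / sy2 Γ := by
      field_simp
      ring
    rw [e, sub_nonneg, div_le_iff₀ hy] at h1
    exact h1
  have h3 : sxy Γ ^ 2 = sx2 Γ * sy2 Γ := by
    unfold sxy
    rw [mul_pow, Real.sq_sqrt hx.le, Real.sq_sqrt hy.le]
  have h4 : ‖tau Γ‖ ^ 2 ≤ 1 := by
    unfold tau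
    rw [norm_div, div_pow, norm_real, Real.norm_eq_abs, sq_abs, Complex.sq_norm, ← hC, ← hD,
      normSq_add_mul_I, h3, div_le_one (mul_pos hx hy)]
    exact h2
  nlinarith [norm_nonneg (tau Γ)]

end

end Pool.Agent.PG
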