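import Pool.Agent.PG.Wick

/-!
# The polynomials `P_k` of `X Yᴴ` as sums over paths
-/

open MeasureTheory ProbabilityTheory Filter Topology

namespace Pool.Agent.PG

noncomputable section

variable {N P : ℕ}

/-- a letter: type (`false` is `x`, `true` is `ȳ`) and entry -/
abbrev Lt (N P : ℕ) := Bool × (Fin N × Fin P)

/-- the word of a path that starts at `i` -/
def wd : Fin N → List (Fin P × Fin N) → List (Lt N P)
  | _, [] => []
  | i, (μ, j) :: p => (false, (i, μ)) :: (true, (j, μ)) :: wd j p

/-- the end of a path -/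
def en : Fin N → List (Fin P × Fin N) → Fin N
  | i, [] => i
  | _, (_, j) :: p => en j p

theorem sum_cons {A : Type} [Fintype A] (m : ℕ) (f : List A → ℂ) :
    ∑ p : Fin (m + 1) → A, f (List.ofFn p) = ∑ a : A, ∑ p : Fin m → A, f (a :: List.ofFn p) := by
  rw [← (Fin.consEquiv (fun _ => A)).sum_comp, Fintype.sum_prod_type]
  refine Finset.sum_congr rfl fun a _ => Finset.sum_congr rfl fun p _ => ?_
  congr 1
  rw [List.ofFn_succ]
  simp [Fin.consEquiv]

section alg

variable (C : Lt N P → Lt N P → ℂ) (z : Lt N P → ℂ)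

/-- path sums, starting with `x` -/
def aa (m : ℕ) (i j : Fin N) : ℂ := ∑ p : Fin m → Fin P × Fin N,
  if en i (List.ofFn p) = j then AA (fun _ _ => True) C z (wd i (List.ofFn p)) else 0

/-- path sums, starting with `ȳ` -/
def bb (m : ℕ) (μ : Fin P) (j : Fin N) : ℂ := ∑ i' : Fin N, ∑ p : Fin m → Fin P × Fin N,
  if en i' (List.ofFn p) = j then
    AA (fun _ _ => True) C z ((true, (i', μ)) :: wd i' (List.ofFn p)) else 0

theorem aa_zero (i j : Fin N) : aa C z 0 i j = if i = j then 1 else 0 := by
  unfold aa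
  rw [Fintype.sum_unique]
  simp [en, wd, AA_nil]

theorem bb_zero (μ : Fin P) (j : Fin N) : bb C z 0 μ j = z (true, (j, μ)) := by
  unfold bb
  simp [en, wd, AA_one]

variable {c : ℂ}

theorem aa_succ (h1 : ∀ i μ i', C (false, (i, μ)) (true, (i', μ)) = if i = i' then c else 0)
    (m : ℕ) (i j : Fin N) : aa C z (m + 1) i j =
      ∑ μ, z (false, (i, μ)) * bb C z m μ j - P * c * aa C z m i j := by
  have e1 : aa C z (m + 1) i j = ∑ μ : Fin P, ∑ i' : Fin N, ∑ p : Fin m → Fin P × Fin N,
      (z (false, (i, μ)) * (if en i' (List.ofFn p) = j then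
        AA (fun _ _ => True) C z ((true, (i', μ)) :: wd i' (List.ofFn p)) else 0) -
      (if i = i' then c else 0) * (if en i' (List.ofFn p) = j then
        AA (fun _ _ => True) C z (wd i' (List.ofFn p)) else 0)) := by
    unfold aa
    rw [sum_cons m (fun l => if en i l = j then AA (fun _ _ => True) C z (wd i l) else 0),
      Fintype.sum_prod_type]
    refine Finset.sum_congr rfl fun μ _ => Finset.sum_congr rfl fun i' _ =>
      Finset.sum_congr rfl fun p _ => ?_
    have hw : wd i ((μ, i') :: List.ofFn p) =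
        (false, (i, μ)) :: (true, (i', μ)) :: wd i' (List.ofFn p) := rfl
    by_cases hj : en i' (List.ofFn p) = j
    · rw [if_pos hj, if_pos hj, if_pos (show en i ((μ, i') :: List.ofFn p) = j from hj), hw,
        AA_cons_pos _ _ _ _ trivial, h1]
    · rw [if_neg hj, if_neg hj, if_neg (show ¬ en i ((μ, i') :: List.ofFn p) = j from hj)]
      ring
  rw [e1]
  simp only [Finset.sum_sub_distrib]
  congr 1
  · refine Finset.sum_congr rfl fun μ _ => ?_
    unfold bb
    simp only [Finset.mul_sum]
  · have e2 : ∀ μ : Fin P, (∑ i' : Fin N, ∑ p : Fin m → Fin P × Fin N,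
        (if i = i' then c else 0) * (if en i' (List.ofFn p) = j then
        AA (fun _ _ => True) C z (wd i' (List.ofFn p)) else 0)) = c * aa C z m i j := by
      intro μ
      rw [Finset.sum_eq_single i]
      · rw [if_pos rfl, ← Finset.mul_sum]
        rfl
      · intro b _ hb
        rw [if_neg hb.symm]
        simp
      · simp
    rw [Finset.sum_congr rfl fun μ _ => e2 μ]
    simp
    ring

theorem bb_succ (h2 : ∀ i μ μ', C (true, (i, μ)) (false, (i, μ')) = if μ = μ' then c else 0)
    (m : ℕ) (μ : Fin P) (j : Fin N) : bb C z (m + 1) μ j =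
      ∑ i, z (true, (i, μ)) * aa C z (m + 1) i j - N * c * bb C z m μ j := by
  have e1 : bb C z (m + 1) μ j = ∑ i' : Fin N, ∑ μ' : Fin P, ∑ i'' : Fin N,
      ∑ p : Fin m → Fin P × Fin N,
      (z (true, (i', μ)) * (if en i'' (List.ofFn p) = j then
        AA (fun _ _ => True) C z (wd i' ((μ', i'') :: List.ofFn p)) else 0) -
      (if μ = μ' then c else 0) * (if en i'' (List.ofFn p) = j then
        AA (fun _ _ => True) C z ((true, (i'', μ')) :: wd i'' (List.ofFn p)) else 0)) := by
    unfold bb
    refine Finset.sum_congr rfl fun i' _ => ?_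
    rw [sum_cons m (fun l => if en i' l = j then
      AA (fun _ _ => True) C z ((true, (i', μ)) :: wd i' l) else 0),
      Fintype.sum_prod_type]
    refine Finset.sum_congr rfl fun μ' _ => Finset.sum_congr rfl fun i'' _ =>
      Finset.sum_congr rfl fun p _ => ?_
    have hw : wd i' ((μ', i'') :: List.ofFn p) =
        (false, (i', μ')) :: (true, (i'', μ')) :: wd i'' (List.ofFn p) := rfl
    by_cases hj : en i'' (List.ofFn p) = j
    · rw [if_pos hj, if_pos hj, if_pos (show en i' ((μ', i'') :: List.ofFn p) = j from hj), hw,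
        AA_cons_pos _ _ _ _ trivial, h2]
    · rw [if_neg hj, if_neg hj, if_neg (show ¬ en i' ((μ', i'') :: List.ofFn p) = j from hj)]
      ring
  rw [e1]
  simp only [Finset.sum_sub_distrib]
  congr 1
  · refine Finset.sum_congr rfl fun i' _ => ?_
    unfold aa
    rw [sum_cons m (fun l => if en i' l = j then AA (fun _ _ => True) C z (wd i' l) else 0),
      Fintype.sum_prod_type]
    simp only [Finset.mul_sum]
    rfl
  · have e2 : ∀ i' : Fin N, (∑ μ' : Fin P, ∑ i'' : Fin N, ∑ p : Fin m → Fin P × Fin N,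
        (if μ = μ' then c else 0) * (if en i'' (List.ofFn p) = j then
        AA (fun _ _ => True) C z ((true, (i'', μ')) :: wd i'' (List.ofFn p)) else 0)) =
        c * bb C z m μ j := by
      intro i'
      rw [Finset.sum_eq_single μ]
      · rw [if_pos rfl]
        unfold bb
        simp only [Finset.mul_sum]
      · intro b _ hb
        rw [if_neg hb.symm]
        simp
      · simp
    rw [Finset.sum_congr rfl fun i' _ => e2 i']
    simp
    ring

theorem PM_eq {τ : ℂ} {α : ℝ} (h1 : ∀ i μ i', C (false, (i, μ)) (true, (i', μ)) =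
      if i = i' then c else 0)
    (h2 : ∀ i μ μ', C (true, (i, μ)) (false, (i, μ')) = if μ = μ' then c else 0)
    (hτ : N * c = τ) (hα : P * c = τ * α) (T : Matrix (Fin N) (Fin N) ℂ)
    (hT : ∀ i j, T i j = ∑ μ, z (false, (i, μ)) * z (true, (j, μ))) :
    ∀ m, (∀ i j, PM τ α T m i j = aa C z m i j) ∧ ∀ i j, PM τ α T (m + 1) i j =
      aa C z (m + 1) i j := by
  intro m
  induction m with
  | zero =>
    refine ⟨fun i j => ?_, fun i j => ?_⟩
    · rw [aa_zero, PM, Matrix.one_apply]
    · rw [aa_succ C z h1, PM, aa_zero, Matrix.sub_apply, Matrix.smul_apply, Matrix.one_apply, hT,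
        hα]
      simp only [bb_zero, smul_eq_mul]
  | succ m ih =>
    refine ⟨ih.2, fun i j => ?_⟩
    have e1 := aa_succ C z h1 (m + 1) i j
    have e2 : ∑ μ, z (false, (i, μ)) * bb C z (m + 1) μ j =
        ∑ l, T i l * aa C z (m + 1) l j - τ * ∑ μ, z (false, (i, μ)) * bb C z m μ j := by
      have : ∀ μ, z (false, (i, μ)) * bb C z (m + 1) μ j =
          ∑ l, z (false, (i, μ)) * z (true, (l, μ)) * aa C z (m + 1) l j -
          τ * (z (false, (i, μ)) * bb C z m μ j) := by
        intro μ
        rw [bb_succ C z h2, hτ, mul_sub, Finset.mul_sum]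
        congr 1
        · exact Finset.sum_congr rfl fun l _ => by ring
        · ring
      rw [Finset.sum_congr rfl fun μ _ => this μ, Finset.sum_sub_distrib, ← Finset.mul_sum,
        Finset.sum_comm]
      congr 1
      refine Finset.sum_congr rfl fun l _ => ?_
      rw [hT, Finset.sum_mul]
    have e3 := aa_succ C z h1 m i j
    have e4 : ∑ μ, z (false, (i, μ)) * bb C z m μ j = aa C z (m + 1) i j +
        τ * α * aa C z m i j := by
      rw [e3, hα]
      ring
    rw [PM, e1, e2, e4, hα, Matrix.sub_apply, Matrix.sub_mul, Matrix.sub_apply, Matrix.mul_apply,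
      Matrix.smul_mul, Matrix.one_mul, Matrix.smul_apply, Matrix.smul_apply, ih.1, ih.2]
    simp only [ih.2, smul_eq_mul]
    ring

end alg

/-! ### times -/

/-- the indices of a path as a function of time -/
def qq : Fin N → List (Fin P × Fin N) → ℕ → ℕ
  | i, [], _ => i
  | i, _ :: _, 0 => i
  | _, (μ, _) :: _, 1 => μ
  | _, (_, j) :: p, n + 2 => qq j p n

theorem wd_length : ∀ (i : Fin N) (p : List (Fin P × Fin N)), (wd i p).length = 2 * p.length
  | _, [] => rfl
  | i, (μ, j) :: p => by
    have := wd_length j p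
    simp only [wd, List.length_cons, this]
    ring

theorem qq_zero : ∀ (i : Fin N) (p : List (Fin P × Fin N)), qq i p 0 = i
  | _, [] => rfl
  | _, _ :: _ => rfl

theorem qq_end : ∀ (i : Fin N) (p : List (Fin P × Fin N)), qq i p (2 * p.length) = en i p
  | _, [] => rfl
  | i, (μ, j) :: p => by
    have := qq_end j p
    rw [List.length_cons, mul_add, mul_one, qq, en, this]

theorem qq_lt : ∀ (i : Fin N) (p : List (Fin P × Fin N)) (n : ℕ), n ≤ 2 * p.length →
    (Even n → qq i p n < N) ∧ (¬ Even n → qq i p n < P)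
  | i, [], n, h => by
    have hn : n = 0 := by simpa using h
    subst hn
    exact ⟨fun _ => i.2, fun h => absurd (by simp) h⟩
  | i, (μ, j) :: p, 0, _ => ⟨fun _ => i.2, fun h => absurd (by simp) h⟩
  | i, (μ, j) :: p, 1, _ => ⟨fun h => absurd h (by simp), fun _ => μ.2⟩
  | i, (μ, j) :: p, n + 2, h => by
    have := qq_lt j p n (by simp only [List.length_cons] at h; omega)
    have hev : Even (n + 2) ↔ Even n := by rw [Nat.even_add]; simp
    rw [hev]
    exact this

theorem qq_inj : ∀ (i i' : Fin N) (p p' : List (Fin P × Fin N)), p.length = p'.length →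
    (∀ n ≤ 2 * p.length, qq i p n = qq i' p' n) → i = i' ∧ p = p'
  | i, i', [], [], _, h => by
    have := h 0 (by simp)
    rw [qq_zero, qq_zero] at this
    exact ⟨Fin.ext this, rfl⟩
  | i, i', [], _ :: _, hl, _ => by simp at hl
  | i, i', _ :: _, [], hl, _ => by simp at hl
  | i, i', (μ, j) :: p, (μ', j') :: p', hl, h => by
    simp only [List.length_cons, Nat.add_right_cancel_iff] at hl
    have h0 := h 0 (by simp)
    have h1 := h 1 (by simp only [List.length_cons]; omega)
    have h2 := qq_inj j j' p p' hl fun n hn => by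
      have := h (n + 2) (by simp only [List.length_cons]; omega)
      simpa only [qq] using this
    rw [qq_zero, qq_zero] at h0
    simp only [qq] at h1
    obtain ⟨h3, h4⟩ := h2
    exact ⟨Fin.ext h0, by rw [h3, h4, Fin.ext h1]⟩

theorem wd_get : ∀ (i : Fin N) (p : List (Fin P × Fin N)) (n : ℕ) (hn : n < (wd i p).length),
    (wd i p)[n].1 = decide (¬ Even n) ∧
    ((wd i p)[n].2.1 : ℕ) = qq i p (if Even n then n else n + 1) ∧
    ((wd i p)[n].2.2 : ℕ) = qq i p (if Even n then n + 1 else n)
  | i, [], n, hn => by simp [wd] at hn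
  | i, (μ, j) :: p, 0, _ => by simp [wd, qq]
  | i, (μ, j) :: p, 1, _ => by simp [wd, qq, qq_zero]
  | i, (μ, j) :: p, n + 2, hn => by
    have := wd_get j p n (by simpa [wd] using hn)
    have hev : Even (n + 2) ↔ Even n := by rw [Nat.even_add]; simp
    simp only [wd, List.getElem_cons_succ]
    refine ⟨by rw [this.1]; simp [hev], ?_, ?_⟩
    · rw [this.2.1]
      by_cases h : Even n
      · rw [if_pos h, if_pos (hev.2 h), qq]
      · rw [if_neg h, if_neg (fun h' => h (hev.1 h')), show n + 2 + 1 = (n + 1) + 2 by ring, qq]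
    · rw [this.2.2]
      by_cases h : Even n
      · rw [if_pos h, if_pos (hev.2 h), show n + 2 + 1 = (n + 1) + 2 by ring, qq]
      · rw [if_neg h, if_neg (fun h' => h (hev.1 h')), qq]

/-- the index function of two paths -/
def hh {k : ℕ} (i : Fin N) (p₁ p₂ : List (Fin P × Fin N)) (t : ZMod (4 * k)) : ℕ :=
  if t.val ≤ 2 * k then qq i p₁ t.val else qq i p₂ (4 * k - t.val)

end

end Pool.Agent.PG
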