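import Pool.Agent.PG.Lin

/-!
# The probability estimate and its asymptotics
-/

open MeasureTheory ProbabilityTheory Filter Topology Complex

open scoped Pointwise

namespace Pool.Agent.PG

noncomputable section

/-- the sum of squares of the entries of `P_k` as a function of the entries -/
def FF (Γ : Matrix (Fin 4) (Fin 4) ℝ) {N P : ℕ} (k : ℕ) (X Y : Matrix (Fin N) (Fin P) ℂ) : ℝ :=
  ∑ i, ∑ j, ‖PM (tau Γ) (P / N) ((sxy Γ : ℂ)⁻¹ • (X * Y.conjTranspose)) k i j‖ ^ 2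

theorem FF_cont (Γ : Matrix (Fin 4) (Fin 4) ℝ) {N P : ℕ} (k : ℕ) :
    Continuous fun f : Fin N × Fin P → ℂ × ℂ => FF Γ k
      (Matrix.of fun (i : Fin N) (μ : Fin P) => (f (i, μ)).1)
      (Matrix.of fun (i : Fin N) (μ : Fin P) => (f (i, μ)).2) := by
  have hX : Continuous fun f : Fin N × Fin P → ℂ × ℂ =>
      Matrix.of fun (i : Fin N) (μ : Fin P) => (f (i, μ)).1 :=
    continuous_matrix fun i j => by
      simp only [Matrix.of_apply]
      fun_prop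
  have hY : Continuous fun f : Fin N × Fin P → ℂ × ℂ =>
      Matrix.of fun (i : Fin N) (μ : Fin P) => (f (i, μ)).2 :=
    continuous_matrix fun i j => by
      simp only [Matrix.of_apply]
      fun_prop
  have h1 := (hX.matrix_mul hY.matrix_conjTranspose).const_smul ((sxy Γ : ℂ)⁻¹)
  unfold FF
  refine continuous_finsetSum _ fun i _ => continuous_finsetSum _ fun j _ => ?_
  exact (((PM_cont (tau Γ) (P / N) k).1.comp h1).matrix_elem i j).norm.pow 2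

theorem prob_le {Γ : Matrix (Fin 4) (Fin 4) ℝ} (hΓ : Γ.PosSemidef) (hx : 0 < sx2 Γ)
    (hy : 0 < sy2 Γ) {α ε c δ : ℝ} (hc : 0 < c) (hδ : 0 < δ) {N P k : ℕ} (hk : 1 ≤ k)
    (hN : (4 * (4 * k) ^ 2) ^ 6 ≤ N) (hP : (4 * (4 * k) ^ 2) ^ 6 ≤ P)
    (hPP : ∀ z : ℂ, ε / sxy Γ ≤ Metric.infDist z (SS α 1 (tau Γ)) →
      c * (√((P : ℝ) / N) * (1 + δ)) ^ k ≤ ‖PP (tau Γ) (P / N) z k‖)
    {Ω : Type} [MeasurableSpace Ω] (μ : Measure Ω) [IsProbabilityMeasure μ]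
    (X Y : Ω → Matrix (Fin N) (Fin P) ℂ) (h : Paired Γ μ X Y) :
    μ {ω | ∃ z ∈ eigs (X ω * (Y ω).conjTranspose),
      ε ≤ Metric.infDist z (SS α (sxy Γ) (tau Γ))} ≤
      ENNReal.ofReal (16 * k * N ^ 2 / (c ^ 2 * (1 + δ) ^ (2 * k))) := by
  have hs : 0 < sxy Γ := mul_pos (Real.sqrt_pos.2 hx) (Real.sqrt_pos.2 hy)
  have hpos : 0 < (4 * (4 * k) ^ 2) ^ 6 := by positivity
  have hN1 : 1 ≤ N := by omega
  have hP1 : 1 ≤ P := by omega
  have hNR : (0 : ℝ) < N := by exact_mod_cast hN1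
  have hPR : (0 : ℝ) < P := by exact_mod_cast hP1
  obtain ⟨B, hB, hlaw⟩ := law_transfer hΓ hN1 μ X Y h
  set lev : ℝ := c ^ 2 * ((P : ℝ) / N) ^ k * (1 + δ) ^ (2 * k) with hlev
  have hlev0 : 0 < lev := by positivity
  have hE : MeasurableSet {f : Fin N × Fin P → ℂ × ℂ | lev ≤ FF Γ k
      (Matrix.of fun (i : Fin N) (μ : Fin P) => (f (i, μ)).1)
      (Matrix.of fun (i : Fin N) (μ : Fin P) => (f (i, μ)).2)} :=
    (isClosed_le continuous_const (FF_cont Γ k)).measurableSet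
  have hsub : {ω | ∃ z ∈ eigs (X ω * (Y ω).conjTranspose),
      ε ≤ Metric.infDist z (SS α (sxy Γ) (tau Γ))} ⊆
      {ω | (fun e : Fin N × Fin P => (X ω e.1 e.2, Y ω e.1 e.2)) ∈
        {f : Fin N × Fin P → ℂ × ℂ | lev ≤ FF Γ k
      (Matrix.of fun (i : Fin N) (μ : Fin P) => (f (i, μ)).1)
      (Matrix.of fun (i : Fin N) (μ : Fin P) => (f (i, μ)).2)}} := by
    rintro ω ⟨z, hz, hzε⟩
    rw [infDist_SS hs, mul_comm, ← div_le_iff₀ hs] at hzε
    have h1 := hPP _ hzε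
    have h2 := PP_le (tau Γ) (P / N) _ (eigs_smul _ (sxy Γ : ℂ)⁻¹ hz) k
    show lev ≤ FF Γ k (X ω) (Y ω)
    unfold FF
    refine le_trans ?_ h2
    have h4 : lev = (c * (√((P : ℝ) / N) * (1 + δ)) ^ k) ^ 2 := by
      have hsq : √((P : ℝ) / N) ^ 2 = (P : ℝ) / N := Real.sq_sqrt (by positivity)
      rw [hlev]
      conv_lhs => rw [← hsq]
      rw [mul_pow (√((P : ℝ) / N)) (1 + δ) k, mul_pow, mul_pow, ← pow_mul, ← pow_mul, ← pow_mul,
        mul_comm k 2]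
      ring
    rw [h4]
    exact pow_le_pow_left₀ (by positivity) h1 2
  refine (measure_mono hsub).trans ?_
  rw [hlaw _ hE]
  obtain ⟨hint, hmom⟩ := second_moment (N := N) (P := P) hx hy hk hN hP B hB
  have h5 := mul_meas_ge_le_integral_of_nonneg (Eventually.of_forall fun g =>
    Finset.sum_nonneg fun i _ => Finset.sum_nonneg fun j _ => sq_nonneg _) hint lev
  have h6 := h5.trans hmom
  rw [← le_div_iff₀' hlev0] at h6
  have h7 : 16 * (k : ℝ) * N ^ 2 * (P / N) ^ k / lev =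
      16 * k * N ^ 2 / (c ^ 2 * (1 + δ) ^ (2 * k)) := by
    rw [hlev]
    have : ((P : ℝ) / N) ^ k ≠ 0 := by positivity
    field_simp
  rw [h7, measureReal_def] at h6
  exact (ENNReal.le_ofReal_iff_toReal_le (measure_ne_top _ _) (by positivity)).2 h6

/-- `k = (log₂ N)²` -/
def kk (N : ℕ) : ℕ := Nat.log 2 N ^ 2

theorem log_tendsto : Tendsto (Nat.log 2) atTop atTop :=
  tendsto_atTop_atTop.2 fun b => ⟨2 ^ b, fun _ ha => Nat.le_log_of_pow_le one_lt_two ha⟩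

theorem kk_tendsto : Tendsto kk atTop atTop := by
  refine tendsto_atTop_mono (fun N => ?_) log_tendsto
  unfold kk
  rcases Nat.eq_zero_or_pos (Nat.log 2 N) with h | h
  · simp [h]
  · nlinarith

theorem kk_small {a : ℝ} (ha : 0 < a) :
    ∀ᶠ N : ℕ in atTop, (((4 * (4 * kk N) ^ 2) ^ 6 : ℕ) : ℝ) ≤ a * N := by
  have h1 : Tendsto (fun L : ℕ => (L : ℝ) ^ 24 / 2 ^ L) atTop (𝓝 0) :=
    tendsto_pow_const_div_const_pow_of_one_lt 24 one_lt_two
  have h2 := (h1.comp log_tendsto).eventually (ge_mem_nhds (show (0 : ℝ) < a / 64 ^ 6 by positivity))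
  filter_upwards [h2, eventually_ge_atTop 1] with N hN hN1
  simp only [Function.comp_apply] at hN
  have h3 : (2 : ℝ) ^ Nat.log 2 N ≤ N := by
    exact_mod_cast Nat.pow_log_le_self 2 (by omega)
  rw [div_le_iff₀ (by positivity)] at hN
  have h4 : (((4 * (4 * kk N) ^ 2) ^ 6 : ℕ) : ℝ) = 64 ^ 6 * (Nat.log 2 N : ℝ) ^ 24 := by
    unfold kk
    push_cast
    ring
  rw [h4]
  calc 64 ^ 6 * (Nat.log 2 N : ℝ) ^ 24 ≤ 64 ^ 6 * (a / 64 ^ 6 * 2 ^ Nat.log 2 N) := by gcongr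
    _ = a * 2 ^ Nat.log 2 N := by ring
    _ ≤ a * N := by gcongr

theorem bound_tendsto {c δ : ℝ} (hc : 0 < c) (hδ : 0 < δ) :
    Tendsto (fun N : ℕ => 16 * (kk N : ℝ) * N ^ 2 / (c ^ 2 * (1 + δ) ^ (2 * kk N))) atTop (𝓝 0) := by
  have h1 : Tendsto (fun L : ℕ => (L : ℝ) ^ 2 / 2 ^ L) atTop (𝓝 0) :=
    tendsto_pow_const_div_const_pow_of_one_lt 2 one_lt_two
  have h2 : Tendsto (fun N : ℕ => 64 / c ^ 2 * ((Nat.log 2 N : ℝ) ^ 2 / 2 ^ (Nat.log 2 N)))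
      atTop (𝓝 0) := by
    have := (h1.comp log_tendsto).const_mul (64 / c ^ 2)
    rw [mul_zero] at this
    exact this
  refine squeeze_zero' (Eventually.of_forall fun N => by positivity) ?_ h2
  have h3 : ∀ᶠ L : ℕ in atTop, (8 : ℝ) ≤ (1 + δ) ^ (2 * L) := by
    have : Tendsto (fun L : ℕ => (1 + δ) ^ (2 * L)) atTop atTop :=
      (tendsto_pow_atTop_atTop_of_one_lt (by linarith)).comp
        (tendsto_atTop_mono (fun L : ℕ => (by omega : L ≤ 2 * L)) tendsto_id)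
    exact this.eventually_ge_atTop 8
  filter_upwards [log_tendsto.eventually h3] with N hN
  set L := Nat.log 2 N with hL
  have h4 : (N : ℝ) ≤ 2 ^ (L + 1) := by
    exact_mod_cast (Nat.lt_pow_succ_log_self one_lt_two N).le
  have h5 : (kk N : ℝ) = (L : ℝ) ^ 2 := by
    unfold kk
    push_cast
    rfl
  have h6 : (8 : ℝ) ^ L ≤ (1 + δ) ^ (2 * kk N) := by
    have : 2 * kk N = 2 * L * L := by
      unfold kk
      ring
    rw [this, pow_mul]
    exact pow_le_pow_left₀ (by norm_num) hN L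
  have h7 : (N : ℝ) ^ 2 ≤ 4 * 4 ^ L := by
    calc (N : ℝ) ^ 2 ≤ (2 ^ (L + 1)) ^ 2 := by gcongr
      _ = 4 * 4 ^ L := by
        rw [← pow_mul, mul_comm (L + 1) 2, pow_mul]
        norm_num
        rw [pow_succ]
        ring
  rw [h5]
  calc 16 * (L : ℝ) ^ 2 * (N : ℝ) ^ 2 / (c ^ 2 * (1 + δ) ^ (2 * kk N))
      ≤ 16 * (L : ℝ) ^ 2 * (4 * 4 ^ L) / (c ^ 2 * 8 ^ L) := by gcongr
    _ = 64 / c ^ 2 * ((L : ℝ) ^ 2 / 2 ^ L) := by
      rw [show (8 : ℝ) ^ L = 4 ^ L * 2 ^ L by rw [← mul_pow]; norm_num]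
      field_simp
      ring

end

end Pool.Agent.PG
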