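import Pool.Agent.PG.Path
import Pool.Agent.PG.Count

/-!
# The second moment of `P_k (X Yᴴ)`
-/

open MeasureTheory ProbabilityTheory Filter Topology Complex

open scoped ComplexConjugate

namespace Pool.Agent.PG

noncomputable section

variable {N P : ℕ}

/-- the linear form of a letter with coefficients `v` at the entry `e` -/
def fm (v : Fin 4 → ℂ) (e : Fin N × Fin P) : (Fin N × Fin P) × Fin 4 → ℂ :=
  fun i => if i.1 = e then v i.2 else 0

theorem cv_fm (v v' : Fin 4 → ℂ) (e e' : Fin N × Fin P) :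
    cv (fm v e) (fm v' e') = if e = e' then ∑ c, v c * v' c else 0 := by
  unfold cv fm
  rw [Fintype.sum_prod_type, Finset.sum_eq_single e]
  · by_cases h : e = e'
    · subst h
      simp
    · simp [h]
  · intro b _ hb
    simp [hb]
  · simp

theorem val_fm (v : Fin 4 → ℂ) (e : Fin N × Fin P) (g : (Fin N × Fin P) × Fin 4 → ℝ) :
    ∑ i, fm v e i * (g i : ℂ) = ∑ c, v c * (g (e, c) : ℂ) := by
  unfold fm
  rw [Fintype.sum_prod_type, Finset.sum_eq_single e]
  · simp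
  · intro b _ hb
    simp [hb]
  · simp

theorem cs4 {v v' : Fin 4 → ℂ} {κ : ℝ} (h : ∑ c, ‖v c‖ ^ 2 ≤ κ) (h' : ∑ c, ‖v' c‖ ^ 2 ≤ κ) :
    ‖∑ c, v c * v' c‖ ≤ κ := by
  refine (norm_sum_le _ _).trans ?_
  have h1 : ∀ c ∈ (Finset.univ : Finset (Fin 4)), ‖v c * v' c‖ ≤
      (‖v c‖ ^ 2 + ‖v' c‖ ^ 2) / 2 := by
    intro c _
    rw [norm_mul]
    nlinarith [sq_nonneg (‖v c‖ - ‖v' c‖)]
  refine (Finset.sum_le_sum h1).trans ?_
  rw [← Finset.sum_div, Finset.sum_add_distrib]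
  linarith

section

variable (u : Bool → Fin 4 → ℂ)

/-- form of a letter -/
def fo (l : Lt N P) : (Fin N × Fin P) × Fin 4 → ℂ := fm (u l.1) l.2

/-- conjugate form of a letter -/
def fo' (l : Lt N P) : (Fin N × Fin P) × Fin 4 → ℂ := fm (fun c => conj (u l.1 c)) l.2

/-- forms of the letters of two paths -/
def be {k : ℕ} (i : Fin N) (p₁ p₂ : List (Fin P × Fin N)) (a : ZMod (4 * k)) :
    (Fin N × Fin P) × Fin 4 → ℂ :=
  if a.val < 2 * k then ((wd i p₁).map (fo u)).getD a.val 0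
  else ((wd i p₂).map (fo' u)).getD (4 * k - 1 - a.val) 0

theorem be_w1 {k : ℕ} (i : Fin N) (p₁ p₂ : List (Fin P × Fin N)) (h₁ : p₁.length = k) :
    (w1 k).map (be u i p₁ p₂) = (wd i p₁).map (fo u) := by
  apply List.ext_getElem
  · simp [w1, wd_length, h₁]
  · intro n hn hn'
    have hn2 : n < 2 * k := by simpa [w1] using hn
    rw [List.getElem_map]
    have e1 : (w1 k)[n]'(by simpa using hn) = (n : ZMod (4 * k)) := by simp [w1]
    rw [e1, be, val_w1 hn2, if_pos hn2, List.getD_eq_getElem]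

theorem be_w2 {k : ℕ} (i : Fin N) (p₁ p₂ : List (Fin P × Fin N)) (h₂ : p₂.length = k) :
    (w2 k).map (be u i p₁ p₂) = (wd i p₂).map (fo' u) := by
  apply List.ext_getElem
  · simp [w2, wd_length, h₂]
  · intro n hn hn'
    have hn2 : n < 2 * k := by simpa [w2] using hn
    rw [List.getElem_map]
    have e1 : (w2 k)[n]'(by simpa using hn) = (-((n : ZMod (4 * k)) + 1)) := by simp [w2]
    rw [e1, be, val_w2 hn2, if_neg (by omega), show 4 * k - 1 - (4 * k - 1 - n) = n by omega,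
      List.getD_eq_getElem]

theorem val_succ {k : ℕ} (hk : 1 ≤ k) (a : ZMod (4 * k)) : (a + 1).val = (a.val + 1) % (4 * k) := by
  have : NeZero (4 * k) := ⟨by omega⟩
  rw [ZMod.val_add, ZMod.val_one_eq_one_mod, Nat.add_mod_mod]

theorem hh_lo {k : ℕ} (i : Fin N) (p₁ p₂ : List (Fin P × Fin N)) (t : ZMod (4 * k))
    (ht : t.val ≤ 2 * k) : hh i p₁ p₂ t = qq i p₁ t.val := if_pos ht

theorem hh_hi {k : ℕ} (hk : 1 ≤ k) (i : Fin N) (p₁ p₂ : List (Fin P × Fin N))
    (h₁ : p₁.length = k) (h₂ : p₂.length = k) (he : en i p₁ = en i p₂)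
    (t : ZMod (4 * k)) (ht : 2 * k ≤ t.val ∨ t.val = 0) :
    hh i p₁ p₂ t = qq i p₂ ((4 * k - t.val) % (4 * k)) := by
  rcases ht with ht | ht
  · have h4 : (4 * k - t.val) % (4 * k) = 4 * k - t.val := Nat.mod_eq_of_lt (by omega)
    rw [h4]
    rcases ht.lt_or_eq with h | h
    · exact if_neg (by omega)
    · rw [hh_lo i p₁ p₂ t h.ge, ← h, show 4 * k - 2 * k = 2 * k by omega]
      have e1 := qq_end i p₁
      have e2 := qq_end i p₂
      rw [h₁] at e1
      rw [h₂] at e2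
      rw [e1, e2, he]
  · rw [hh_lo i p₁ p₂ t (by omega), ht, Nat.sub_zero, Nat.mod_self, qq_zero, qq_zero]

theorem be_spec {k : ℕ} (hk : 1 ≤ k) (i : Fin N) (p₁ p₂ : List (Fin P × Fin N))
    (h₁ : p₁.length = k) (h₂ : p₂.length = k) (he : en i p₁ = en i p₂) (a : ZMod (4 * k)) :
    ∃ (b : Bool) (v : Fin 4 → ℂ) (e : Fin N × Fin P), (v = u b ∨ v = fun c => conj (u b c)) ∧
      be u i p₁ p₂ a = fm v e ∧ hh i p₁ p₂ (ev k a) = e.1 ∧ hh i p₁ p₂ (od k a) = e.2 := by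
  have hNZ : NeZero (4 * k) := ⟨by omega⟩
  have hval : a.val < 4 * k := ZMod.val_lt a
  have hsucc := val_succ hk a
  by_cases h : a.val < 2 * k
  · have hl : a.val < (wd i p₁).length := by rw [wd_length, h₁]; exact h
    obtain ⟨-, g2, g3⟩ := wd_get i p₁ a.val hl
    refine ⟨(wd i p₁)[a.val].1, u (wd i p₁)[a.val].1, (wd i p₁)[a.val].2, Or.inl rfl, ?_, ?_, ?_⟩
    · rw [be, if_pos h, List.getD_eq_getElem _ _ (by simpa using hl), List.getElem_map]
      rfl
    · rw [g2]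
      have h1 : (a + 1).val = a.val + 1 := by rw [hsucc, Nat.mod_eq_of_lt (by omega)]
      unfold ev
      split_ifs with hev
      · exact hh_lo i p₁ p₂ a h.le
      · rw [hh_lo i p₁ p₂ _ (by omega), h1]
    · rw [g3]
      have h1 : (a + 1).val = a.val + 1 := by rw [hsucc, Nat.mod_eq_of_lt (by omega)]
      unfold od
      split_ifs with hev
      · rw [hh_lo i p₁ p₂ _ (by omega), h1]
      · exact hh_lo i p₁ p₂ a h.le
  · push Not at h
    obtain ⟨n, hn⟩ : ∃ n, n = 4 * k - 1 - a.val := ⟨_, rfl⟩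
    have hn2 : n < 2 * k := by omega
    have hl : n < (wd i p₂).length := by rw [wd_length, h₂]; exact hn2
    obtain ⟨-, g2, g3⟩ := wd_get i p₂ n hl
    have hev : Even a.val ↔ ¬ Even n := by
      rw [hn, Nat.even_iff, Nat.even_iff]
      omega
    refine ⟨(wd i p₂)[n].1, fun c => conj (u (wd i p₂)[n].1 c), (wd i p₂)[n].2, Or.inr rfl,
      ?_, ?_, ?_⟩
    · rw [be, if_neg (by omega), ← hn, List.getD_eq_getElem _ _ (by simpa using hl),
        List.getElem_map]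
      rfl
    · rw [g2]
      unfold ev
      by_cases hE : Even a.val
      · rw [if_pos hE, if_neg (hev.1 hE), hh_hi hk i p₁ p₂ h₁ h₂ he a (Or.inl h)]
        congr 1
        rw [Nat.mod_eq_of_lt (by omega)]
        omega
      · have hE' : Even n := by
          by_contra h'
          exact hE (hev.2 h')
        rw [if_neg hE, if_pos hE']
        by_cases h0 : a.val + 1 = 4 * k
        · have h1 : (a + 1).val = 0 := by rw [hsucc, h0, Nat.mod_self]
          rw [hh_hi hk i p₁ p₂ h₁ h₂ he _ (Or.inr h1), h1, Nat.sub_zero, Nat.mod_self]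
          congr 1
          omega
        · have h1 : (a + 1).val = a.val + 1 := by rw [hsucc, Nat.mod_eq_of_lt (by omega)]
          rw [hh_hi hk i p₁ p₂ h₁ h₂ he _ (Or.inl (by omega)), h1]
          congr 1
          rw [Nat.mod_eq_of_lt (by omega)]
          omega
    · rw [g3]
      unfold od
      by_cases hE : Even a.val
      · have h3 : a.val + 1 ≠ 4 * k := by
          intro h3
          rw [Nat.even_iff] at hE
          omega
        have h1 : (a + 1).val = a.val + 1 := by rw [hsucc, Nat.mod_eq_of_lt (by omega)]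
        rw [if_pos hE, if_neg (hev.1 hE), hh_hi hk i p₁ p₂ h₁ h₂ he _ (Or.inl (by omega)), h1]
        congr 1
        rw [Nat.mod_eq_of_lt (by omega)]
        omega
      · have hE' : Even n := by
          by_contra h'
          exact hE (hev.2 h')
        rw [if_neg hE, if_pos hE', hh_hi hk i p₁ p₂ h₁ h₂ he a (Or.inl h)]
        congr 1
        rw [Nat.mod_eq_of_lt (by omega)]
        omega

theorem hh_mem {k : ℕ} (hk : 1 ≤ k) (i : Fin N) (p₁ p₂ : List (Fin P × Fin N))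
    (h₁ : p₁.length = k) (h₂ : p₂.length = k) : (hh i p₁ p₂ : ZMod (4 * k) → ℕ) ∈ HH k N P := by
  have hNZ : NeZero (4 * k) := ⟨by omega⟩
  intro t
  have hval : t.val < 4 * k := ZMod.val_lt t
  unfold hh
  split_ifs with h
  · exact qq_lt i p₁ t.val (by rw [h₁]; exact h)
  · have h1 := qq_lt i p₂ (4 * k - t.val) (by rw [h₂]; omega)
    have hev : Even t.val ↔ Even (4 * k - t.val) := by
      rw [Nat.even_iff, Nat.even_iff]
      omega
    rw [hev]
    exact h1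

theorem hh_inj {k : ℕ} (hk : 1 ≤ k) {i i' : Fin N} {p₁ p₂ p₁' p₂' : List (Fin P × Fin N)}
    (h₁ : p₁.length = k) (h₂ : p₂.length = k) (h₁' : p₁'.length = k) (h₂' : p₂'.length = k)
    (he : en i p₁ = en i p₂) (he' : en i' p₁' = en i' p₂')
    (h : (hh i p₁ p₂ : ZMod (4 * k) → ℕ) = hh i' p₁' p₂') : i = i' ∧ p₁ = p₁' ∧ p₂ = p₂' := by
  have hNZ : NeZero (4 * k) := ⟨by omega⟩
  have e1 : ∀ n ≤ 2 * k, qq i p₁ n = qq i' p₁' n := by
    intro n hn
    have h3 : ((n : ZMod (4 * k))).val = n := ZMod.val_cast_of_lt (by omega)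
    have h4 := congrFun h (n : ZMod (4 * k))
    rwa [hh_lo _ _ _ _ (by rw [h3]; exact hn), hh_lo _ _ _ _ (by rw [h3]; exact hn), h3] at h4
  have e2 : ∀ n ≤ 2 * k, qq i p₂ n = qq i' p₂' n := by
    intro n hn
    have h3 : ((((4 * k - n) % (4 * k) : ℕ) : ZMod (4 * k))).val = (4 * k - n) % (4 * k) :=
      ZMod.val_cast_of_lt (Nat.mod_lt _ (by omega))
    have h4 := congrFun h (((4 * k - n) % (4 * k) : ℕ) : ZMod (4 * k))
    have h5 : 2 * k ≤ (4 * k - n) % (4 * k) ∨ (4 * k - n) % (4 * k) = 0 := by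
      rcases Nat.eq_zero_or_pos n with h0 | h0
      · right
        rw [h0, Nat.sub_zero, Nat.mod_self]
      · left
        rw [Nat.mod_eq_of_lt (by omega)]
        omega
    have h6 : (4 * k - (4 * k - n) % (4 * k)) % (4 * k) = n := by
      rcases Nat.eq_zero_or_pos n with h0 | h0
      · rw [h0, Nat.sub_zero, Nat.mod_self, Nat.sub_zero, Nat.mod_self]
      · rw [Nat.mod_eq_of_lt (show 4 * k - n < 4 * k by omega), Nat.mod_eq_of_lt (by omega)]
        omega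
    rwa [hh_hi hk _ _ _ h₁ h₂ he _ (by rw [h3]; exact h5),
      hh_hi hk _ _ _ h₁' h₂' he' _ (by rw [h3]; exact h5), h3, h6] at h4
  obtain ⟨f1, f2⟩ := qq_inj i i' p₁ p₁' (by rw [h₁, h₁']) (by rw [h₁]; exact e1)
  obtain ⟨-, f3⟩ := qq_inj i i' p₂ p₂' (by rw [h₂, h₂']) (by rw [h₂]; exact e2)
  exact ⟨f1, f2, f3⟩

theorem HH_finite {k : ℕ} (hk : 1 ≤ k) (N P : ℕ) : (HH k N P).Finite := by
  have hNZ : NeZero (4 * k) := ⟨by omega⟩
  refine (Set.Finite.pi' (t := fun _ : ZMod (4 * k) => Set.Iio (max N P))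
    fun _ => Set.finite_Iio _).subset ?_
  intro h hh t
  by_cases ht : Even t.val
  · exact lt_max_of_lt_left ((hh t).1 ht)
  · exact lt_max_of_lt_right ((hh t).2 ht)

/-- one term of the second moment -/
def KK (i : Fin N) (p p' : List (Fin P × Fin N)) (g : (Fin N × Fin P) × Fin 4 → ℝ) : ℂ :=
  ct ((wd i p).map (fo u)) g * ct ((wd i p').map (fo' u)) g

variable {u}

theorem KK_bound {k : ℕ} (hk : 1 ≤ k) {κ : ℝ} (hu : ∀ b, ∑ c, ‖u b c‖ ^ 2 ≤ κ) (i : Fin N)
    (p p' : List (Fin P × Fin N)) (h₁ : p.length = k) (h₂ : p'.length = k)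
    (he : en i p = en i p') :
    Integrable (KK u i p p') (gam ((Fin N × Fin P) × Fin 4)) ∧
    ‖∫ g, KK u i p p' g ∂gam ((Fin N × Fin P) × Fin 4)‖ ≤ κ ^ (2 * k) *
      Set.ncard {π : Equiv.Perm (ZMod (4 * k)) | π ∈ PiStar k ∧
        ∀ a, cmp (hh i p p') a (π a)} := by
  have hκ0 : 0 ≤ κ := le_trans (Finset.sum_nonneg fun c _ => sq_nonneg _) (hu true)
  have hu' : ∀ b, ∑ c, ‖(fun c => conj (u b c)) c‖ ^ 2 ≤ κ := by
    intro b
    simpa using hu b
  have h := two_words hk (be u i p p' : ZMod (4 * k) → _) (cmp (hh i p p'))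
    (κ := κ) (fun a b h => ⟨h.1.symm, h.2.symm⟩) ?_ ?_
  · rw [be_w1 u i p p' h₁, be_w2 u i p p' h₂] at h
    exact h
  · intro a b
    obtain ⟨s, v, e, hv, h1, -, -⟩ := be_spec u hk i p p' h₁ h₂ he a
    obtain ⟨s', v', e', hv', h1', -, -⟩ := be_spec u hk i p p' h₁ h₂ he b
    rw [h1, h1', cv_fm]
    split_ifs
    · apply cs4
      · rcases hv with rfl | rfl
        · exact hu s
        · exact hu' s
      · rcases hv' with rfl | rfl
        · exact hu s'
        · exact hu' s'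
    · rw [norm_zero]
      exact hκ0
  · intro a b hab
    obtain ⟨s, v, e, -, h1, h2, h3⟩ := be_spec u hk i p p' h₁ h₂ he a
    obtain ⟨s', v', e', -, h1', h2', h3'⟩ := be_spec u hk i p p' h₁ h₂ he b
    rw [h1, h1', cv_fm, if_neg]
    rintro rfl
    exact hab ⟨by rw [h2, h2'], by rw [h3, h3']⟩

theorem conj_ct (l : List (Lt N P)) (g : (Fin N × Fin P) × Fin 4 → ℝ) :
    conj (ct (l.map (fo u)) g) = ct (l.map (fo' u)) g := by
  unfold ct
  rw [AA_map, AA_map, AA_hom]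
  congr 1
  · funext a b
    unfold cv
    rw [map_sum]
    refine Finset.sum_congr rfl fun i _ => ?_
    simp only [map_mul, fo, fo', fm]
    split_ifs <;> simp
  · funext a
    rw [map_sum]
    refine Finset.sum_congr rfl fun i _ => ?_
    simp only [map_mul, fo, fo', fm]
    split_ifs <;> simp

theorem second_alg {k : ℕ} {τ : ℂ} {α : ℝ} (hτ : N * ∑ c, u false c * u true c = τ)
    (hα : P * ∑ c, u false c * u true c = τ * α) (T : Matrix (Fin N) (Fin N) ℂ)
    (g : (Fin N × Fin P) × Fin 4 → ℝ)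
    (hT : ∀ i j, T i j = ∑ μ, (∑ c, u false c * (g ((i, μ), c) : ℂ)) *
      ∑ c, u true c * (g ((j, μ), c) : ℂ)) :
    ((∑ i, ∑ j, ‖PM τ α T k i j‖ ^ 2 : ℝ) : ℂ) =
      ∑ s : Fin N × (Fin k → Fin P × Fin N) × (Fin k → Fin P × Fin N) with
        en s.1 (List.ofFn s.2.1) = en s.1 (List.ofFn s.2.2),
        KK u s.1 (List.ofFn s.2.1) (List.ofFn s.2.2) g := by
  have h1 := PM_eq (fun l l' => cv (fo u l) (fo u l')) (fun l => ∑ i, fo u l i * (g i : ℂ))
    (c := ∑ c, u false c * u true c) (τ := τ) (α := α) ?_ ?_ hτ hα T ?_ k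
  · have h2 : ∀ i j, PM τ α T k i j = ∑ p : Fin k → Fin P × Fin N,
        if en i (List.ofFn p) = j then ct ((wd i (List.ofFn p)).map (fo u)) g else 0 := by
      intro i j
      rw [h1.1 i j]
      unfold aa ct
      simp only [AA_map]
    have h3 : ∀ i j, ((‖PM τ α T k i j‖ ^ 2 : ℝ) : ℂ) =
        ∑ p : Fin k → Fin P × Fin N, ∑ p' : Fin k → Fin P × Fin N,
        if en i (List.ofFn p) = j ∧ en i (List.ofFn p') = j then
          KK u i (List.ofFn p) (List.ofFn p') g else 0 := by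
      intro i j
      rw [ofReal_pow, ← mul_conj', h2, map_sum, Finset.sum_mul_sum]
      refine Finset.sum_congr rfl fun p _ => Finset.sum_congr rfl fun p' _ => ?_
      by_cases c1 : en i (List.ofFn p) = j
      · by_cases c2 : en i (List.ofFn p') = j
        · rw [if_pos c1, if_pos c2, if_pos ⟨c1, c2⟩, conj_ct]
          rfl
        · rw [if_neg c2, if_neg (fun h : _ ∧ _ => c2 h.2), map_zero, mul_zero]
      · rw [if_neg c1, if_neg (fun h : _ ∧ _ => c1 h.1), zero_mul]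
    rw [ofReal_sum]
    simp only [ofReal_sum, h3]
    rw [Finset.sum_filter, Fintype.sum_prod_type]
    refine Finset.sum_congr rfl fun i _ => ?_
    rw [Finset.sum_comm, Fintype.sum_prod_type]
    refine Finset.sum_congr rfl fun p _ => ?_
    rw [Finset.sum_comm]
    refine Finset.sum_congr rfl fun p' _ => ?_
    rw [Finset.sum_eq_single (en i (List.ofFn p))]
    · simp only [true_and]
      exact if_congr eq_comm rfl rfl
    · intro j _ hj
      exact if_neg fun h => hj h.1.symm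
    · simp
  · intro i μ i'
    show cv (fm (u false) (i, μ)) (fm (u true) (i', μ)) = _
    rw [cv_fm]
    simp
  · intro i μ μ'
    show cv (fm (u true) (i, μ)) (fm (u false) (i, μ')) = _
    rw [cv_fm]
    simp [mul_comm]
  · intro i j
    rw [hT]
    refine Finset.sum_congr rfl fun μ _ => ?_
    show _ = (∑ i_1, fm (u false) (i, μ) i_1 * (g i_1 : ℂ)) *
      ∑ i_1, fm (u true) (j, μ) i_1 * (g i_1 : ℂ)
    rw [val_fm, val_fm]

open Classical in
theorem second_count {k : ℕ} (hk : 1 ≤ k) (hN : (4 * (4 * k) ^ 2) ^ 6 ≤ N)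
    (hP : (4 * (4 * k) ^ 2) ^ 6 ≤ P) :
    ∑ s : Fin N × (Fin k → Fin P × Fin N) × (Fin k → Fin P × Fin N) with
        en s.1 (List.ofFn s.2.1) = en s.1 (List.ofFn s.2.2),
      Set.ncard {π : Equiv.Perm (ZMod (4 * k)) | π ∈ PiStar k ∧
        ∀ a, cmp (hh s.1 (List.ofFn s.2.1) (List.ofFn s.2.2)) a (π a)} ≤
      16 * k * N ^ (k + 2) * P ^ k := by
  have hNZ : NeZero (4 * k) := ⟨by omega⟩
  refine le_trans ?_ (count_le k N P hk hN hP)
  have h1 : ∀ s : Fin N × (Fin k → Fin P × Fin N) × (Fin k → Fin P × Fin N),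
      Set.ncard {π : Equiv.Perm (ZMod (4 * k)) | π ∈ PiStar k ∧
        ∀ a, cmp (hh s.1 (List.ofFn s.2.1) (List.ofFn s.2.2)) a (π a)} =
      (Finset.univ.filter fun π : Equiv.Perm (ZMod (4 * k)) => π ∈ PiStar k ∧
        ∀ a, cmp (hh s.1 (List.ofFn s.2.1) (List.ofFn s.2.2)) a (π a)).card := by
    intro s
    rw [← Set.ncard_coe_finset]
    congr 1
    ext π
    simp
  simp only [h1]
  rw [← Finset.card_sigma, ← Set.ncard_coe_finset]
  refine Set.ncard_le_ncard_of_injOn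
    (fun q : (_ : Fin N × (Fin k → Fin P × Fin N) × (Fin k → Fin P × Fin N)) ×
      Equiv.Perm (ZMod (4 * k)) =>
      (q.2, (hh q.1.1 (List.ofFn q.1.2.1) (List.ofFn q.1.2.2) : ZMod (4 * k) → ℕ))) ?_ ?_ ?_
  · rintro ⟨s, π⟩ hq
    simp only [Finset.coe_sigma, Set.mem_sigma_iff, Finset.mem_coe, Finset.mem_filter,
      Finset.mem_univ, true_and] at hq
    exact ⟨hq.2.1, hh_mem hk _ _ _ (by simp) (by simp), hq.2.2⟩
  · rintro ⟨⟨i, p, p'⟩, π⟩ hq ⟨⟨i', q, q'⟩, π'⟩ hq' h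
    simp only [Finset.coe_sigma, Set.mem_sigma_iff, Finset.mem_coe, Finset.mem_filter,
      Finset.mem_univ, true_and] at hq hq'
    simp only [Prod.mk.injEq] at h
    obtain ⟨g1, g2⟩ := h
    obtain ⟨g3, g4, g5⟩ := hh_inj hk (by simp) (by simp) (by simp) (by simp) hq.1 hq'.1 g2
    subst g1
    subst g3
    rw [List.ofFn_injective g4, List.ofFn_injective g5]
  · refine (Set.Finite.prod (Set.toFinite (Set.univ : Set (Equiv.Perm (ZMod (4 * k)))))
      (HH_finite hk N P)).subset ?_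
    rintro ⟨π, h⟩ hq
    exact ⟨Set.mem_univ _, hq.2.1⟩

theorem second_u {k : ℕ} (hk : 1 ≤ k) (hN : (4 * (4 * k) ^ 2) ^ 6 ≤ N)
    (hP : (4 * (4 * k) ^ 2) ^ 6 ≤ P) {κ : ℝ} (hu : ∀ b, ∑ c, ‖u b c‖ ^ 2 ≤ κ) {τ : ℂ} {α : ℝ}
    (hτ : N * ∑ c, u false c * u true c = τ) (hα : P * ∑ c, u false c * u true c = τ * α)
    (T : ((Fin N × Fin P) × Fin 4 → ℝ) → Matrix (Fin N) (Fin N) ℂ)
    (hT : ∀ g i j, T g i j = ∑ μ, (∑ c, u false c * (g ((i, μ), c) : ℂ)) *
      ∑ c, u true c * (g ((j, μ), c) : ℂ)) :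
    Integrable (fun g => ∑ i, ∑ j, ‖PM τ α (T g) k i j‖ ^ 2) (gam ((Fin N × Fin P) × Fin 4)) ∧
    ∫ g, ∑ i, ∑ j, ‖PM τ α (T g) k i j‖ ^ 2 ∂gam ((Fin N × Fin P) × Fin 4) ≤
      κ ^ (2 * k) * (16 * k * N ^ (k + 2) * P ^ k) := by
  have hκ0 : 0 ≤ κ := le_trans (Finset.sum_nonneg fun c _ => sq_nonneg _) (hu true)
  set S : Finset (Fin N × (Fin k → Fin P × Fin N) × (Fin k → Fin P × Fin N)) :=
    Finset.univ.filter fun s => en s.1 (List.ofFn s.2.1) = en s.1 (List.ofFn s.2.2) with hS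
  have hS' : ∀ s ∈ S, en s.1 (List.ofFn s.2.1) = en s.1 (List.ofFn s.2.2) := by
    intro s hs
    rw [hS, Finset.mem_filter] at hs
    exact hs.2
  have hKK : ∀ s ∈ S, _ := fun s hs => KK_bound (u := u) hk hu s.1 (List.ofFn s.2.1)
    (List.ofFn s.2.2) (by simp) (by simp) (hS' s hs)
  have h1 : Integrable (fun g => ∑ s ∈ S, KK u s.1 (List.ofFn s.2.1) (List.ofFn s.2.2) g)
      (gam ((Fin N × Fin P) × Fin 4)) := integrable_finsetSum _ fun s hs => (hKK s hs).1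
  have h2 : ∀ g, ((∑ i, ∑ j, ‖PM τ α (T g) k i j‖ ^ 2 : ℝ) : ℂ) =
      ∑ s ∈ S, KK u s.1 (List.ofFn s.2.1) (List.ofFn s.2.2) g := fun g =>
    second_alg hτ hα (T g) g (hT g)
  have h3 : Integrable (fun g => ((∑ i, ∑ j, ‖PM τ α (T g) k i j‖ ^ 2 : ℝ) : ℂ))
      (gam ((Fin N × Fin P) × Fin 4)) := by
    simp only [h2]
    exact h1
  have h4 : Integrable (fun g => ∑ i, ∑ j, ‖PM τ α (T g) k i j‖ ^ 2)
      (gam ((Fin N × Fin P) × Fin 4)) := by
    have := h3.re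
    refine this.congr (Eventually.of_forall fun g => ?_)
    exact ofReal_re _
  refine ⟨h4, ?_⟩
  have h5 : ∫ g, ∑ i, ∑ j, ‖PM τ α (T g) k i j‖ ^ 2 ∂gam ((Fin N × Fin P) × Fin 4) ≤
      ‖∫ g, ((∑ i, ∑ j, ‖PM τ α (T g) k i j‖ ^ 2 : ℝ) : ℂ) ∂gam ((Fin N × Fin P) × Fin 4)‖ := by
    rw [integral_complex_ofReal, norm_real]
    exact le_abs_self _
  refine h5.trans ?_
  simp only [h2]
  rw [integral_finsetSum _ fun s hs => (hKK s hs).1]
  refine (norm_sum_le _ _).trans ((Finset.sum_le_sum fun s hs => (hKK s hs).2).trans ?_)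
  rw [← Finset.mul_sum]
  refine mul_le_mul_of_nonneg_left ?_ (by positivity)
  exact_mod_cast second_count (N := N) (P := P) hk hN hP

end

/-- coefficients of the letters -/
def ub (Γ B : Matrix (Fin 4) (Fin 4) ℝ) (b : Bool) (c : Fin 4) : ℂ :=
  match b with
  | false => ((B 0 c : ℂ) + B 1 c * I) / (√(sx2 Γ) : ℂ)
  | true => ((B 2 c : ℂ) - B 3 c * I) / (√(sy2 Γ) : ℂ)

theorem second_moment {Γ : Matrix (Fin 4) (Fin 4) ℝ} (hx : 0 < sx2 Γ) (hy : 0 < sy2 Γ) {k : ℕ}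
    (hk : 1 ≤ k) (hN : (4 * (4 * k) ^ 2) ^ 6 ≤ N)
    (hP : (4 * (4 * k) ^ 2) ^ 6 ≤ P) (B : Matrix (Fin 4) (Fin 4) ℝ)
    (hB : B * B.transpose = (N : ℝ)⁻¹ • Γ) :
    Integrable (fun g => ∑ i, ∑ j, ‖PM (tau Γ) (P / N) ((sxy Γ : ℂ)⁻¹ •
      ((Matrix.of fun (i : Fin N) (μ : Fin P) => xg B g (i, μ)) *
      (Matrix.of fun (i : Fin N) (μ : Fin P) => yg B g (i, μ)).conjTranspose)) k i j‖ ^ 2)
      (gam ((Fin N × Fin P) × Fin 4)) ∧
    ∫ g, ∑ i, ∑ j, ‖PM (tau Γ) (P / N) ((sxy Γ : ℂ)⁻¹ •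
      ((Matrix.of fun (i : Fin N) (μ : Fin P) => xg B g (i, μ)) *
      (Matrix.of fun (i : Fin N) (μ : Fin P) => yg B g (i, μ)).conjTranspose)) k i j‖ ^ 2
      ∂gam ((Fin N × Fin P) × Fin 4) ≤ 16 * k * N ^ 2 * (P / N) ^ k := by
  have hN1 : 1 ≤ N := le_trans (Nat.one_le_pow _ _ (by positivity)) hN
  have hN0 : (N : ℝ) ≠ 0 := by positivity
  have hNC : (N : ℂ) ≠ 0 := by exact_mod_cast hN0
  have hsx : (√(sx2 Γ)) ^ 2 = sx2 Γ := Real.sq_sqrt hx.le
  have hsy : (√(sy2 Γ)) ^ 2 = sy2 Γ := Real.sq_sqrt hy.le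
  have hsx0 : √(sx2 Γ) ≠ 0 := (Real.sqrt_pos.2 hx).ne'
  have hsy0 : √(sy2 Γ) ≠ 0 := (Real.sqrt_pos.2 hy).ne'
  have hsxC : (√(sx2 Γ) : ℂ) ≠ 0 := by exact_mod_cast hsx0
  have hsyC : (√(sy2 Γ) : ℂ) ≠ 0 := by exact_mod_cast hsy0
  have hBB : ∀ i j, ∑ c, B i c * B j c = (N : ℝ)⁻¹ * Γ i j := by
    intro i j
    have := congrFun (congrFun hB i) j
    simpa [Matrix.mul_apply] using this
  have hu : ∀ b, ∑ c, ‖ub Γ B b c‖ ^ 2 ≤ (N : ℝ)⁻¹ := by
    intro b
    cases b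
    · have e1 : ∀ c, ‖ub Γ B false c‖ ^ 2 = (B 0 c * B 0 c + B 1 c * B 1 c) / sx2 Γ := by
        intro c
        show ‖((B 0 c : ℂ) + B 1 c * I) / (√(sx2 Γ) : ℂ)‖ ^ 2 = _
        rw [norm_div, div_pow, norm_real, Real.norm_eq_abs, sq_abs, hsx, Complex.sq_norm,
          normSq_add_mul_I]
        ring
      rw [Finset.sum_congr rfl fun c _ => e1 c, ← Finset.sum_div, Finset.sum_add_distrib, hBB, hBB,
        ← mul_add, mul_div_assoc]
      rw [show Γ 0 0 + Γ 1 1 = sx2 Γ from rfl, div_self hx.ne', mul_one]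
    · have e1 : ∀ c, ‖ub Γ B true c‖ ^ 2 = (B 2 c * B 2 c + B 3 c * B 3 c) / sy2 Γ := by
        intro c
        show ‖((B 2 c : ℂ) - B 3 c * I) / (√(sy2 Γ) : ℂ)‖ ^ 2 = _
        have e2 : ((B 2 c : ℂ) - B 3 c * I) = (B 2 c : ℂ) + ((-B 3 c : ℝ) : ℂ) * I := by
          push_cast
          ring
        rw [norm_div, div_pow, norm_real, Real.norm_eq_abs, sq_abs, hsy, Complex.sq_norm, e2,
          normSq_add_mul_I]
        ring
      rw [Finset.sum_congr rfl fun c _ => e1 c, ← Finset.sum_div, Finset.sum_add_distrib, hBB, hBB,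
        ← mul_add, mul_div_assoc]
      rw [show Γ 2 2 + Γ 3 3 = sy2 Γ from rfl, div_self hy.ne', mul_one]
  have huu : ∑ c, ub Γ B false c * ub Γ B true c = tau Γ / N := by
    have e1 : ∀ c, ub Γ B false c * ub Γ B true c =
        (((B 0 c * B 2 c : ℝ) : ℂ) + ((B 1 c * B 3 c : ℝ) : ℂ) +
        (((B 1 c * B 2 c : ℝ) : ℂ) - ((B 0 c * B 3 c : ℝ) : ℂ)) * I) / (sxy Γ : ℂ) := by
      intro c
      show ((B 0 c : ℂ) + B 1 c * I) / (√(sx2 Γ) : ℂ) *
        (((B 2 c : ℂ) - B 3 c * I) / (√(sy2 Γ) : ℂ)) = _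
      unfold sxy
      rw [div_mul_div_comm]
      push_cast
      congr 1
      linear_combination (-(B 1 c : ℂ) * B 3 c) * I_sq
    rw [Finset.sum_congr rfl fun c _ => e1 c, ← Finset.sum_div]
    rw [Finset.sum_add_distrib, Finset.sum_add_distrib, ← Finset.sum_mul, Finset.sum_sub_distrib,
      ← ofReal_sum, ← ofReal_sum, ← ofReal_sum, ← ofReal_sum, hBB, hBB, hBB, hBB]
    unfold tau
    push_cast
    field_simp
  have h := second_u (N := N) (P := P) (u := ub Γ B) hk hN hP hu (τ := tau Γ) (α := P / N)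
    (by rw [huu]; field_simp) (by rw [huu]; push_cast; field_simp)
    (fun g => ((sxy Γ : ℂ)⁻¹ • ((Matrix.of fun (i : Fin N) (μ : Fin P) => xg B g (i, μ)) *
      (Matrix.of fun (i : Fin N) (μ : Fin P) => yg B g (i, μ)).conjTranspose))) ?_
  · refine ⟨h.1, h.2.trans (le_of_eq ?_)⟩
    rw [div_pow, inv_pow, pow_add, two_mul, pow_add]
    field_simp
  · intro g i j
    rw [Matrix.smul_apply, Matrix.mul_apply, smul_eq_mul, Finset.mul_sum]
    refine Finset.sum_congr rfl fun μ _ => ?_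
    have e1 : ∑ c, ub Γ B false c * (g ((i, μ), c) : ℂ) = xg B g (i, μ) / (√(sx2 Γ) : ℂ) := by
      unfold xg
      rw [Finset.sum_div]
      refine Finset.sum_congr rfl fun c _ => ?_
      show ((B 0 c : ℂ) + B 1 c * I) / (√(sx2 Γ) : ℂ) * _ = _
      ring
    have e2 : ∑ c, ub Γ B true c * (g ((j, μ), c) : ℂ) =
        conj (yg B g (j, μ)) / (√(sy2 Γ) : ℂ) := by
      unfold yg
      rw [map_sum, Finset.sum_div]
      refine Finset.sum_congr rfl fun c _ => ?_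
      show ((B 2 c : ℂ) - B 3 c * I) / (√(sy2 Γ) : ℂ) * _ = _
      simp only [map_mul, map_add, conj_ofReal, conj_I]
      ring
    rw [e1, e2, Matrix.of_apply, Matrix.conjTranspose_apply, Matrix.of_apply]
    unfold sxy
    push_cast
    rw [mul_inv]
    simp only [RCLike.star_def]
    field_simp

end

end Pool.Agent.PG
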