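import Pool.Agent.PG.Gauss

/-!
# Continuants and the Wick formula
-/

open MeasureTheory ProbabilityTheory Filter Topology

namespace Pool.Agent.PG

noncomputable section

variable {ι : Type}

open Classical in
/-- continuant of a word; only the pairs of neighbours with `F` are subtracted -/
def AA (F : ι → ι → Prop) {R : Type} [CommRing R] (C : ι → ι → R) (z : ι → R) : List ι → R
  | [] => 1
  | [a] => z a
  | a :: b :: l => z a * AA F C z (b :: l) - (if F a b then C a b else 0) * AA F C z l

section

variable (F : ι → ι → Prop) {R : Type} [CommRing R] (C : ι → ι → R) (z : ι → R)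

theorem AA_nil : AA F C z [] = 1 := by rw [AA]

theorem AA_one (a : ι) : AA F C z [a] = z a := by rw [AA]

theorem AA_cons_pos {a b : ι} (l : List ι) (h : F a b) :
    AA F C z (a :: b :: l) = z a * AA F C z (b :: l) - C a b * AA F C z l := by
  rw [AA, if_pos h]

theorem AA_cons_neg {a : ι} (l : List ι) (h : ∀ b ∈ l, ¬ F a b) :
    AA F C z (a :: l) = z a * AA F C z l := by
  cases l with
  | nil => rw [AA_nil, AA_one, mul_one]
  | cons b l =>
    rw [AA, if_neg (h b (by simp))]
    ring

theorem AA_hom {S : Type} [CommRing S] (φ : R →+* S) : ∀ l : List ι,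
    φ (AA F C z l) = AA F (fun a b => φ (C a b)) (fun a => φ (z a)) l
  | [] => by rw [AA_nil, AA_nil, map_one]
  | [a] => by rw [AA_one, AA_one]
  | a :: b :: l => by
    have h1 := AA_hom φ (b :: l)
    have h2 := AA_hom φ l
    by_cases h : F a b
    · rw [AA_cons_pos _ _ _ _ h, AA_cons_pos _ _ _ _ h, map_sub, map_mul, map_mul, h1, h2]
    · rw [AA, AA, if_neg h, if_neg h, map_sub, map_mul, map_mul, h1, h2, map_zero]

theorem AA_map {ι' : Type} (f : ι' → ι) : ∀ l : List ι',
    AA F C z (l.map f) = AA (fun a b => F (f a) (f b)) (fun a b => C (f a) (f b))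
      (fun a => z (f a)) l
  | [] => by rw [List.map_nil, AA_nil, AA_nil]
  | [a] => by rw [List.map_singleton, AA_one, AA_one]
  | a :: b :: l => by
    have h1 := AA_map f (b :: l)
    have h2 := AA_map f l
    rw [List.map_cons] at h1
    rw [List.map_cons, List.map_cons, AA, AA, h1, h2]

theorem AA_append : ∀ l₁ l₂ : List ι, (∀ a ∈ l₁, ∀ b ∈ l₂, ¬ F a b) →
    AA F C z (l₁ ++ l₂) = AA F C z l₁ * AA F C z l₂
  | [], l₂, _ => by rw [List.nil_append, AA_nil, one_mul]
  | [a], l₂, h => by
    rw [List.cons_append, List.nil_append, AA_one, AA_cons_neg _ _ _ _ (h a (by simp))]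
  | a :: b :: l, l₂, h => by
    have h1 := AA_append (b :: l) l₂ (fun x hx => h x (List.mem_cons_of_mem _ hx))
    have h2 := AA_append l l₂
      (fun x hx => h x (List.mem_cons_of_mem _ (List.mem_cons_of_mem _ hx)))
    rw [List.cons_append] at h1
    rw [List.cons_append, List.cons_append, AA, AA, h1, h2]
    ring

/-- neighbours satisfy `F` -/
theorem AA_chain : ∀ l : List ι, l.IsChain F → AA F C z l = AA (fun _ _ => True) C z l
  | [], _ => by rw [AA_nil, AA_nil]
  | [a], _ => by rw [AA_one, AA_one]
  | a :: b :: l, h => by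
    rw [List.isChain_cons_cons] at h
    have h1 := AA_chain (b :: l) h.2
    have h2 := AA_chain l h.2.tail
    rw [AA_cons_pos _ _ _ _ h.1, AA_cons_pos _ _ _ _ trivial, h1, h2]

end

/-- `F` does not hold between letters that are not neighbours -/
def Good (F : ι → ι → Prop) : List ι → Prop
  | [] => True
  | [_] => True
  | a :: b :: l => (∀ c ∈ l, ¬ F a c) ∧ Good F (b :: l)

theorem Good.tail {F : ι → ι → Prop} {a : ι} {l : List ι} (h : Good F (a :: l)) : Good F l := by
  cases l with
  | nil => trivial
  | cons b l => exact h.2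

theorem Good.erase [DecidableEq ι] {F : ι → ι → Prop} (x : ι) : ∀ {l : List ι}, Good F l →
    Good F (l.erase x)
  | [], _ => trivial
  | [a], _ => by
    by_cases h : a = x
    · subst h
      simp [Good]
    · rw [List.erase_cons_tail (by simpa using h)]
      trivial
  | a :: b :: l, h => by
    by_cases ha : a = x
    · subst ha
      rw [List.erase_cons_head]
      exact h.2
    · rw [List.erase_cons_tail (by simpa using ha)]
      by_cases hb : b = x
      · subst hb
        rw [List.erase_cons_head]
        cases l with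
        | nil => trivial
        | cons c l =>
          exact ⟨fun d hd => h.1 d (List.mem_cons_of_mem _ hd), h.2.tail⟩
      · have h1 := Good.erase x h.2
        rw [List.erase_cons_tail (by simpa using hb)] at h1 ⊢
        exact ⟨fun c hc => h.1 c (List.mem_of_mem_erase hc), h1⟩

theorem Good.append {F : ι → ι → Prop} : ∀ {l₁ l₂ : List ι}, Good F l₁ → Good F l₂ →
    (∀ a ∈ l₁, ∀ b ∈ l₂, ¬ F a b) → Good F (l₁ ++ l₂)
  | [], l₂, _, h2, _ => h2
  | [a], l₂, _, h2, h => by
    cases l₂ with
    | nil => trivial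
    | cons b l =>
      exact ⟨fun c hc => h a (by simp) c (List.mem_cons_of_mem _ hc), h2⟩
  | a :: b :: l, l₂, h1, h2, h => by
    have := Good.append h1.2 h2 (fun x hx => h x (List.mem_cons_of_mem _ hx))
    refine ⟨fun c hc => ?_, this⟩
    rcases List.mem_append.1 hc with hc | hc
    · exact h1.1 c hc
    · exact h a (by simp) c hc

theorem good_of_idx {F : ι → ι → Prop} : ∀ {l : List ι},
    (∀ i j (hi : i < l.length) (hj : j < l.length), i + 1 < j → ¬ F l[i] l[j]) → Good F l
  | [], _ => trivial
  | [_], _ => trivial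
  | a :: b :: l, h => by
    refine ⟨fun c hc => ?_, good_of_idx fun i j hi hj hij => ?_⟩
    · obtain ⟨j, hj, rfl⟩ := List.mem_iff_getElem.1 hc
      exact h 0 (j + 2) (by simp) (by simp [hj]) (by omega)
    · exact h (i + 1) (j + 1) (by simpa using hi) (by simpa using hj) (by omega)

/-! ### the derivative of a continuant -/

variable {I : Type} [Fintype I] [DecidableEq I]

/-- the continuant of linear forms, as a polynomial -/
def AP (F : ι → ι → Prop) (β : ι → I → ℂ) : List ι → MvPolynomial I ℂ :=
  AA F (fun a b => MvPolynomial.C (cv (β a) (β b))) (fun a => lin (β a))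

theorem dd_AP [DecidableEq ι] (F : ι → ι → Prop) (β : ι → I → ℂ) (β₀ : I → ℂ) :
    ∀ l : List ι, l.Nodup → Good F l →
    dd β₀ (AP F β l) = ∑ b ∈ l.toFinset, MvPolynomial.C (cv β₀ (β b)) * AP F β (l.erase b)
  | [], _, _ => by
    unfold AP
    rw [AA_nil]
    simp
  | [a], _, _ => by
    unfold AP
    rw [AA_one, dd_lin]
    simp [AA_nil]
  | a :: b :: l, hn, hg => by
    rw [List.nodup_cons] at hn
    have hn2 := hn.2
    rw [List.nodup_cons] at hn2
    have e1 := dd_AP F β β₀ (b :: l) hn.2 hg.2
    have e2 := dd_AP F β β₀ l hn2.2 hg.2.tail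
    have ha : a ∉ insert b l.toFinset := by
      intro h
      exact hn.1 (by simpa using h)
    have hb : b ∉ l.toFinset := fun h => hn2.1 (by simpa using h)
    have hab : a ≠ b := fun h => ha (by simp [h])
    rw [List.toFinset_cons, Finset.sum_insert hb, List.erase_cons_head] at e1
    rw [List.toFinset_cons, List.toFinset_cons, Finset.sum_insert ha, Finset.sum_insert hb,
      List.erase_cons_head, List.erase_cons_tail (by simpa using hab), List.erase_cons_head]
    have h3 : AP F β (a :: l) = lin (β a) * AP F β l := AA_cons_neg _ _ _ _ hg.1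
    set f : MvPolynomial I ℂ := open Classical in
      if F a b then MvPolynomial.C (cv (β a) (β b)) else 0 with hf
    have hdf : dd β₀ f = 0 := by
      rw [hf]
      split_ifs
      · rw [dd_apply]
        simp
      · simp
    have h4 : ∀ l' : List ι, AP F β (a :: b :: l') = lin (β a) * AP F β (b :: l') -
        f * AP F β l' := fun l' => by
      unfold AP
      rw [AA]
    have h5 : ∀ c ∈ l.toFinset, MvPolynomial.C (cv β₀ (β c)) * AP F β ((a :: b :: l).erase c) =
        lin (β a) * (MvPolynomial.C (cv β₀ (β c)) * AP F β ((b :: l).erase c)) -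
        f * (MvPolynomial.C (cv β₀ (β c)) * AP F β (l.erase c)) := by
      intro c hc
      have hca : a ≠ c := by
        rintro rfl
        exact hn.1 (List.mem_cons_of_mem _ (by simpa using hc))
      have hcb : b ≠ c := by
        rintro rfl
        exact hb hc
      rw [List.erase_cons_tail (by simpa using hca), List.erase_cons_tail (by simpa using hcb), h4]
      ring
    rw [Finset.sum_congr rfl h5, Finset.sum_sub_distrib, ← Finset.mul_sum, ← Finset.mul_sum,
      ← e2, h3, h4, map_sub, Derivation.leibniz, Derivation.leibniz, hdf, dd_lin, e1]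
    simp only [smul_eq_mul]
    ring

/-! ### matchings -/

variable [Fintype ι] [DecidableEq ι]

open Classical in
/-- matchings of `s` with `G` -/
def Mset (G : ι → ι → Prop) (s : Finset ι) : Finset (Equiv.Perm ι) :=
  Finset.univ.filter fun π => (∀ a, π (π a) = a) ∧ (∀ a ∈ s, π a ≠ a ∧ π a ∈ s ∧ G a (π a)) ∧
    ∀ a ∉ s, π a = a

theorem mem_Mset {G : ι → ι → Prop} {s : Finset ι} {π : Equiv.Perm ι} : π ∈ Mset G s ↔
    (∀ a, π (π a) = a) ∧ (∀ a ∈ s, π a ≠ a ∧ π a ∈ s ∧ G a (π a)) ∧ ∀ a ∉ s, π a = a := by
  simp [Mset]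

open Classical in
theorem Mset_le {G : ι → ι → Prop} (hG : ∀ a b, G a b → G b a) {s : Finset ι} {a : ι}
    (ha : a ∉ s) : ∑ b ∈ s with G a b, (Mset G (s.erase b)).card ≤ (Mset G (insert a s)).card := by
  rw [← Finset.card_sigma]
  refine Finset.card_le_card_of_injOn (fun p => Equiv.swap a p.1 * p.2) ?_ ?_
  · rintro ⟨b, π⟩ hp
    simp only [Finset.coe_sigma, Set.mem_sigma_iff, Finset.mem_coe, Finset.mem_filter,
      mem_Mset] at hp
    obtain ⟨⟨hb, hab⟩, h1, h2, h3⟩ := hp
    have hne : a ≠ b := fun h => ha (h ▸ hb)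
    have hπa : π a = a := h3 a (fun h => ha (Finset.mem_of_mem_erase h))
    have hπb : π b = b := h3 b (Finset.notMem_erase b s)
    have hσa : (Equiv.swap a b * π) a = b := by simp [hπa]
    have hσb : (Equiv.swap a b * π) b = a := by simp [hπb]
    have hσ : ∀ x, x ≠ a → x ≠ b → (Equiv.swap a b * π) x = π x := by
      intro x hxa hxb
      rw [Equiv.Perm.mul_apply, Equiv.swap_apply_of_ne_of_ne]
      · intro h
        exact hxa (π.injective (by rw [h, hπa]))
      · intro h
        exact hxb (π.injective (by rw [h, hπb]))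
    show Equiv.swap a b * π ∈ Mset G (insert a s)
    rw [mem_Mset]
    refine ⟨fun x => ?_, fun x hx => ?_, fun x hx => ?_⟩
    · by_cases hxa : x = a
      · rw [hxa, hσa, hσb]
      by_cases hxb : x = b
      · rw [hxb, hσb, hσa]
      rw [hσ x hxa hxb, hσ, h1]
      · intro h
        exact hxa (π.injective (by rw [h, hπa]))
      · intro h
        exact hxb (π.injective (by rw [h, hπb]))
    · by_cases hxa : x = a
      · subst hxa
        rw [hσa]
        exact ⟨hne.symm, Finset.mem_insert_of_mem hb, hab⟩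
      by_cases hxb : x = b
      · subst hxb
        rw [hσb]
        exact ⟨hne, Finset.mem_insert_self _ _, hG _ _ hab⟩
      rw [hσ x hxa hxb]
      have hx' : x ∈ s.erase b :=
        Finset.mem_erase.2 ⟨hxb, (Finset.mem_insert.1 hx).resolve_left hxa⟩
      obtain ⟨g1, g2, g3⟩ := h2 x hx'
      exact ⟨g1, Finset.mem_insert_of_mem (Finset.mem_of_mem_erase g2), g3⟩
    · have hxa : x ≠ a := fun h => hx (h ▸ Finset.mem_insert_self _ _)
      have hxs : x ∉ s := fun h => hx (Finset.mem_insert_of_mem h)
      have hxb : x ≠ b := fun h => hxs (h ▸ hb)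
      rw [hσ x hxa hxb]
      exact h3 x (fun h => hxs (Finset.mem_of_mem_erase h))
  · rintro ⟨b, π⟩ hp ⟨b', π'⟩ hp' h
    simp only [Finset.coe_sigma, Set.mem_sigma_iff, Finset.mem_coe, Finset.mem_filter,
      mem_Mset] at hp hp'
    obtain ⟨⟨hb, hab⟩, h1, h2, h3⟩ := hp
    obtain ⟨⟨hb', hab'⟩, h1', h2', h3'⟩ := hp'
    have hπa : π a = a := h3 a (fun h => ha (Finset.mem_of_mem_erase h))
    have hπa' : π' a = a := h3' a (fun h => ha (Finset.mem_of_mem_erase h))
    simp only at h
    have hbb : b = b' := by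
      have := congrArg (fun σ : Equiv.Perm ι => σ a) h
      simpa [hπa, hπa'] using this
    subst hbb
    have := mul_left_cancel h
    rw [this]

open Classical in
theorem EE_AP_le (F : ι → ι → Prop) (β : ι → I → ℂ) (comp : ι → ι → Prop) {κ : ℝ}
    (hF : ∀ a b, F a b → F b a) (hc : ∀ a b, comp a b → comp b a)
    (hκ : ∀ a b, ‖cv (β a) (β b)‖ ≤ κ) (h0 : ∀ a b, ¬ comp a b → cv (β a) (β b) = 0) :
    ∀ n, ∀ l : List ι, l.length = n → l.Nodup → Good F l →
      ‖EE (AP F β l)‖ ≤ κ ^ (n / 2) * (Mset (fun a b => ¬ F a b ∧ comp a b) l.toFinset).card := by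
  intro n
  induction n using Nat.strong_induction_on with
  | _ n ih =>
    intro l hl hn hg
    set G : ι → ι → Prop := fun a b => ¬ F a b ∧ comp a b with hGdef
    have hG : ∀ a b, G a b → G b a := fun a b h => ⟨fun h' => h.1 (hF _ _ h'), hc _ _ h.2⟩
    match l, hl, hn, hg with
    | [], hl, _, _ =>
      have hn0 : n = 0 := by simpa using hl.symm
      have h1 : AP F β [] = 1 := AA_nil _ _ _
      rw [h1, EE_one, hn0]
      have h2 : (1 : Equiv.Perm ι) ∈ Mset G ([] : List ι).toFinset := by
        rw [mem_Mset]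
        simp
      have h3 : 1 ≤ (Mset G ([] : List ι).toFinset).card := Finset.card_pos.2 ⟨_, h2⟩
      have h4 : (1 : ℝ) ≤ (Mset G ([] : List ι).toFinset).card := by exact_mod_cast h3
      simpa using h4
    | [a], hl, _, _ =>
      have h1 : AP F β [a] = lin (β a) * 1 := by
        rw [mul_one]
        exact AA_one _ _ _ _
      have hκ0 : 0 ≤ κ := (norm_nonneg _).trans (hκ a a)
      rw [h1, EE_lin_mul]
      have h2 : dd (β a) 1 = 0 := by
        rw [dd_apply]
        simp
      rw [h2, EE_zero, norm_zero]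
      positivity
    | a :: b :: l', hl, hn, hg =>
      have hκ0 : 0 ≤ κ := (norm_nonneg _).trans (hκ a a)
      rw [List.nodup_cons] at hn
      set l₁ : List ι := b :: l' with hl₁
      have hln : n = l₁.length + 1 := by rw [← hl, List.length_cons]
      have hlpos : l₁.length = l'.length + 1 := by rw [hl₁, List.length_cons]
      set f : ℂ := if F a b then cv (β a) (β b) else 0 with hf
      have h4 : AP F β (a :: l₁) = lin (β a) * AP F β l₁ - MvPolynomial.C f * AP F β l' := by
        rw [hl₁]
        unfold AP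
        rw [AA, hf]
        split_ifs <;> simp
      have h5 : EE (AP F β (a :: l₁)) = ∑ c ∈ l₁.toFinset,
          (if F a c then 0 else cv (β a) (β c)) * EE (AP F β (l₁.erase c)) := by
        rw [h4, EE_sub, EE_lin_mul, dd_AP F β (β a) l₁ hn.2 hg.2, EE_sum, EE_C_mul]
        have hb : b ∉ l'.toFinset := by
          have := hn.2
          rw [hl₁, List.nodup_cons] at this
          exact fun h => this.1 (by simpa using h)
        rw [hl₁, List.toFinset_cons, Finset.sum_insert hb, Finset.sum_insert hb,
          List.erase_cons_head, EE_C_mul]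
        have h6 : ∀ c ∈ l'.toFinset, EE (MvPolynomial.C (cv (β a) (β c)) *
            AP F β ((b :: l').erase c)) = (if F a c then 0 else cv (β a) (β c)) *
            EE (AP F β ((b :: l').erase c)) := by
          intro c hc
          rw [EE_C_mul, if_neg (hg.1 c (by simpa using hc))]
        rw [Finset.sum_congr rfl h6, hf]
        split_ifs <;> ring
      rw [h5]
      refine (norm_sum_le _ _).trans ?_
      have h7 : ∀ c ∈ l₁.toFinset,
          ‖(if F a c then 0 else cv (β a) (β c)) * EE (AP F β (l₁.erase c))‖ ≤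
          if G a c then κ ^ (n / 2) * ((Mset G (l₁.toFinset.erase c)).card : ℝ) else 0 := by
        intro c hc
        have hcl : c ∈ l₁ := by simpa using hc
        rw [norm_mul]
        by_cases hFc : F a c
        · rw [if_pos hFc, if_neg (fun h => h.1 hFc)]
          simp
        rw [if_neg hFc]
        by_cases hcc : comp a c
        · rw [if_pos ⟨hFc, hcc⟩]
          have hlen : (l₁.erase c).length = l'.length := by
            rw [List.length_erase_of_mem hcl, hlpos]
            rfl
          have h8 := ih l'.length (by omega) (l₁.erase c) hlen (hn.2.erase c)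
            (Good.erase c hg.2)
          have h9 : (l₁.erase c).toFinset = l₁.toFinset.erase c := by
            ext x
            rw [List.mem_toFinset, hn.2.mem_erase_iff, Finset.mem_erase, List.mem_toFinset]
          rw [h9] at h8
          have h10 : n / 2 = l'.length / 2 + 1 := by omega
          rw [h10, pow_succ', mul_assoc]
          exact mul_le_mul (hκ a c) h8 (norm_nonneg _) hκ0
        · rw [h0 a c hcc, if_neg (fun h => hcc h.2)]
          simp
      refine (Finset.sum_le_sum h7).trans ?_
      rw [← Finset.sum_filter, ← Finset.mul_sum]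
      refine mul_le_mul_of_nonneg_left ?_ (by positivity)
      have h11 : a ∉ l₁.toFinset := fun h => hn.1 (by simpa using h)
      have h12 := Mset_le hG h11
      rw [show (a :: l₁).toFinset = insert a l₁.toFinset from List.toFinset_cons]
      have h13 : ((∑ b ∈ l₁.toFinset with G a b, (Mset G (l₁.toFinset.erase b)).card : ℕ) : ℝ) ≤
          ((Mset G (insert a l₁.toFinset)).card : ℕ) := Nat.cast_le.2 (by convert h12)
      rw [Nat.cast_sum] at h13
      convert h13

/-! ### two words -/

/-- the letters of the first word -/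
def w1 (k : ℕ) : List (ZMod (4 * k)) := (List.range (2 * k)).map fun n : ℕ => (n : ZMod (4 * k))

/-- the letters of the second word -/
def w2 (k : ℕ) : List (ZMod (4 * k)) :=
  (List.range (2 * k)).map fun n : ℕ => (-((n : ZMod (4 * k)) + 1))

theorem val_w1 {k n : ℕ} (hn : n < 2 * k) : ((n : ZMod (4 * k))).val = n :=
  ZMod.val_cast_of_lt (by omega)

theorem w2_eq {k n : ℕ} (hn : n < 2 * k) :
    (-((n : ZMod (4 * k)) + 1)) = ((4 * k - 1 - n : ℕ) : ZMod (4 * k)) := by
  rw [neg_eq_iff_eq_neg, eq_neg_iff_add_eq_zero]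
  have h : ((n : ZMod (4 * k)) + 1) + ((4 * k - 1 - n : ℕ) : ZMod (4 * k)) =
      ((n + 1 + (4 * k - 1 - n) : ℕ) : ZMod (4 * k)) := by push_cast; ring
  rw [h, show n + 1 + (4 * k - 1 - n) = 4 * k by omega, ZMod.natCast_self]

theorem val_w2 {k n : ℕ} (hn : n < 2 * k) :
    (-((n : ZMod (4 * k)) + 1)).val = 4 * k - 1 - n := by
  rw [w2_eq hn]
  exact ZMod.val_cast_of_lt (by omega)

theorem mem_w1 {k : ℕ} {a : ZMod (4 * k)} (h : a ∈ w1 k) : a.val < 2 * k := by
  obtain ⟨n, hn, rfl⟩ := List.mem_map.1 h
  rw [List.mem_range] at hn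
  rw [val_w1 hn]
  exact hn

theorem mem_w2 {k : ℕ} {a : ZMod (4 * k)} (h : a ∈ w2 k) : 2 * k ≤ a.val := by
  obtain ⟨n, hn, rfl⟩ := List.mem_map.1 h
  rw [List.mem_range] at hn
  rw [val_w2 hn]
  omega

theorem cast_eq {k m n : ℕ} (hm : m < 4 * k) (hn : n < 4 * k)
    (h : (m : ZMod (4 * k)) = n) : m = n := by
  have := congrArg ZMod.val h
  rwa [ZMod.val_cast_of_lt hm, ZMod.val_cast_of_lt hn] at this

theorem Fr_symm {k : ℕ} {a b : ZMod (4 * k)} (h : Fr k a b) : Fr k b a :=
  ⟨h.1.symm, h.2.symm⟩

theorem words_nodup (k : ℕ) : (w1 k ++ w2 k).Nodup := by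
  rw [List.nodup_append]
  refine ⟨?_, ?_, ?_⟩
  · refine List.Nodup.map_on (fun x hx y hy h => ?_) List.nodup_range
    rw [List.mem_range] at hx hy
    exact cast_eq (by omega) (by omega) h
  · refine List.Nodup.map_on (fun x hx y hy h => ?_) List.nodup_range
    rw [List.mem_range] at hx hy
    have := congrArg ZMod.val h
    rw [val_w2 hx, val_w2 hy] at this
    omega
  · rintro a ha _ hb rfl
    have h1 := mem_w1 ha
    have h2 := mem_w2 hb
    omega

theorem words_univ (k : ℕ) [NeZero (4 * k)] : (w1 k ++ w2 k).toFinset = Finset.univ := by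
  apply Finset.eq_univ_of_card
  rw [List.toFinset_card_of_nodup (words_nodup k), ZMod.card, List.length_append]
  simp [w1, w2]
  omega

theorem w1_good (k : ℕ) : Good (Fr k) (w1 k) := by
  refine good_of_idx fun i j hi hj hij h => ?_
  simp only [w1, List.length_map, List.length_range] at hi hj
  simp only [w1, List.getElem_map, List.getElem_range] at h
  rcases h.2 with h | h
  · have := cast_eq (k := k) (m := j) (n := i + 1) (by omega) (by omega) (by exact_mod_cast h)
    omega
  · have := cast_eq (k := k) (m := i) (n := j + 1) (by omega) (by omega) (by exact_mod_cast h)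
    omega

theorem w2_good (k : ℕ) : Good (Fr k) (w2 k) := by
  refine good_of_idx fun i j hi hj hij h => ?_
  simp only [w2, List.length_map, List.length_range] at hi hj
  simp only [w2, List.getElem_map, List.getElem_range] at h
  rcases h.2 with h | h
  · have h' : (i : ZMod (4 * k)) = ((j + 1 : ℕ) : ZMod (4 * k)) := by
      push_cast
      linear_combination h
    have := cast_eq (k := k) (m := i) (n := j + 1) (by omega) (by omega) h'
    omega
  · have h' : (j : ZMod (4 * k)) = ((i + 1 : ℕ) : ZMod (4 * k)) := by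
      push_cast
      linear_combination h
    have := cast_eq (k := k) (m := j) (n := i + 1) (by omega) (by omega) h'
    omega

theorem w1_chain (k : ℕ) : (w1 k).IsChain (Fr k) := by
  rw [List.isChain_iff_getElem]
  intro i hi
  simp only [w1, List.length_map, List.length_range] at hi
  simp only [w1, List.getElem_map, List.getElem_range]
  refine ⟨?_, Or.inl (by push_cast; ring)⟩
  rw [val_w1 (by omega), val_w1 (by omega)]
  omega

theorem w2_chain (k : ℕ) : (w2 k).IsChain (Fr k) := by
  rw [List.isChain_iff_getElem]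
  intro i hi
  simp only [w2, List.length_map, List.length_range] at hi
  simp only [w2, List.getElem_map, List.getElem_range]
  refine ⟨?_, Or.inr (by push_cast; ring)⟩
  rw [val_w2 (by omega), val_w2 (by omega)]
  omega

/-- the continuant of a word of linear forms, as a function -/
def ct (l : List (I → ℂ)) (g : I → ℝ) : ℂ :=
  AA (fun _ _ => True) cv (fun β => ∑ i, β i * (g i : ℂ)) l

omit [DecidableEq I] [Fintype ι] [DecidableEq ι] in
theorem ct_eq (β : ι → I → ℂ) (l : List ι) (g : I → ℝ) :
    ct (l.map β) g = MvPolynomial.eval (fun i => (g i : ℂ)) (AP (fun _ _ => True) β l) := by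
  unfold ct AP
  rw [AA_map, AA_hom]
  congr 1
  · funext a b
    simp
  · funext a
    simp [lin]

open Classical in
theorem two_words {k : ℕ} (hk : 1 ≤ k) (β : ZMod (4 * k) → I → ℂ)
    (comp : ZMod (4 * k) → ZMod (4 * k) → Prop) {κ : ℝ} (hc : ∀ a b, comp a b → comp b a)
    (hκ : ∀ a b, ‖cv (β a) (β b)‖ ≤ κ) (h0 : ∀ a b, ¬ comp a b → cv (β a) (β b) = 0) :
    Integrable (fun g => ct ((w1 k).map β) g * ct ((w2 k).map β) g) (gam I) ∧
    ‖∫ g, ct ((w1 k).map β) g * ct ((w2 k).map β) g ∂gam I‖ ≤
      κ ^ (2 * k) * Set.ncard {π : Equiv.Perm (ZMod (4 * k)) | π ∈ PiStar k ∧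
        ∀ a, comp a (π a)} := by
  have : NeZero (4 * k) := ⟨by omega⟩
  have h1 : ∀ g : I → ℝ, ct ((w1 k).map β) g * ct ((w2 k).map β) g =
      MvPolynomial.eval (fun i => (g i : ℂ)) (AP (Fr k) β (w1 k ++ w2 k)) := by
    intro g
    rw [ct_eq, ct_eq, ← map_mul]
    congr 1
    unfold AP
    rw [AA_append, AA_chain _ _ _ _ (w1_chain k), AA_chain _ _ _ _ (w2_chain k)]
    intro a ha b hb h
    have := h.1.1 (mem_w1 ha)
    have := mem_w2 hb
    omega
  refine ⟨?_, ?_⟩
  · simp only [h1]
    exact poly_int _
  have h2 := EE_AP_le (Fr k) β comp (fun _ _ => Fr_symm) hc hκ h0 (4 * k) (w1 k ++ w2 k)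
    (by simp [w1, w2]; omega) (words_nodup k) (Good.append (w1_good k) (w2_good k)
      (fun a ha b hb h => by
        have := h.1.1 (mem_w1 ha)
        have := mem_w2 hb
        omega))
  simp only [h1]
  have h3 : 4 * k / 2 = 2 * k := by omega
  rw [h3, words_univ] at h2
  refine h2.trans (le_of_eq ?_)
  congr 2
  rw [← Set.ncard_coe_finset]
  congr 1
  ext π
  simp only [Finset.mem_coe, mem_Mset, Finset.mem_univ, true_and,
    Set.mem_ofPred_eq, PiStar, not_true_eq_false, IsEmpty.forall_iff, forall_const, and_true]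
  constructor
  · rintro ⟨g1, g2⟩
    exact ⟨fun a => ⟨(g2 a).1, g1 a, (g2 a).2.1⟩, fun a => (g2 a).2.2⟩
  · rintro ⟨g1, g2⟩
    exact ⟨fun a => (g1 a).2.1, fun a => ⟨(g1 a).1, (g1 a).2.2, g2 a⟩⟩

end

end Pool.Agent.PG
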